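import Pool.Agent.Helper64_Chan.Order

/-!
# Satisfiability and linear orders
-/

namespace Pool.Agent.Helper64_Chan

open Pool.Agent.Common_CookLevin (CNFLetter CNF encodeCNF decStep dec_encode)

/-- reading one letter -/
def rd (s : ℕ × List (ℕ × Bool) × CNF) (a : CNFLetter) : ℕ × List (ℕ × Bool) × CNF := decStep a s

theorem foldl_rd (F : CNF) : (encodeCNF F).reverse.foldl rd (0, [], []) = (0, [], F) := by
  rw [List.foldl_reverse]
  exact dec_encode F

/-- the gadgets are well formed -/
theorem wf_wordGadgets (M : ℕ) : ∀ (u : List CNFLetter) (p k : ℕ), k ≤ p → p + u.length ≤ M →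
    ∀ g ∈ wordGadgets M p k u, g.Wf (3 * M + 2)
  | [], _, _, _, _ => by simp [wordGadgets]
  | c :: u, p, k, hk, hp => by
    rw [List.length_cons] at hp
    intro g hg
    unfold wordGadgets at hg
    rw [List.mem_append] at hg
    rcases hg with hg | hg
    · cases c <;> simp only [letterGadgets, List.mem_cons, List.not_mem_nil, or_false] at hg
      · rcases hg with rfl | rfl
        · unfold Gadget.Wf; omega
        · unfold Gadget.Wf; omega
      · subst hg; unfold Gadget.Wf; omega
      · subst hg; unfold Gadget.Wf; omega
      · subst hg; unfold Gadget.Wf; omega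
    · refine wf_wordGadgets M u (p + 1) _ ?_ (by omega) g hg
      split_ifs <;> omega

theorem wf_gadgets (u : List CNFLetter) : ∀ g ∈ gadgets u, g.Wf (3 * u.length + 2) := by
  intro g hg
  unfold gadgets at hg
  rw [List.mem_cons, List.mem_append, List.mem_flatMap] at hg
  rcases hg with rfl | ⟨v, hv, hg⟩ | hg
  · unfold Gadget.Wf; omega
  · rw [List.mem_range] at hv
    simp only [List.mem_cons, List.not_mem_nil, or_false] at hg
    rcases hg with rfl | rfl
    · unfold Gadget.Wf; omega
    · unfold Gadget.Wf; omega
  · exact wf_wordGadgets _ u 0 0 le_rfl (by omega) g hg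

/-- from orders to valuations -/
theorem val_of_rank_aux (M : ℕ) (r : ℕ → ℤ) (v : ℕ → Bool)
    (hv : ∀ k, v k = decide (r (3 * M + 1) < r k))
    (hvar : ∀ k, k < M → Gadget.Sat r (.up (3 * M + 1) k (M + k))) :
    ∀ (u : List CNFLetter) (p k : ℕ) (c : List (ℕ × Bool)) (F : CNF), k ≤ p →
      p + u.length ≤ M → (∀ g ∈ wordGadgets M p k u, g.Sat r) →
      ((∃ l ∈ c, v l.1 = l.2) ∨ r (3 * M + 1) < r (2 * M + p)) →
      (∀ C ∈ F, ∃ l ∈ C, v l.1 = l.2) →
      ∀ C ∈ (u.foldl rd (k, c, F)).2.2, ∃ l ∈ C, v l.1 = l.2
  | [], _, _, _, _, _, _, _, _, hF => hF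
  | a :: u, p, k, c, F, hk, hp, hg, hc, hF => by
    rw [List.length_cons] at hp
    unfold wordGadgets at hg
    rw [List.foldl_cons]
    have hg2 : ∀ g ∈ wordGadgets M (p + 1) (if a = .tick then k + 1 else 0) u, g.Sat r :=
      fun g h => hg g (List.mem_append_right _ h)
    cases a with
    | clause =>
      have h1 : Gadget.Sat r (.test (3 * M + 1) (2 * M + p)) :=
        hg _ (List.mem_append_left _ (by simp [letterGadgets]))
      have h2 : Gadget.Sat r (.test (2 * M + p + 1) (3 * M + 1)) :=
        hg _ (List.mem_append_left _ (by simp [letterGadgets]))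
      simp only [Gadget.Sat] at h1 h2
      refine val_of_rank_aux M r v hv hvar u (p + 1) 0 [] (c :: F) (by omega) (by omega)
        (by simpa using hg2) (Or.inr (by rw [← add_assoc]; exact h2)) ?_
      intro C hC
      rcases List.mem_cons.1 hC with rfl | hC
      · rcases hc with hc | hc
        · exact hc
        · omega
      · exact hF C hC
    | pos =>
      have h1 : Gadget.Sat r (.down (2 * M + p) k (2 * M + p + 1)) :=
        hg _ (List.mem_append_left _ (by simp [letterGadgets]))
      simp only [Gadget.Sat] at h1
      refine val_of_rank_aux M r v hv hvar u (p + 1) 0 ((k, true) :: c) F (by omega) (by omega)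
        (by simpa using hg2) ?_ hF
      rcases hc with ⟨l, hl, hl2⟩ | hc
      · exact Or.inl ⟨l, List.mem_cons_of_mem _ hl, hl2⟩
      · rcases h1 with h1 | h1
        · left
          refine ⟨(k, true), List.mem_cons_self .., ?_⟩
          rw [hv]
          simp only [decide_eq_true_eq]
          omega
        · right
          rw [← add_assoc]
          omega
    | neg =>
      have h1 : Gadget.Sat r (.down (2 * M + p) (M + k) (2 * M + p + 1)) :=
        hg _ (List.mem_append_left _ (by simp [letterGadgets]))
      simp only [Gadget.Sat] at h1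
      refine val_of_rank_aux M r v hv hvar u (p + 1) 0 ((k, false) :: c) F (by omega) (by omega)
        (by simpa using hg2) ?_ hF
      rcases hc with ⟨l, hl, hl2⟩ | hc
      · exact Or.inl ⟨l, List.mem_cons_of_mem _ hl, hl2⟩
      · rcases h1 with h1 | h1
        · left
          refine ⟨(k, false), List.mem_cons_self .., ?_⟩
          have h2 := hvar k (by omega)
          simp only [Gadget.Sat] at h2
          rw [hv]
          simp only [decide_eq_false_iff_not]
          omega
        · right
          rw [← add_assoc]
          omega
    | tick =>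
      have h1 : Gadget.Sat r (.test (2 * M + p + 1) (2 * M + p)) :=
        hg _ (List.mem_append_left _ (by simp [letterGadgets]))
      simp only [Gadget.Sat] at h1
      refine val_of_rank_aux M r v hv hvar u (p + 1) (k + 1) c F (by omega) (by omega)
        (by simpa using hg2) ?_ hF
      rcases hc with hc | hc
      · exact Or.inl hc
      · right
        rw [← add_assoc]
        omega

theorem sat_of_rank {F : CNF} {r : ℕ → ℤ}
    (h : ∀ g ∈ gadgets (encodeCNF F).reverse, g.Sat r) :
    ∃ v : ℕ → Bool, ∀ C ∈ F, ∃ l ∈ C, v l.1 = l.2 := by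
  set u := (encodeCNF F).reverse with hu
  refine ⟨fun k => decide (r (3 * u.length + 1) < r k), ?_⟩
  have h1 := val_of_rank_aux u.length r _ (fun _ => rfl) (by
    intro k hk
    apply h
    unfold gadgets
    rw [List.mem_cons, List.mem_append, List.mem_flatMap]
    exact Or.inr (Or.inl ⟨k, List.mem_range.2 hk, by simp⟩)) u 0 0 [] [] le_rfl (by omega) (by
    intro g hg
    apply h
    unfold gadgets
    rw [List.mem_cons, List.mem_append]
    exact Or.inr (Or.inr hg)) (Or.inr (by
    have := h (.test (2 * u.length) (3 * u.length + 1)) (by
      unfold gadgets; exact List.mem_cons_self ..)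
    exact this)) (by simp)
  rw [hu, foldl_rd] at h1
  exact h1

/-- clauses already read stay -/
theorem foldl_mono : ∀ (u : List CNFLetter) (k : ℕ) (c : List (ℕ × Bool)) (F : CNF),
    ∀ C ∈ F, C ∈ (u.foldl rd (k, c, F)).2.2
  | [], _, _, _, _, h => h
  | a :: u, k, c, F, C, h => by
    rw [List.foldl_cons]
    cases a with
    | clause => exact foldl_mono u 0 [] (c :: F) C (List.mem_cons_of_mem _ h)
    | pos => exact foldl_mono u 0 _ F C h
    | neg => exact foldl_mono u 0 _ F C h
    | tick => exact foldl_mono u (k + 1) c F C h

section

variable (v : ℕ → Bool) (u : List CNFLetter)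

/-- the current clause after `p` letters already contains a true literal -/
def Low (p : ℕ) : Prop := ∃ l ∈ ((u.take p).foldl rd (0, [], [])).2.1, v l.1 = l.2

open Classical in
/-- the rank function of a valuation -/
noncomputable def rk (e : ℕ) : ℤ :=
  if e < u.length then (if v e = true then e + 4 * u.length + 3 else e)
  else if e < 2 * u.length then (if v (e - u.length) = false then e + 4 * u.length + 3 else e)
  else if e ≤ 3 * u.length then (if Low v u (e - 2 * u.length) then e else e + u.length + 2)
  else e

theorem rk_pos_true {k : ℕ} (hk : k < u.length) (h : v k = true) :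
    rk v u k = k + 4 * u.length + 3 := by
  unfold rk; rw [if_pos hk, if_pos h]

theorem rk_pos_false {k : ℕ} (hk : k < u.length) (h : v k = false) : rk v u k = k := by
  unfold rk; rw [if_pos hk, if_neg (by rw [h]; simp)]

theorem rk_neg_true {k : ℕ} (hk : k < u.length) (h : v k = false) :
    rk v u (u.length + k) = (u.length + k : ℕ) + 4 * u.length + 3 := by
  unfold rk; rw [if_neg (by omega), if_pos (by omega), if_pos (by rw [Nat.add_sub_cancel_left]; exact h)]

theorem rk_neg_false {k : ℕ} (hk : k < u.length) (h : v k = true) :
    rk v u (u.length + k) = (u.length + k : ℕ) := by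
  unfold rk
  rw [if_neg (by omega), if_pos (by omega), if_neg (by rw [Nat.add_sub_cancel_left, h]; simp)]

theorem rk_low {p : ℕ} (hp : p ≤ u.length) (h : Low v u p) :
    rk v u (2 * u.length + p) = (2 * u.length + p : ℕ) := by
  unfold rk
  rw [if_neg (by omega), if_neg (by omega), if_pos (by omega),
    if_pos (by rw [Nat.add_sub_cancel_left]; exact h)]

theorem rk_high {p : ℕ} (hp : p ≤ u.length) (h : ¬ Low v u p) :
    rk v u (2 * u.length + p) = (2 * u.length + p : ℕ) + u.length + 2 := by
  unfold rk
  rw [if_neg (by omega), if_neg (by omega), if_pos (by omega),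
    if_neg (by rw [Nat.add_sub_cancel_left]; exact h)]

theorem rk_Z : rk v u (3 * u.length + 1) = (3 * u.length + 1 : ℕ) := by
  unfold rk
  rw [if_neg (by omega), if_neg (by omega), if_neg (by omega)]

theorem rk_le {p : ℕ} (hp : p ≤ u.length) :
    rk v u (2 * u.length + p) ≤ (2 * u.length + p : ℕ) + u.length + 2 := by
  by_cases h : Low v u p
  · rw [rk_low v u hp h]; omega
  · rw [rk_high v u hp h]

theorem rk_step {p : ℕ} (hp : p < u.length) (h : Low v u (p + 1) ↔ Low v u p) :
    rk v u (2 * u.length + p) < rk v u (2 * u.length + p + 1) := by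
  rw [add_assoc (2 * u.length) p 1]
  by_cases h1 : Low v u p
  · rw [rk_low v u hp.le h1, rk_low v u hp (h.2 h1)]; omega
  · rw [rk_high v u hp.le h1, rk_high v u hp (fun h2 => h1 (h.1 h2))]; omega

theorem rk_inj {a b : ℕ} (ha : a < 3 * u.length + 2) (hb : b < 3 * u.length + 2)
    (h : rk v u a = rk v u b) : a = b := by
  have key : ∀ e, e < 3 * u.length + 2 → (rk v u e = e ∧ (e < 2 * u.length ∨
      (2 * u.length ≤ e ∧ e ≤ 3 * u.length + 1))) ∨
      (rk v u e = e + u.length + 2 ∧ 2 * u.length ≤ e ∧ e ≤ 3 * u.length) ∨
      (rk v u e = e + 4 * u.length + 3 ∧ e < 2 * u.length) := by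
    intro e he
    unfold rk
    split_ifs <;> omega
  have := key a ha
  have := key b hb
  omega

theorem sat_wordGadgets (hall : ∀ C ∈ (u.foldl rd (0, [], [])).2.2, ∃ l ∈ C, v l.1 = l.2) :
    ∀ (x pre : List CNFLetter) (k : ℕ) (c : List (ℕ × Bool)) (F : CNF), pre ++ x = u →
      pre.foldl rd (0, [], []) = (k, c, F) → k ≤ pre.length →
      ∀ g ∈ wordGadgets u.length pre.length k x, g.Sat (rk v u)
  | [], _, _, _, _, _, _, _ => by simp [wordGadgets]
  | a :: x, pre, k, c, F, hpre, hst, hk => by
    have hlen : pre.length + (x.length + 1) = u.length := by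
      rw [← hpre]; simp
    have htake : u.take pre.length = pre := by
      rw [← hpre]; simp
    have htake' : u.take (pre.length + 1) = pre ++ [a] := by
      rw [← hpre]
      have : pre.length + 1 = (pre ++ [a]).length := by simp
      rw [this]
      have e : pre ++ a :: x = (pre ++ [a]) ++ x := by simp
      rw [e, List.take_left']
      rfl
    have hlow : Low v u pre.length ↔ ∃ l ∈ c, v l.1 = l.2 := by
      unfold Low; rw [htake, hst]
    have hst' : (pre ++ [a]).foldl rd (0, [], []) = rd (k, c, F) a := by
      rw [List.foldl_append, hst]; rfl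
    have hlow' : Low v u (pre.length + 1) ↔ ∃ l ∈ (rd (k, c, F) a).2.1, v l.1 = l.2 := by
      unfold Low; rw [htake', hst']
    have hpl : pre.length < u.length := by omega
    have hrec : ∀ (k' : ℕ) (c' : List (ℕ × Bool)) (F' : CNF), rd (k, c, F) a = (k', c', F') →
        k' ≤ pre.length + 1 →
        ∀ g ∈ wordGadgets u.length (pre.length + 1) k' x, g.Sat (rk v u) := by
      intro k' c' F' h1 h2
      have := sat_wordGadgets hall x (pre ++ [a]) k' c' F' (by rw [← hpre]; simp)
        (hst'.trans h1) (by simpa using h2)
      simpa using this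
    intro g hg
    unfold wordGadgets at hg
    rw [List.mem_append] at hg
    cases a with
    | clause =>
      rcases hg with hg | hg
      · have hcsat : ∃ l ∈ c, v l.1 = l.2 := by
          apply hall
          rw [← hpre, List.foldl_append, hst, List.foldl_cons]
          exact foldl_mono x 0 [] (c :: F) c (List.mem_cons_self ..)
        have h1 : Low v u pre.length := hlow.2 hcsat
        have h2 : ¬ Low v u (pre.length + 1) := by
          rw [hlow']
          rintro ⟨l, hl, -⟩
          exact List.not_mem_nil hl
        have e1 := rk_low v u hpl.le h1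
        have e2 := rk_high v u hpl h2
        have e3 := rk_Z v u
        simp only [letterGadgets, List.mem_cons, List.not_mem_nil, or_false] at hg
        rcases hg with rfl | rfl
        · simp only [Gadget.Sat]; omega
        · simp only [Gadget.Sat]
          have e4 : rk v u (2 * u.length + pre.length + 1)
              = ((2 * u.length + (pre.length + 1) : ℕ) : ℤ) + u.length + 2 := e2
          rw [e3, e4]; push_cast; omega
      · exact hrec 0 [] (c :: F) rfl (by omega) g (by simpa using hg)
    | pos =>
      rcases hg with hg | hg
      · simp only [letterGadgets, List.mem_cons, List.not_mem_nil, or_false] at hg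
        subst hg
        simp only [Gadget.Sat]
        by_cases hvk : v k = true
        · left
          have e1 := rk_pos_true v u (k := k) (by omega) hvk
          have e2 := rk_le v u hpl.le
          omega
        · right
          apply rk_step v u hpl
          rw [hlow', hlow]
          constructor
          · rintro ⟨l, hl, hl2⟩
            have hl : l ∈ (k, true) :: c := hl
            rcases List.mem_cons.1 hl with rfl | hl
            · exact absurd hl2 hvk
            · exact ⟨l, hl, hl2⟩
          · rintro ⟨l, hl, hl2⟩
            exact ⟨l, List.mem_cons_of_mem _ hl, hl2⟩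
      · exact hrec 0 ((k, true) :: c) F rfl (by omega) g (by simpa using hg)
    | neg =>
      rcases hg with hg | hg
      · simp only [letterGadgets, List.mem_cons, List.not_mem_nil, or_false] at hg
        subst hg
        simp only [Gadget.Sat]
        by_cases hvk : v k = false
        · left
          have e1 := rk_neg_true v u (k := k) (by omega) hvk
          have e2 := rk_le v u hpl.le
          omega
        · right
          apply rk_step v u hpl
          rw [hlow', hlow]
          constructor
          · rintro ⟨l, hl, hl2⟩
            have hl : l ∈ (k, false) :: c := hl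
            rcases List.mem_cons.1 hl with rfl | hl
            · exact absurd hl2 hvk
            · exact ⟨l, hl, hl2⟩
          · rintro ⟨l, hl, hl2⟩
            exact ⟨l, List.mem_cons_of_mem _ hl, hl2⟩
      · exact hrec 0 ((k, false) :: c) F rfl (by omega) g (by simpa using hg)
    | tick =>
      rcases hg with hg | hg
      · simp only [letterGadgets, List.mem_cons, List.not_mem_nil, or_false] at hg
        subst hg
        simp only [Gadget.Sat]
        apply rk_step v u hpl
        rw [hlow', hlow]
        rfl
      · exact hrec (k + 1) c F rfl (by omega) g (by simpa using hg)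

end

/-- from valuations to orders -/
theorem rank_of_sat {F : CNF} {v : ℕ → Bool} (hF : ∀ C ∈ F, ∃ l ∈ C, v l.1 = l.2) :
    ∃ r : ℕ → ℤ, (∀ g ∈ gadgets (encodeCNF F).reverse, g.Sat r) ∧
      ∀ a b, a < 3 * (encodeCNF F).length + 2 → b < 3 * (encodeCNF F).length + 2 →
        r a = r b → a = b := by
  set u := (encodeCNF F).reverse with hu
  have hul : (encodeCNF F).length = u.length := by rw [hu, List.length_reverse]
  rw [hul]
  refine ⟨rk v u, ?_, fun a b ha hb h => rk_inj v u ha hb h⟩
  intro g hg
  unfold gadgets at hg
  rw [List.mem_cons, List.mem_append, List.mem_flatMap] at hg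
  rcases hg with rfl | ⟨k, hk, hg⟩ | hg
  · have h1 : ¬ Low v u 0 := by
      rintro ⟨l, hl, -⟩
      rw [List.take_zero] at hl
      exact List.not_mem_nil hl
    have e1 := rk_high v u (p := 0) (by omega) h1
    have e2 := rk_Z v u
    rw [add_zero] at e1
    simp only [Gadget.Sat]
    omega
  · rw [List.mem_range] at hk
    have e2 := rk_Z v u
    simp only [List.mem_cons, List.not_mem_nil, or_false] at hg
    rcases hg with rfl | rfl
    · simp only [Gadget.Sat]
      cases h : v k
      · left; rw [rk_pos_false v u hk h]; omega
      · right; rw [rk_neg_false v u hk h]; omega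
    · simp only [Gadget.Sat]
      cases h : v k
      · right; rw [rk_neg_true v u hk h]; omega
      · left; rw [rk_pos_true v u hk h]; omega
  · refine sat_wordGadgets v u ?_ u [] 0 [] [] rfl rfl le_rfl g hg
    rw [hu, foldl_rd]
    exact hF

end Pool.Agent.Helper64_Chan
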