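import Pool.Agent.Helper32_HCK.Defs

/-!
# Channel routing problems and their layouts in the two-layer unrestricted model
-/

namespace Pool.Agent.Helper64_Chan

open Pool.Agent.Helper32_HCK (DecisionProblem InNP PolyReduces languageProblem)

/-- A net: the list of the columns of its upper terminals and the list of the columns of its
lower terminals. -/
structure Net where
  /-- columns of the upper terminals -/
  upper : List ℕ
  /-- columns of the lower terminals -/
  lower : List ℕ

/-- A channel routing problem of length `m`: a list of nets. Every net has upper and lower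
terminals, the terminals lie in the columns `1, …, m`, and different terminals (of the same net
or of different nets) on the same side of the channel lie in different columns. -/
structure CRP where
  /-- the length of the channel -/
  m : ℕ
  /-- the nets -/
  nets : List Net
  m_pos : 1 ≤ m
  upper_ne : ∀ N ∈ nets, N.upper ≠ []
  lower_ne : ∀ N ∈ nets, N.lower ≠ []
  upper_mem : ∀ N ∈ nets, ∀ t ∈ N.upper, 1 ≤ t ∧ t ≤ m
  lower_mem : ∀ N ∈ nets, ∀ t ∈ N.lower, 1 ≤ t ∧ t ≤ m
  upper_nodup : (nets.flatMap Net.upper).Nodup
  lower_nodup : (nets.flatMap Net.lower).Nodup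

/-- Vertices of the cubic grid `{1, …, m} × {0, …, w + 1} × {0, 1}`: (column, track, layer). -/
abbrev GridVertex (m w : ℕ) : Type :=
  {v : ℕ × ℕ × ℕ // (1 ≤ v.1 ∧ v.1 ≤ m) ∧ v.2.1 ≤ w + 1 ∧ v.2.2 ≤ 1}

/-- The cubic grid graph: two vertices are adjacent when they differ by one in exactly one
coordinate. -/
def gridGraph (m w : ℕ) : SimpleGraph (GridVertex m w) where
  Adj u v := Nat.dist u.val.1 v.val.1 + Nat.dist u.val.2.1 v.val.2.1 +
    Nat.dist u.val.2.2 v.val.2.2 = 1
  symm := ⟨fun u v h => by
    rw [Nat.dist_comm v.val.1, Nat.dist_comm v.val.2.1, Nat.dist_comm v.val.2.2]; exact h⟩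
  loopless := ⟨fun u h => by simp [Nat.dist_self] at h⟩

/-- A layout of width `w` of a channel routing problem: a family of pairwise vertex-disjoint
connected subgraphs of the grid graph, one for each net, containing the terminals of the net. A
terminal is a pair of vertices on a boundary track, one on each layer, together with the edge
joining them. -/
structure Layout (C : CRP) (w : ℕ) where
  /-- the subgraph realizing a net -/
  part : Fin C.nets.length → (gridGraph C.m w).Subgraph
  connected : ∀ i, (part i).Connected
  disjoint : ∀ i j, i ≠ j → Disjoint (part i).verts (part j).verts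
  upper : ∀ i, ∀ t ∈ (C.nets.get i).upper, ∃ a b : GridVertex C.m w,
    a.val = (t, w + 1, 0) ∧ b.val = (t, w + 1, 1) ∧ (part i).Adj a b
  lower : ∀ i, ∀ t ∈ (C.nets.get i).lower, ∃ a b : GridVertex C.m w,
    a.val = (t, 0, 0) ∧ b.val = (t, 0, 1) ∧ (part i).Adj a b

/-- The minimum width of a layout (`⊤` if there is no layout). -/
noncomputable def CRP.wmin (C : CRP) : ℕ∞ := ⨅ w ∈ {w : ℕ | Nonempty (Layout C w)}, (w : ℕ∞)

theorem CRP.wmin_le_iff (C : CRP) (w : ℕ) :
    C.wmin ≤ w ↔ ∃ w' ≤ w, Nonempty (Layout C w') := by
  constructor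
  · intro h
    by_contra hc
    push Not at hc
    have h1 : ((w + 1 : ℕ) : ℕ∞) ≤ C.wmin := by
      unfold CRP.wmin
      refine le_iInf₂ fun w' hw' => ?_
      have h2 : w + 1 ≤ w' := by
        by_contra h3
        exact (not_nonempty_iff.2 (hc w' (by omega))) hw'
      exact_mod_cast h2
    have h2 := h1.trans h
    have h3 : w + 1 ≤ w := by exact_mod_cast h2
    omega
  · rintro ⟨w', h1, h2⟩
    unfold CRP.wmin
    exact (iInf₂_le w' h2).trans (by exact_mod_cast h1)

/-- A problem is dense if every boundary point is a terminal of some net. -/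
def CRP.Dense (C : CRP) : Prop :=
  ∀ x, 1 ≤ x → x ≤ C.m → (∃ N ∈ C.nets, x ∈ N.upper) ∧ (∃ N ∈ C.nets, x ∈ N.lower)

/-- letters for writing down channel routing problems -/
inductive Letter
  | width | net | upper | lower | tick
  deriving DecidableEq

instance : Fintype Letter := ⟨{.width, .net, .upper, .lower, .tick}, by
  intro x; cases x <;> decide⟩

/-- encoding of a net: the letter `net`, and for each terminal the letter `upper` or `lower`
followed by its column in unary -/
def encNet (N : Net) : List Letter :=
  .net :: (N.upper.flatMap (fun t => .upper :: List.replicate t .tick) ++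
    N.lower.flatMap (fun b => .lower :: List.replicate b .tick))

/-- encoding of a channel of length `m` with the given nets, and a width `w` -/
def encRaw (m : ℕ) (nets : List Net) (w : ℕ) : List Letter :=
  List.replicate m .tick ++ .width :: (List.replicate w .tick ++ nets.flatMap encNet)

/-- reading a letter from right to left -/
def readStep : Letter → ℕ × List ℕ × List ℕ × List Net × ℕ →
    ℕ × List ℕ × List ℕ × List Net × ℕ
  | .tick, (k, us, ls, ns, w) => (k + 1, us, ls, ns, w)
  | .lower, (k, us, ls, ns, w) => (0, us, k :: ls, ns, w)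
  | .upper, (k, us, ls, ns, w) => (0, k :: us, ls, ns, w)
  | .net, (_, us, ls, ns, w) => (0, [], [], ⟨us, ls⟩ :: ns, w)
  | .width, (k, us, ls, ns, _) => (0, us, ls, ns, k)

theorem read_ticks (us ls : List ℕ) (ns : List Net) (w : ℕ) : ∀ n : ℕ,
    (List.replicate n Letter.tick).foldr readStep (0, us, ls, ns, w) = (n, us, ls, ns, w)
  | 0 => rfl
  | n + 1 => by
    rw [List.replicate_succ, List.foldr_cons, read_ticks us ls ns w n]
    rfl

theorem read_lower (us : List ℕ) (ns : List Net) (w : ℕ) : ∀ ls : List ℕ,
    (ls.flatMap (fun b => Letter.lower :: List.replicate b .tick)).foldr readStep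
      (0, us, [], ns, w) = (0, us, ls, ns, w)
  | [] => rfl
  | b :: ls => by
    rw [List.flatMap_cons, List.foldr_append, read_lower us ns w ls, List.foldr_cons,
      read_ticks]
    rfl

theorem read_upper (ls : List ℕ) (ns : List Net) (w : ℕ) : ∀ us : List ℕ,
    (us.flatMap (fun b => Letter.upper :: List.replicate b .tick)).foldr readStep
      (0, [], ls, ns, w) = (0, us, ls, ns, w)
  | [] => rfl
  | b :: us => by
    rw [List.flatMap_cons, List.foldr_append, read_upper ls ns w us, List.foldr_cons,
      read_ticks]
    rfl

theorem read_nets (w : ℕ) : ∀ ns : List Net,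
    (ns.flatMap encNet).foldr readStep (0, [], [], [], w) = (0, [], [], ns, w)
  | [] => rfl
  | N :: ns => by
    rw [List.flatMap_cons, List.foldr_append, read_nets w ns]
    unfold encNet
    rw [List.foldr_cons, List.foldr_append, read_lower, read_upper]
    rfl

theorem read_encRaw (m : ℕ) (ns : List Net) (w : ℕ) :
    (encRaw m ns w).foldr readStep (0, [], [], [], 0) = (m, [], [], ns, w) := by
  unfold encRaw
  rw [List.foldr_append, List.foldr_cons, List.foldr_append, read_nets, read_ticks]
  exact read_ticks [] [] ns w m

theorem encRaw_inj {m m' w w' : ℕ} {ns ns' : List Net}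
    (h : encRaw m ns w = encRaw m' ns' w') : m = m' ∧ ns = ns' ∧ w = w' := by
  have h1 := read_encRaw m ns w
  rw [h, read_encRaw] at h1
  simp only [Prod.mk.injEq, true_and] at h1
  exact ⟨h1.1.symm, h1.2.1.symm, h1.2.2.symm⟩

theorem CRP.eq_of {C C' : CRP} (h1 : C.m = C'.m) (h2 : C.nets = C'.nets) : C = C' := by
  cases C; cases C'
  simp only at h1 h2
  subst h1 h2
  rfl

/-- The minimum width channel routing problem: given a channel routing problem `C` and `w`, is
`w_min(C) ≤ w`? -/
noncomputable def channelProblem : DecisionProblem where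
  Inst := CRP × ℕ
  Alph := Letter
  alphFintype := inferInstance
  enc := fun x => encRaw x.1.m x.1.nets x.2
  enc_injective := by
    rintro ⟨C, w⟩ ⟨C', w'⟩ h
    obtain ⟨h1, h2, h3⟩ := encRaw_inj h
    exact Prod.ext (CRP.eq_of h1 h2) h3
  Yes := fun x => x.1.wmin ≤ x.2

/-- The same problem for dense channel routing problems only. -/
noncomputable def denseChannelProblem : DecisionProblem where
  Inst := {x : CRP × ℕ // x.1.Dense}
  Alph := Letter
  alphFintype := inferInstance
  enc := fun x => encRaw x.val.1.m x.val.1.nets x.val.2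
  enc_injective := by
    rintro ⟨⟨C, w⟩, hC⟩ ⟨⟨C', w'⟩, hC'⟩ h
    obtain ⟨h1, h2, h3⟩ := encRaw_inj h
    exact Subtype.ext (Prod.ext (CRP.eq_of h1 h2) h3)
  Yes := fun x => x.val.1.wmin ≤ x.val.2

/-- NP-hardness under polynomial-time many-one reductions. -/
def NPHard (P : DecisionProblem) : Prop :=
  ∀ L : Set (List Bool), InNP (languageProblem L) → PolyReduces (languageProblem L) P

end Pool.Agent.Helper64_Chan
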