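import Pool.Agent.Common_CookLevin.Sat
import Pool.Agent.Helper64_Chan.Defs

/-!
# The reduction from satisfiability to channel routing, on the level of lists
-/

namespace Pool.Agent.Helper64_Chan

open Pool.Agent.Common_CookLevin (CNFLetter CNF encodeCNF)

/-- Constraints on a linear order of the elements `0, 1, …, N - 1`:
`test a b`: `a` is above `b`; `up a b c`: `a` is above `b` or above `c`;
`down a b c`: `a` is below `b` or below `c`. -/
inductive Gadget
  | test (a b : ℕ)
  | up (a b c : ℕ)
  | down (a b c : ℕ)

/-- constraints for one letter of the (reversed) formula -/
def letterGadgets (M p k : ℕ) : CNFLetter → List Gadget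
  | .tick => [.test (2 * M + p + 1) (2 * M + p)]
  | .pos => [.down (2 * M + p) k (2 * M + p + 1)]
  | .neg => [.down (2 * M + p) (M + k) (2 * M + p + 1)]
  | .clause => [.test (3 * M + 1) (2 * M + p), .test (2 * M + p + 1) (3 * M + 1)]

/-- constraints for a final part of the reversed formula: `p` letters came before, the last `k`
of them are ticks -/
def wordGadgets (M : ℕ) : ℕ → ℕ → List CNFLetter → List Gadget
  | _, _, [] => []
  | p, k, c :: u =>
    letterGadgets M p k c ++ wordGadgets M (p + 1) (if c = .tick then k + 1 else 0) u

/-- All constraints for the reversed formula `u` of length `M`. The elements are the literals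
`v` and `M + v` (`v < M`), the chain `2 * M + p` (`p ≤ M`), and the centre `3 * M + 1`. -/
def gadgets (u : List CNFLetter) : List Gadget :=
  .test (2 * u.length) (3 * u.length + 1) ::
    ((List.range u.length).flatMap (fun v =>
      [.up (3 * u.length + 1) v (u.length + v), .down (3 * u.length + 1) v (u.length + v)]) ++
    wordGadgets u.length 0 0 u)

/-- Columns: `none` is a column with its own net, `some (a, b)` a column with upper terminal of
the net `a` and lower terminal of the net `b`. -/
abbrev Column : Type := Option (ℕ × ℕ)

/-- a block of `L` columns having their own nets -/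
def blk (L : ℕ) : List Column := List.replicate L none

/-- columns which force the net `N + 1` to the bottom and the net `N` to the top -/
def tall (N L : ℕ) : List Column :=
  (List.range (N + 1)).flatMap (fun e => some (e, N + 1) :: blk L) ++
    (List.range N).flatMap (fun e => some (N, e) :: blk L)

/-- columns of a gadget -/
def gcols (N L : ℕ) : Gadget → List Column
  | .test a b => some (a, b) :: blk L
  | .up a b c => some (a, b) :: some (N, c) :: blk L
  | .down a b c => some (b, a) :: some (c, N + 1) :: blk L

/-- the columns at both ends -/
def side (N : ℕ) : List Column := (List.range (N + 2)).map (fun e => some (e, e))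

/-- all columns -/
def cols (N L : ℕ) (gs : List Gadget) : List Column :=
  side N ++ (blk L ++ (gs.flatMap (fun g => tall N L ++ gcols N L g) ++ (tall N L ++ side N)))

/-- the length of the blocks -/
def blockLen (N : ℕ) : ℕ := 4 * (N + 2) * (N + 2) + 4 * (N + 2) + 1

/-- the positions (starting with `x`) of the columns satisfying `p` -/
def colIdx (p : Column → Bool) : ℕ → List Column → List ℕ
  | _, [] => []
  | x, c :: cs => if p c then x :: colIdx p (x + 1) cs else colIdx p (x + 1) cs

/-- the column has its upper terminal in net `e` -/
def hasTop (e : ℕ) : Column → Bool
  | none => false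
  | some (a, _) => a == e

/-- the column has its lower terminal in net `e` -/
def hasBot (e : ℕ) : Column → Bool
  | none => false
  | some (_, b) => b == e

/-- the nets given by a list of columns -/
def netsOf (W : ℕ) (cs : List Column) : List Net :=
  (List.range W).map (fun e => ⟨colIdx (hasTop e) 1 cs, colIdx (hasBot e) 1 cs⟩) ++
    (colIdx Option.isNone 1 cs).map (fun x => ⟨[x], [x]⟩)

/-- the number of elements -/
def numEl (F : CNF) : ℕ := 3 * (encodeCNF F).length + 2

/-- the columns of the channel routing problem for a formula -/
def colsOf (F : CNF) : List Column :=
  cols (numEl F) (blockLen (numEl F)) (gadgets (encodeCNF F).reverse)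

/-- the word describing the channel routing problem and the width for a formula -/
def outWord (F : CNF) : List Letter :=
  encRaw (colsOf F).length (netsOf (numEl F + 2) (colsOf F)) (numEl F + 2)

end Pool.Agent.Helper64_Chan
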