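import Pool.Agent.Helper64_Chan.Psi

/-!
# Tight cuts, walls near the boundary rows
-/

namespace Pool.Agent.Helper64_Chan

namespace Region

variable {ι : Type} (R : Region ι)

theorem isW_of_mem_wall {R : Region ι} {z : ℤ} {u : Vx} (h : R.Mem (.inr z) u) :
    isW (R.own u) = 1 := by
  rw [h.2.2.2.2]; rfl

theorem isW_of_mem_net {R : Region ι} {i : ι} {u : Vx} (h : R.Mem (.inl i) u) :
    isW (R.own u) = 0 := by
  rw [h.2.2.2.2]; rfl

/-- a cell with a wall vertex -/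
theorem psi_of_wall {z x y : ℤ} {l : Bool} (h : R.Mem (.inr z) (x, y, l)) (h1 : 1 ≤ y)
    (h2 : y ≤ R.w) : R.psi x y = 0 := by
  have h3 := R.psi_nonneg (x := x) (y := y) (by omega) (by omega) h.1 h.2.1
  have h4 := isW_of_mem_wall h
  rw [R.psi_in h1 h2] at h3 ⊢
  have h5 := isW_nonneg (R.own (x, y, false))
  have h6 := isW_nonneg (R.own (x, y, true))
  cases l <;> omega

/-- no cell contains two wall vertices -/
theorem not_two_walls {z z' x y : ℤ} {l : Bool} (h : R.Mem (.inr z) (x, y, l))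
    (h' : R.Mem (.inr z') (x, y, !l)) (h1 : 1 ≤ y) (h2 : y ≤ R.w) : False := by
  have h3 := R.psi_nonneg (x := x) (y := y) (by omega) (by omega) h.1 h.2.1
  have h4 := isW_of_mem_wall h
  have h5 := isW_of_mem_wall h'
  rw [R.psi_in h1 h2] at h3
  cases l <;> simp only [Bool.not_false, Bool.not_true] at h5 <;> omega

theorem psi_one_of_nets {i j : ι} {x y : ℤ} {l : Bool} (h : R.Mem (.inl i) (x, y, l))
    (h' : R.Mem (.inl j) (x, y, !l)) (h1 : 1 ≤ y) (h2 : y ≤ R.w) : R.psi x y = 1 := by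
  have h4 := isW_of_mem_net h
  have h5 := isW_of_mem_net h'
  rw [R.psi_in h1 h2]
  cases l <;> simp only [Bool.not_false, Bool.not_true] at h5 <;> omega

theorem LR_count {L : ℤ → ℤ} (hL : R.LRcut L) (X : Finset ℤ)
    (hX : ∀ x ∈ X, R.f₁ ≤ x ∧ x ≤ R.f₂ ∧ R.psi x (L x) = 1) : (X.card : ℤ) ≤ R.s := by
  have h1 : X ⊆ Finset.Icc R.f₁ R.f₂ := by
    intro x hx
    have := hX x hx
    exact Finset.mem_Icc.2 ⟨this.1, this.2.1⟩
  have h2 : ∑ x ∈ X, R.psi x (L x) ≤ ∑ x ∈ Finset.Icc R.f₁ R.f₂, R.psi x (L x) := by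
    apply Finset.sum_le_sum_of_subset_of_nonneg h1
    intro x hx _
    rw [Finset.mem_Icc] at hx
    have := hL.2 x hx.1 hx.2
    exact R.psi_nonneg this.1 this.2 hx.1 hx.2
  have h3 : ∑ x ∈ X, R.psi x (L x) = X.card := by
    rw [Finset.sum_congr rfl (fun x hx => (hX x hx).2.2)]
    simp
  have := R.LR_sum hL
  omega

/-- at most `s` cells without walls in a row -/
theorem row_count {y : ℤ} (h1 : 0 ≤ y) (h2 : y ≤ R.w + 1) (X : Finset ℤ)
    (hX : ∀ x ∈ X, R.f₁ ≤ x ∧ x ≤ R.f₂ ∧ R.psi x y = 1) : (X.card : ℤ) ≤ R.s :=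
  R.LR_count (L := fun _ => y) ⟨fun x _ _ => ⟨by simp, by simp⟩, fun x _ _ => ⟨h1, h2⟩⟩ X hX

theorem psi_cases {x y : ℤ} (h1 : 0 ≤ y) (h2 : y ≤ R.w + 1) (h3 : R.f₁ ≤ x)
    (h4 : x ≤ R.f₂) : R.psi x y = 0 ∨ R.psi x y = 1 := by
  have := R.psi_nonneg h1 h2 h3 h4
  have := R.psi_le x y
  omega

/-- two nets at a cell with a wall coincide -/
theorem net_unique {i j : ι} {x y : ℤ} {l l' : Bool} (h : R.Mem (.inl i) (x, y, l))
    (h' : R.Mem (.inl j) (x, y, l')) (h1 : 1 ≤ y) (h2 : y ≤ R.w) (h0 : R.psi x y = 0) :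
    i = j ∧ l = l' := by
  by_cases hl : l' = l
  · subst hl
    exact ⟨Sum.inl.inj (h.eq h'), rfl⟩
  · have : l' = !l := by cases l <;> cases l' <;> simp_all
    subst this
    have := R.psi_one_of_nets h h' h1 h2
    omega

/-- A cut all of whose cells contain a wall vertex. -/
def PF (T : ℤ → ℤ) : Prop := R.TBcut T ∧ ∀ y, 1 ≤ y → y ≤ R.w → R.psi (T y) y = 0

theorem PF.data {R : Region ι} {T : ℤ → ℤ} (hT : R.PF T) :
    (∀ y, 1 ≤ y → y ≤ R.w → ∃ i l, R.Mem (.inl i) (T y, y, l)) ∧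
    (∀ i y l y' l', 1 ≤ y → y ≤ R.w → 1 ≤ y' → y' ≤ R.w → R.Mem (.inl i) (T y, y, l) →
      R.Mem (.inl i) (T y', y', l') → y = y' ∧ l = l') := by
  classical
  have hh : ∀ i : ι, ∃ y, (1 ≤ y ∧ y ≤ R.w) ∧ ∃ l, R.Mem (.inl i) (T y, y, l) := by
    intro i
    obtain ⟨y, l, h1, h2, h3⟩ := R.TB_hit hT.1 i
    exact ⟨y, ⟨h1, h2⟩, l, h3⟩
  choose h hr hm using hh
  have hinj : ∀ i j, h i = h j → i = j := by
    intro i j hij
    obtain ⟨l, h1⟩ := hm i
    obtain ⟨l', h2⟩ := hm j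
    rw [← hij] at h2
    exact (R.net_unique h1 h2 (hr i).1 (hr i).2 (hT.2 _ (hr i).1 (hr i).2)).1
  have hsurj : ∀ y, 1 ≤ y → y ≤ R.w → ∃ i, h i = y := by
    have := Finset.surjOn_of_injOn_of_card_le (s := Finset.Icc 1 R.w) (t := Finset.Icc 1 R.w)
      (fun y => h (R.p₁ y)) (by
        intro y _
        have := hr (R.p₁ y)
        simpa using this) (by
        intro y hy y' hy' e
        simp only [Finset.coe_Icc, Set.mem_Icc] at hy hy'
        exact R.inj₁ y y' hy.1 hy.2 hy'.1 hy'.2 (hinj _ _ e)) le_rfl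
    intro y h1 h2
    obtain ⟨y', -, h3⟩ := this (show y ∈ (Finset.Icc 1 R.w : Finset ℤ) from by simp [h1, h2])
    exact ⟨_, h3⟩
  refine ⟨?_, ?_⟩
  · intro y h1 h2
    obtain ⟨i, rfl⟩ := hsurj y h1 h2
    obtain ⟨l, h3⟩ := hm i
    exact ⟨i, l, h3⟩
  · have key : ∀ i y l, 1 ≤ y → y ≤ R.w → R.Mem (.inl i) (T y, y, l) → h i = y := by
      intro i y l h1 h2 h3
      obtain ⟨j, rfl⟩ := hsurj y h1 h2
      obtain ⟨l', h4⟩ := hm j
      rw [(R.net_unique h3 h4 h1 h2 (hT.2 _ h1 h2)).1]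
    intro i y l y' l' h1 h2 h3 h4 h5 h6
    have e1 := key i y l h1 h2 h5
    have e2 := key i y' l' h3 h4 h6
    have e3 : y = y' := e1.symm.trans e2
    subst e3
    exact ⟨rfl, (R.net_unique h5 h6 h1 h2 (hT.2 _ h1 h2)).2⟩

theorem PF.exit {R : Region ι} {T : ℤ → ℤ} (hT : R.PF T) {i : ι} {y : ℤ} {l : Bool}
    (h1 : 1 ≤ y) (h2 : y ≤ R.w) (h : R.Mem (.inl i) (T y, y, l)) (hf : T y < R.f₂) :
    R.Mem (.inl i) (T y + 1, y, l) ∨
        (y + 1 ≤ R.w ∧ T (y + 1) = T y - 1 ∧ R.Mem (.inl i) (T y, y + 1, l)) ∨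
        (1 ≤ y - 1 ∧ T (y - 1) = T y - 1 ∧ R.Mem (.inl i) (T y, y - 1, l)) := by
  obtain ⟨y', l', h3, h4, h5, h6⟩ := R.exit' hT.1 i (by
    intro y' h3 h4 h5
    have h6 := (hT.1.2 y' h3 h4).2
    rcases eq_or_lt_of_le h6 with h7 | h7
    · have h8 := R.mem_p₂ h3 h4
      rw [h5, ← h7] at h8
      obtain ⟨h9, -⟩ := hT.data.2 i y l y' R.m₂ h1 h2 h3 h4 h h8
      subst h9
      omega
    · exact h7)
  obtain ⟨rfl, rfl⟩ := hT.data.2 i y l y' l' h1 h2 h3 h4 h h5
  exact h6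

theorem PF.entry {R : Region ι} {T : ℤ → ℤ} (hT : R.PF T) {i : ι} {y : ℤ} {l : Bool}
    (h1 : 1 ≤ y) (h2 : y ≤ R.w) (h : R.Mem (.inl i) (T y, y, l)) (hf : R.f₁ < T y) :
    R.Mem (.inl i) (T y - 1, y, l) ∨
        (y + 1 ≤ R.w ∧ T (y + 1) = T y + 1 ∧ R.Mem (.inl i) (T y, y + 1, l)) ∨
        (1 ≤ y - 1 ∧ T (y - 1) = T y + 1 ∧ R.Mem (.inl i) (T y, y - 1, l)) := by
  obtain ⟨y', l', h3, h4, h5, h6⟩ := R.entry' hT.1 i (by
    intro y' h3 h4 h5
    have h6 := (hT.1.2 y' h3 h4).1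
    rcases eq_or_lt_of_le h6 with h7 | h7
    · have h8 := R.mem_p₁ h3 h4
      rw [h5, h7] at h8
      obtain ⟨h9, -⟩ := hT.data.2 i y l y' R.m₁ h1 h2 h3 h4 h h8
      subst h9
      omega
    · exact h7)
  obtain ⟨rfl, rfl⟩ := hT.data.2 i y l y' l' h1 h2 h3 h4 h h5
  exact h6

/-- free paths upwards -/
theorem exists_up {x y : ℤ} (h1 : 0 ≤ y) (h2 : y ≤ R.w) (h3 : R.f₁ ≤ x) (h4 : x ≤ R.f₂) :
    ∃ q : ℤ → ℤ, q y = x ∧
      (∀ t, y ≤ t → t < R.w → q (t + 1) ≤ q t + 1 ∧ q t ≤ q (t + 1) + 1) ∧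
      (∀ t, y < t → t ≤ R.w → R.f₁ ≤ q t ∧ q t ≤ R.f₂ ∧ R.psi (q t) t = 0) := by
  obtain ⟨k, hk, q, h5, h6, h7, h8⟩ := R.up_nonpos R.w.toNat x y h1 h2 h3 h4 (by omega)
  refine ⟨q, h5, h6, fun t h9 h10 => ⟨(h7 t h9 h10).1, (h7 t h9 h10).2, ?_⟩⟩
  have h11 : ∀ t' ∈ Finset.Ioc y R.w, 0 ≤ R.psi (q t') t' := by
    intro t' ht'
    rw [Finset.mem_Ioc] at ht'
    have := h7 t' ht'.1 ht'.2
    exact R.psi_nonneg (by omega) (by omega) this.1 this.2
  have h12 : R.psi (q t) t ≤ ∑ t' ∈ Finset.Ioc y R.w, R.psi (q t') t' :=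
    Finset.single_le_sum h11 (Finset.mem_Ioc.2 ⟨h9, h10⟩)
  have h13 := h11 t (Finset.mem_Ioc.2 ⟨h9, h10⟩)
  dsimp only at h8
  omega

/-- Every wall leaves its lower terminal upwards. -/
theorem wall_bot {x : ℤ} (h1 : R.f₁ ≤ x) (h2 : x ≤ R.f₂) (h : ¬ R.Fr x) :
    ∃ l, R.Mem (.inr x) (x, 1, l) := by
  have hw := R.hw
  obtain ⟨⟨x₁, y₁, l₁⟩, ⟨x₂, y₂, l₂⟩, ha, hb, hn, hA, hB⟩ := R.cross (R.mem_bot h1 h2 h false)
    (R.mem_top h1 h2 h false) (fun v => v.2.1 = 0) rfl (by dsimp only; omega)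
  dsimp only at hA hB
  subst hA
  have h3 := (R.wall_of_mem_bot ha).2
  subst h3
  rcases hn with ⟨e1, e2, e3⟩ | ⟨e1, e2, e3⟩ | ⟨e1, e2, e3⟩ <;> simp only at e1 e2 e3
  · omega
  · subst e2
    have := hb.2.2.1
    simp only at this
    have : y₂ = 1 := by omega
    subst this
    exact ⟨_, hb⟩
  · omega

/-- Every net with a lower terminal in a free column leaves it upwards. -/
theorem bt_bot {x : ℤ} (h : R.Fr x) : ∃ l, R.Mem (.inl (R.bt x)) (x, 1, l) := by
  have hw := R.hw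
  obtain ⟨y, h1, h2, h3⟩ := R.surj₁ (R.bt x)
  have h4 := R.mem_p₁ h1 h2
  rw [h3] at h4
  obtain ⟨⟨x₁, y₁, l₁⟩, ⟨x₂, y₂, l₂⟩, ha, hb, hn, hA, hB⟩ := R.cross (R.mem_bt h false)
    h4 (fun v => v.2.1 = 0 ∧ v.1 = x) ⟨rfl, rfl⟩ (by dsimp only; omega)
  dsimp only at hA hB
  obtain ⟨rfl, rfl⟩ := hA
  have b1 := hb.2.2.1
  simp only at b1
  rcases hn with ⟨e1, e2, e3⟩ | ⟨e1, e2, e3⟩ | ⟨e1, e2, e3⟩ <;> simp only at e1 e2 e3
  · exact absurd ⟨e2, e1⟩ hB
  · subst e2
    have : y₂ = 1 := by omega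
    subst this
    exact ⟨_, hb⟩
  · subst e2
    rcases e3 with rfl | rfl
    · exact (R.bot_adj ha hb).elim
    · have ha' : R.Mem (.inl (R.bt x₁)) (x₁ - 1 + 1, 0, l₁) := by
        rw [sub_add_cancel]; exact ha
      exact (R.bot_adj hb ha').elim

theorem psi_row_one {x : ℤ} (h1 : R.f₁ ≤ x) (h2 : x ≤ R.f₂) (h : ¬ R.Fr x) :
    R.psi x 1 = 0 := by
  obtain ⟨l, h3⟩ := R.wall_bot h1 h2 h
  exact R.psi_of_wall h3 le_rfl R.hw

/-- All vertices of a wall in the rows `1, …, w` are on the same layer. -/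
theorem wall_layer {z : ℤ} {l : Bool} (h1 : R.f₁ ≤ z) (h2 : z ≤ R.f₂) (h : ¬ R.Fr z)
    (hl : R.Mem (.inr z) (z, 1, l)) {x y : ℤ} {l' : Bool} (hy : 1 ≤ y) (hy' : y ≤ R.w)
    (hm : R.Mem (.inr z) (x, y, l')) : l' = l := by
  have hw := R.hw
  -- first phase
  have phase1 : R.Mem (.inr z) (z, R.w, l) := by
    obtain ⟨⟨x₁, y₁, l₁⟩, ⟨x₂, y₂, l₂⟩, ha, hb, hn, hA, hB⟩ := R.cross (R.mem_bot h1 h2 h l)
      (R.mem_top h1 h2 h l) (fun v => v.2.1 = 0 ∨ (1 ≤ v.2.1 ∧ v.2.1 ≤ R.w ∧ v.2.2 = l))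
      (Or.inl rfl) (by dsimp only; omega)
    dsimp only at hA hB
    have b1 := hb.2.2.1
    have b2 := hb.2.2.2.1
    simp only at b1 b2
    rcases hn with ⟨e1, e2, e3⟩ | ⟨e1, e2, e3⟩ | ⟨e1, e2, e3⟩ <;> simp only at e1 e2 e3
    · subst e1 e2 e3
      rcases hA with hA | ⟨hA1, hA2, hA3⟩
      · exact absurd (Or.inl hA) hB
      · exact (R.not_two_walls ha hb hA1 hA2).elim
    · subst e1 e2
      rcases hA with hA | ⟨hA1, hA2, hA3⟩
      · subst hA
        have e4 := (R.wall_of_mem_bot ha).2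
        subst e4
        have e5 : y₂ = 1 := by omega
        subst e5
        by_cases hl2 : l₂ = l
        · exact absurd (Or.inr ⟨le_rfl, hw, hl2⟩) hB
        · have : l₂ = !l := by cases l <;> cases l₂ <;> simp_all
          subst this
          exact (R.not_two_walls hl hb le_rfl hw).elim
      · subst hA3
        rcases e3 with e3 | e3
        · by_cases hc : y₂ ≤ R.w
          · exact absurd (Or.inr ⟨by omega, hc, rfl⟩) hB
          · have : y₂ = R.w + 1 := by omega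
            subst this
            have e4 := (R.wall_of_mem_top hb).2
            subst e4
            have : y₁ = R.w := by omega
            subst this
            exact ha
        · by_cases hc : y₂ = 0
          · exact absurd (Or.inl hc) hB
          · exact absurd (Or.inr ⟨by omega, by omega, rfl⟩) hB
    · subst e1 e2
      exact absurd hA hB
  by_contra hne
  have hne' : l' = !l := by cases l <;> cases l' <;> simp_all
  subst hne'
  obtain ⟨⟨x₁, y₁, l₁⟩, ⟨x₂, y₂, l₂⟩, ha, hb, hn, hA, hB⟩ := R.cross hl hm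
    (fun v => v.2.1 = 0 ∨ v.2.1 = R.w + 1 ∨ v.2.2 = l) (Or.inr (Or.inr rfl)) (by
      dsimp only
      rintro (h3 | h3 | h3)
      · omega
      · omega
      · exact hne h3)
  dsimp only at hA hB
  have b1 := hb.2.2.1
  have b2 := hb.2.2.2.1
  simp only at b1 b2
  have hl2 : l₂ = !l := by
    by_contra hc
    apply hB
    right; right
    cases l <;> cases l₂ <;> simp_all
  have hy0 : y₂ ≠ 0 := fun h3 => hB (Or.inl h3)
  have hy1 : y₂ ≠ R.w + 1 := fun h3 => hB (Or.inr (Or.inl h3))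
  subst hl2
  rcases hn with ⟨e1, e2, e3⟩ | ⟨e1, e2, e3⟩ | ⟨e1, e2, e3⟩ <;> simp only at e1 e2 e3
  · subst e1 e2
    have : l = l₁ := by cases l <;> cases l₁ <;> simp_all
    subst this
    exact R.not_two_walls ha hb (by omega) (by omega)
  · subst e1 e2
    rcases hA with hA | hA | hA
    · subst hA
      have e4 := (R.wall_of_mem_bot ha).2
      subst e4
      have e5 : y₂ = 1 := by omega
      subst e5
      exact R.not_two_walls hl hb le_rfl hw
    · subst hA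
      have e4 := (R.wall_of_mem_top ha).2
      subst e4
      have e5 : y₂ = R.w := by omega
      subst e5
      exact R.not_two_walls phase1 hb hw le_rfl
    · cases l <;> simp at hA
  · subst e1 e2
    rcases hA with hA | hA | hA
    · exact hy0 hA
    · exact hy1 hA
    · cases l <;> simp at hA

/-- Cells of row 2 which are far from the free columns contain walls. -/
theorem psi_row_two {x : ℤ} (h1 : R.f₁ ≤ x) (h2 : x + 2 ≤ R.g) (h3 : 2 ≤ R.w) :
    R.psi x 2 = 0 := by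
  have hf := R.hf₂
  have hs := R.hs
  rcases R.psi_cases (x := x) (y := 2) (by omega) (by omega) h1 (by omega) with h | h
  · exact h
  exfalso
  have h4 := R.LR_count (L := fun x' => if x' ≤ x then 2 else if x' = x + 1 then 1 else 0) (by
    constructor
    · intro x' _ _
      dsimp only
      split_ifs <;> omega
    · intro x' _ _
      dsimp only
      split_ifs <;> omega) (insert x (Finset.Ico R.g (R.g + R.s))) (by
    intro x' hx'
    simp only [Finset.mem_insert, Finset.mem_Ico] at hx'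
    rcases hx' with rfl | hx'
    · exact ⟨h1, by omega, by simpa using h⟩
    · refine ⟨by omega, by omega, ?_⟩
      rw [if_neg (by omega), if_neg (by omega)]
      exact R.psi_bot_free hx')
  rw [Finset.card_insert_of_notMem (by simp; omega)] at h4
  simp only [Int.card_Ico] at h4
  omega

/-- Left of the free columns, the bottom row is as in column `f₁`. -/
theorem row_one_left : ∀ (n : ℕ) (x : ℤ), x = R.f₁ + n → x < R.g →
    R.Mem (.inr x) (x, 1, !R.m₁) ∧ R.Mem (.inl (R.p₁ 1)) (x, 1, R.m₁)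
  | 0, x, h, _ => by
    have hw := R.hw
    have : x = R.f₁ := by simpa using h
    subst this
    refine ⟨⟨le_rfl, ?_, ?_, ?_, R.wall₁ 1 le_rfl hw⟩, R.mem_p₁ le_rfl hw⟩
    · have := R.hf₁; have := R.hf₂; have := R.hs
      dsimp only; omega
    · dsimp only; omega
    · dsimp only; omega
  | n + 1, x, h, hx => by
    have hw := R.hw
    have hf₁ := R.hf₁
    have hf₂ := R.hf₂
    have hs := R.hs
    push_cast at h
    obtain ⟨ih1, ih2⟩ := row_one_left n (x - 1) (by omega) (by omega)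
    have hx1 : R.f₁ ≤ x := by omega
    have hx2 : x ≤ R.f₂ := by omega
    obtain ⟨q, hq1, hq2, hq3⟩ := R.exists_up (x := x - 1) (y := min 2 R.w) (by omega) (by omega)
      (by omega) (by omega)
    have hT : R.PF (fun y => if y ≤ min 2 R.w then x - 1 else q y) := by
      refine ⟨⟨?_, ?_⟩, ?_⟩
      · intro y h1 h2
        dsimp only
        by_cases c1 : y + 1 ≤ min 2 R.w
        · rw [if_pos c1, if_pos (by omega)]; omega
        · rw [if_neg c1]
          by_cases c2 : y ≤ min 2 R.w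
          · rw [if_pos c2]
            have : y = min 2 R.w := by omega
            rw [this, ← hq1]
            exact hq2 _ le_rfl (by omega)
          · rw [if_neg c2]
            exact hq2 y (by omega) h2
      · intro y h1 h2
        dsimp only
        split_ifs with c
        · omega
        · have := hq3 y (by omega) h2
          exact ⟨this.1, this.2.1⟩
      · intro y h1 h2
        dsimp only
        split_ifs with c
        · by_cases c1 : y = 1
          · subst c1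
            exact R.psi_of_wall ih1 le_rfl hw
          · have : y = 2 := by omega
            subst this
            exact R.psi_row_two (by omega) (by omega) (by omega)
        · exact (hq3 y (by omega) h2).2.2
    have h1 := hT.exit (i := R.p₁ 1) (y := 1) (l := R.m₁) le_rfl hw (by
      rw [if_pos (by omega)]
      exact ih2) (by rw [if_pos (by omega)]; omega)
    rw [if_pos (by omega : (1 : ℤ) ≤ min 2 R.w)] at h1
    have h2 : R.Mem (.inl (R.p₁ 1)) (x, 1, R.m₁) := by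
      rcases h1 with h1 | ⟨h1, h2, h3⟩ | ⟨h1, h2, h3⟩
      · rw [sub_add_cancel] at h1
        exact h1
      · rw [if_pos (by omega)] at h2
        omega
      · omega
    refine ⟨?_, h2⟩
    obtain ⟨l, h3⟩ := R.wall_bot hx1 hx2 (by unfold Fr; omega)
    have : l = !R.m₁ := by
      by_contra hc
      have : l = R.m₁ := by
        revert hc; cases l <;> cases R.m₁ <;> simp
      subst this
      have := h2.eq h3
      cases this
    rw [← this]
    exact h3

theorem row_one_left' {x : ℤ} (h1 : R.f₁ ≤ x) (h2 : x < R.g) :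
    R.Mem (.inr x) (x, 1, !R.m₁) ∧ R.Mem (.inl (R.p₁ 1)) (x, 1, R.m₁) :=
  R.row_one_left (x - R.f₁).toNat x (by omega) h2

theorem row_one_right' {x : ℤ} (h1 : R.g + R.s ≤ x) (h2 : x ≤ R.f₂) :
    R.Mem (.inr x) (x, 1, !R.m₂) ∧ R.Mem (.inl (R.p₂ 1)) (x, 1, R.m₂) := by
  have h3 := R.hflip.row_one_left' (x := -x) (by simp only [hflip]; omega)
    (by simp only [hflip]; omega)
  rw [R.hflip_mem, R.hflip_mem] at h3
  simpa [negr, hflip] using h3

/-- walls left of the free columns are on the layer `!m₁` -/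
theorem left_wall_layer {z x y : ℤ} {l : Bool} (h1 : 1 ≤ y) (h2 : y ≤ R.w)
    (h : R.Mem (.inr z) (x, y, l)) (hz : z < R.g) : l = !R.m₁ := by
  have hz2 := R.wall_mem x y l z h.1 h.2.1 h.2.2.1 h.2.2.2.1 h.2.2.2.2
  exact R.wall_layer hz2.1 hz2.2.1 hz2.2.2 (R.row_one_left' hz2.1 hz).1 h1 h2 h

theorem right_wall_layer {z x y : ℤ} {l : Bool} (h1 : 1 ≤ y) (h2 : y ≤ R.w)
    (h : R.Mem (.inr z) (x, y, l)) (hz : R.g ≤ z) : l = !R.m₂ := by
  have hz2 := R.wall_mem x y l z h.1 h.2.1 h.2.2.1 h.2.2.2.1 h.2.2.2.2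
  exact R.wall_layer hz2.1 hz2.2.1 hz2.2.2 (R.row_one_right' (by omega) hz2.2.1).1 h1 h2 h

end Region

end Pool.Agent.Helper64_Chan
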