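import Pool.Agent.Helper64_Chan.Glob

/-!
# Sequences of zones between long blocks
-/

namespace Pool.Agent.Helper64_Chan

namespace Glob

variable {ι : Type} (G : Glob ι)

theorem neg_fst_step (a b : Vx) (h : Nb a b) : -b.1 ≤ -a.1 + 1 ∧ -a.1 ≤ -b.1 + 1 := by
  have := h.fst; omega

/-- A wall stays on its side of a rigid column. -/
theorem wall_side {f : ℤ} {ly : Bool} {p : ℤ → ι} (hF : G.Frozen f ly p) {z : ℤ} {v : Vx}
    (hv : G.own v = some (.inr z)) : (z < f → v.1 < f) ∧ (f < z → f < v.1) := by
  obtain ⟨hz1, hz2, hz3⟩ := G.inr_none v z hv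
  have hno : ∀ b : Vx, G.own b = some (.inr z) → b.1 = f → z = f := by
    rintro ⟨x, y, l⟩ hb hx
    simp only at hx
    subst hx
    have h3 := G.box _ _ hb
    simp only at h3
    by_cases hy : 1 ≤ y ∧ y ≤ G.w
    · by_cases hl : l = ly
      · subst hl
        rw [hF.net y hy.1 hy.2] at hb
        cases hb
      · rw [bool_eq_not_of_ne hl, hF.wall y hy.1 hy.2] at hb
        exact (Sum.inr.inj (Option.some.inj hb)).symm
    · exact (G.wall_bdy hb (by omega)).symm
  have hz0 := G.bot_none z false hz1 hz2 hz3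
  constructor
  · intro h
    by_contra hc
    obtain ⟨a, b, ha, hb, hn, hA, hB⟩ := G.cross hz0 hv (fun v => v.1 < f) h hc
    have := hn.fst
    have := hno b hb (by omega)
    omega
  · intro h
    by_contra hc
    obtain ⟨a, b, ha, hb, hn, hA, hB⟩ := G.cross hz0 hv (fun v => f < v.1) h hc
    have := hn.fst
    have := hno b hb (by omega)
    omega

/-- The part of a layout between two rigid columns. -/
theorem exists_region (hw : 1 ≤ G.w) {f₁ f₂ g s : ℤ} {ly₁ ly₂ : Bool} {p₁ p₂ : ℤ → ι}
    (h₁ : G.Frozen f₁ ly₁ p₁) (h₂ : G.Frozen f₂ ly₂ p₂) (hs : s = 1 ∨ s = 2) (hg₁ : f₁ < g)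
    (hg₂ : g + s ≤ f₂) (tp bt : ℤ → ι)
    (hfree : ∀ x, g ≤ x → x < g + s → G.col x = some (tp x, bt x))
    (hnone : ∀ x, f₁ ≤ x → x ≤ f₂ → ¬ (g ≤ x ∧ x < g + s) → G.col x = none)
    (htp : ∀ x, g ≤ x → x + 1 < g + s → tp x ≠ tp (x + 1))
    (hbt : ∀ x, g ≤ x → x + 1 < g + s → bt x ≠ bt (x + 1)) :
    ∃ R : Region ι, R.w = G.w ∧ R.g = g ∧ R.s = s ∧ R.p₁ = p₁ ∧ R.p₂ = p₂ ∧ R.tp = tp ∧
      R.bt = bt := by
  have b1 := h₁.hx1
  have b2 := h₂.hx2
  refine ⟨{
    w := G.w
    f₁ := f₁
    f₂ := f₂
    g := g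
    s := s
    own := G.own
    tp := tp
    bt := bt
    p₁ := p₁
    p₂ := p₂
    m₁ := ly₁
    m₂ := ly₂
    hw := hw
    hs := hs
    hf₁ := hg₁
    hf₂ := hg₂
    top_wall := fun x l h1 h2 h3 => G.top_none x l (by omega) (by omega) (hnone x h1 h2 h3)
    bot_wall := fun x l h1 h2 h3 => G.bot_none x l (by omega) (by omega) (hnone x h1 h2 h3)
    top_free := fun x l h1 h2 => G.top_some x l _ _ (by omega) (by omega) (hfree x h1 h2)
    bot_free := fun x l h1 h2 => G.bot_some x l _ _ (by omega) (by omega) (hfree x h1 h2)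
    tp_ne := htp
    bt_ne := hbt
    inj₁ := h₁.inj
    inj₂ := h₂.inj
    surj₁ := h₁.surj
    surj₂ := h₂.surj
    wall₁ := h₁.wall
    wall₂ := h₂.wall
    col₁ := h₁.net
    col₂ := h₂.net
    wall_mem := ?_
    conn := ?_ }, rfl, rfl, rfl, rfl, rfl, rfl, rfl⟩
  · intro x y l z hx1 hx2 _ _ h
    obtain ⟨hz1, hz2, hz3⟩ := G.inr_none _ z h
    have s1 := (G.wall_side h₁ h).1
    have s2 := (G.wall_side h₂ h).2
    simp only at s1 s2
    refine ⟨by omega, by omega, fun hc => ?_⟩
    rw [hfree z hc.1 hc.2] at hz3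
    cases hz3
  · rintro (i | z) u v hu hv
    · -- passing nets
      have uniq : ∀ (f : ℤ) (ly : Bool) (p : ℤ → ι), G.Frozen f ly p → ∀ a b : Vx,
          G.own a = some (.inl i) → G.own b = some (.inl i) → a.1 = f → b.1 = f → a = b := by
        rintro f ly p hF ⟨a, t, l⟩ ⟨a', t', l'⟩ ha hb e1 e2
        simp only at e1 e2
        subst e1 e2
        have key : ∀ (t : ℤ) (l : Bool), G.own (a', t, l) = some (.inl i) →
            1 ≤ t ∧ t ≤ G.w ∧ l = ly ∧ p t = i := by
          intro t l h
          have h3 := G.box _ _ h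
          simp only at h3
          have ht : 1 ≤ t ∧ t ≤ G.w := by
            constructor
            · by_contra hc
              have : t = 0 := by omega
              subst this
              rw [G.bot_none a' l h3.1 h3.2.1 hF.none] at h
              cases h
            · by_contra hc
              have : t = G.w + 1 := by omega
              subst this
              rw [G.top_none a' l h3.1 h3.2.1 hF.none] at h
              cases h
          have hl : l = ly := by
            by_contra hc
            rw [bool_eq_not_of_ne hc, hF.wall t ht.1 ht.2] at h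
            cases h
          subst hl
          rw [hF.net t ht.1 ht.2] at h
          exact ⟨ht.1, ht.2, rfl, Sum.inl.inj (Option.some.inj h)⟩
        obtain ⟨k1, k2, k3, k4⟩ := key t l ha
        obtain ⟨k5, k6, k7, k8⟩ := key t' l' hb
        have := hF.inj t t' k1 k2 k5 k6 (k4.trans k8.symm)
        subst this k3 k7
        rfl
      have e1 := G.conn (.inl i) u v hu.2.2.2.2 hv.2.2.2.2
      have e2 := halfspace (S := fun b => G.own b = some (.inl i)) (φ := fun b => b.1)
        (fun a b h => h.fst) (f := f₁) (uniq f₁ ly₁ p₁ h₁) hu.2.2.2.2 e1 hu.1 hv.1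
      have e3 := halfspace (S := fun b => G.own b = some (.inl i) ∧ f₁ ≤ b.1)
        (φ := fun b => -b.1) neg_fst_step (f := -f₂)
        (fun a b ha hb ha' hb' => uniq f₂ ly₂ p₂ h₂ a b ha.1 hb.1 (by omega) (by omega))
        ⟨hu.2.2.2.2, hu.1⟩ e2 (by have := hu.2.1; omega) (by have := hv.2.1; omega)
      refine rtg_map id ?_ e3
      rintro a b ⟨h1, ⟨h2, h3⟩, h4⟩
      have h5 := G.box _ _ h2
      exact ⟨h1, h3, by simp only [id]; omega, h5.2.2.1, h5.2.2.2, h2⟩
    · -- walls
      have all : ∀ b : Vx, G.own b = some (.inr z) → f₁ ≤ b.1 ∧ b.1 ≤ f₂ := by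
        have u1 := G.wall_side h₁ hu.2.2.2.2
        have u2 := G.wall_side h₂ hu.2.2.2.2
        have hu1 := hu.1
        have hu2 := hu.2.1
        intro b hb
        have s1 := G.wall_side h₁ hb
        have s2 := G.wall_side h₂ hb
        constructor
        · by_cases h : f₁ < z
          · have := s1.2 h; omega
          · have hz : z = f₁ := by
              by_contra hne
              have := u1.1 (by omega)
              omega
            subst hz
            have := h₁.only b hb
            omega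
        · by_cases h : z < f₂
          · have := s2.1 h; omega
          · have hz : z = f₂ := by
              by_contra hne
              have := u2.2 (by omega)
              omega
            subst hz
            have := h₂.only b hb
            omega
      refine rtg_map id ?_ (G.conn (.inr z) u v hu.2.2.2.2 hv.2.2.2.2)
      rintro a b ⟨h1, h2⟩
      have h5 := G.box _ _ h2
      have h6 := all b h2
      exact ⟨h1, h6.1, h6.2, h5.2.2.1, h5.2.2.2, h2⟩

end Glob

/-- the two orders agree -/
def Same {ι : Type} (w : ℤ) (p q : ℤ → ι) : Prop := ∀ y, 1 ≤ y → y ≤ w → p y = q y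

/-- `a` is not below `b` -/
def NB {ι : Type} (w : ℤ) (p : ℤ → ι) (a b : ι) : Prop :=
  ∀ ya yb, 1 ≤ ya → ya ≤ w → 1 ≤ yb → yb ≤ w → p ya = a → p yb = b → ya < yb → False

/-- `a` is not below both `b` and `c` -/
def NB2 {ι : Type} (w : ℤ) (p : ℤ → ι) (a b c : ι) : Prop :=
  ∀ ya yb yc, 1 ≤ ya → ya ≤ w → 1 ≤ yb → yb ≤ w → 1 ≤ yc → yc ≤ w → p ya = a → p yb = b →
    p yc = c → ya < yb → ya < yc → False

/-- `a` is not above both `b` and `c` -/
def NA2 {ι : Type} (w : ℤ) (p : ℤ → ι) (a b c : ι) : Prop :=
  ∀ ya yb yc, 1 ≤ ya → ya ≤ w → 1 ≤ yb → yb ≤ w → 1 ≤ yc → yc ≤ w → p ya = a → p yb = b →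
    p yc = c → yb < ya → yc < ya → False

/-- Zones: one column, or two neighbouring columns, with upper and lower terminals. -/
inductive Zone (ι : Type)
  | one (a b : ι)
  | two (a b c d : ι)

namespace Zone

variable {ι : Type}

/-- the columns of a zone -/
def cols : Zone ι → List (Option (ι × ι))
  | one a b => [some (a, b)]
  | two a b c d => [some (a, b), some (c, d)]

/-- adjacent terminals belong to different nets -/
def Ok : Zone ι → Prop
  | one _ _ => True
  | two a b c d => a ≠ c ∧ b ≠ d

/-- relation between the orders left and right of a zone -/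
def Rel (w : ℤ) (p q : ℤ → ι) : Zone ι → Prop
  | one a b => Same w p q ∧ NB w p a b
  | two a b c d =>
    (∀ E, p 1 = E → q 1 = E → b ≠ E → d ≠ E → Same w p q ∧ NB2 w p a b d) ∧
    (∀ E, p w = E → q w = E → a ≠ E → c ≠ E → Same w p q ∧ NA2 w p b a c)

end Zone

/-- consistency of an order with a sequence of zones -/
def Good {ι : Type} (w : ℤ) : (ℤ → ι) → List (Zone ι) → Prop
  | _, [] => True
  | p, z :: zs => ∃ q, z.Rel w p q ∧ (∀ i, ∃ y, 1 ≤ y ∧ y ≤ w ∧ q y = i) ∧
    (∀ y y', 1 ≤ y → y ≤ w → 1 ≤ y' → y' ≤ w → q y = q y' → y = y') ∧ Good w q zs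

namespace Glob

variable {ι : Type} (G : Glob ι)

/-- the columns after column `s` are given by a list -/
def ColsAt (s : ℤ) (cs : List (Option (ι × ι))) : Prop :=
  0 ≤ s ∧ s + cs.length ≤ G.m ∧ ∀ (k : ℕ) (h : k < cs.length), G.col (s + 1 + k) = cs[k]

theorem ColsAt.append {G : Glob ι} {s : ℤ} {cs ds : List (Option (ι × ι))}
    (h : G.ColsAt s (cs ++ ds)) : G.ColsAt s cs ∧ G.ColsAt (s + cs.length) ds := by
  obtain ⟨h1, h2, h3⟩ := h
  rw [List.length_append] at h2
  push_cast at h2
  refine ⟨⟨h1, by omega, fun k hk => ?_⟩, by omega, by omega, fun k hk => ?_⟩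
  · rw [h3 k (by rw [List.length_append]; omega), List.getElem_append_left]
  · have h4 := h3 (cs.length + k) (by rw [List.length_append]; omega)
    rw [List.getElem_append_right (by omega)] at h4
    push_cast at h4
    have e : s + 1 + (cs.length + k : ℤ) = s + cs.length + 1 + k := by ring
    rw [e] at h4
    rw [h4]
    congr 1
    omega

theorem zone_rel (hw : 1 ≤ G.w) {f₁ f₂ s : ℤ} {ly₁ ly₂ : Bool} {p₁ p₂ : ℤ → ι}
    (h₁ : G.Frozen f₁ ly₁ p₁) (h₂ : G.Frozen f₂ ly₂ p₂) {L : ℕ} {z : Zone ι} (hz : z.Ok)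
    (hc0 : ∀ x, s < x → x ≤ s + L → G.col x = none)
    (hc1 : G.ColsAt (s + L) z.cols)
    (hc2 : ∀ x, s + L + z.cols.length < x → x ≤ s + L + z.cols.length + L → G.col x = none)
    (hf1 : s < f₁) (hf1' : f₁ ≤ s + L) (hf2 : s + L + z.cols.length < f₂)
    (hf2' : f₂ ≤ s + L + z.cols.length + L) : z.Rel G.w p₁ p₂ := by
  rcases z with ⟨a, b⟩ | ⟨a, b, c, d⟩
  · simp only [Zone.cols, List.length_singleton, Nat.cast_one] at hc1 hc2 hf2 hf2'
    have e1 : G.col (s + L + 1) = some (a, b) := by
      have := hc1.2.2 0 (by simp)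
      simpa using this
    obtain ⟨R, r1, r2, r3, r4, r5, r6, r7⟩ := G.exists_region hw h₁ h₂ (g := s + L + 1)
      (s := 1) (Or.inl rfl) (by omega) (by omega) (fun _ => a) (fun _ => b)
      (by
        intro x h1 h2
        have : x = s + L + 1 := by omega
        subst this
        exact e1)
      (by
        intro x h1 h2 h3
        by_cases hx : x ≤ s + L
        · exact hc0 x (by omega) hx
        · exact hc2 x (by omega) (by omega))
      (by intro x h1 h2; omega) (by intro x h1 h2; omega)
    obtain ⟨q1, q2⟩ := R.order1 r3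
    rw [r1, r4, r5] at q1
    rw [r1, r4, r6, r7] at q2
    exact ⟨q1, q2⟩
  · simp only [Zone.cols, List.length_cons, List.length_nil, Nat.cast_add, Nat.cast_one,
      Nat.cast_zero, zero_add] at hc1 hc2 hf2 hf2'
    have e1 : G.col (s + L + 1) = some (a, b) := by
      have := hc1.2.2 0 (by simp)
      simpa using this
    have e2 : G.col (s + L + 1 + 1) = some (c, d) := by
      have := hc1.2.2 1 (by simp)
      simpa using this
    have hex : ∃ R : Region ι, R.w = G.w ∧ R.g = s + L + 1 ∧ R.s = 2 ∧ R.p₁ = p₁ ∧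
        R.p₂ = p₂ ∧ R.tp = (fun x => if x = s + L + 1 then a else c) ∧
        R.bt = (fun x => if x = s + L + 1 then b else d) := by
      apply G.exists_region hw h₁ h₂ (g := s + L + 1) (s := 2) (Or.inr rfl) (by omega)
        (by omega) (fun x => if x = s + L + 1 then a else c)
        (fun x => if x = s + L + 1 then b else d)
      · intro x h1 h2
        by_cases hx : x = s + L + 1
        · rw [if_pos hx, if_pos hx, hx]; exact e1
        · rw [if_neg hx, if_neg hx]
          have : x = s + L + 1 + 1 := by omega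
          rw [this]; exact e2
      · intro x h1 h2 h3
        by_cases hx : x ≤ s + L
        · exact hc0 x (by omega) hx
        · exact hc2 x (by omega) (by omega)
      · intro x h1 h2
        have : x = s + L + 1 := by omega
        rw [if_pos this, if_neg (by omega)]
        exact hz.1
      · intro x h1 h2
        have : x = s + L + 1 := by omega
        rw [if_pos this, if_neg (by omega)]
        exact hz.2
    obtain ⟨R, r1, r2, r3, r4, r5, r6, r7⟩ := hex
    constructor
    · intro E hp hq hb hd
      obtain ⟨q1, q2⟩ := R.order2 (E := E) (by rw [r4]; exact hp) (by rw [r5]; exact hq) (by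
        intro x hx
        unfold Region.Fr at hx
        rw [r7]
        dsimp only
        split_ifs
        · exact hb
        · exact hd)
      have q3 := q2 (s + L + 1) (by unfold Region.Fr; omega) r3
      rw [r1, r4, r5] at q1
      rw [r1, r2, r4, r6, r7] at q3
      simp only [if_true] at q3
      rw [if_neg (by omega : ¬ s + L + 1 + 1 = s + L + 1)] at q3
      exact ⟨q1, q3⟩
    · intro E hp hq hb hd
      obtain ⟨q1, q2⟩ := R.order3 (E := E) (by rw [r4, r1]; exact hp) (by rw [r5, r1]; exact hq)
        (by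
        intro x hx
        unfold Region.Fr at hx
        rw [r6]
        dsimp only
        split_ifs
        · exact hb
        · exact hd)
      have q3 := q2 (s + L + 1) (by unfold Region.Fr; omega) r3
      rw [r1, r4, r5] at q1
      rw [r1, r2, r4, r6, r7] at q3
      simp only [if_true] at q3
      rw [if_neg (by omega : ¬ s + L + 1 + 1 = s + L + 1)] at q3
      exact ⟨q1, q3⟩

/-- a block followed by zones, each followed by a block -/
def zcols (L : ℕ) (zs : List (Zone ι)) : List (Option (ι × ι)) :=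
  List.replicate L none ++ zs.flatMap (fun z => z.cols ++ List.replicate L none)

theorem colsAt_replicate {s : ℤ} {L : ℕ} (h : G.ColsAt s (List.replicate L none)) :
    ∀ x, s < x → x ≤ s + L → G.col x = none := by
  intro x h1 h2
  have h3 := h.2.2 (x - s - 1).toNat (by rw [List.length_replicate]; omega)
  rw [List.getElem_replicate] at h3
  have e : s + 1 + ((x - s - 1).toNat : ℤ) = x := by omega
  rw [e] at h3
  exact h3

theorem chain [Fintype ι] [Nonempty ι] (hwW : G.w ≤ Fintype.card ι) {L : ℕ}
    (hL : 4 * (Fintype.card ι : ℤ) * Fintype.card ι + 4 * Fintype.card ι < L) :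
    ∀ (zs : List (Zone ι)) (s : ℤ), (∀ z ∈ zs, z.Ok) → G.ColsAt s (zcols L zs) →
    (∀ i, ∃ v : Vx, G.own v = some (.inl i) ∧ v.1 ≤ s) →
    (∀ i, ∃ v : Vx, G.own v = some (.inl i) ∧ s + (zcols L zs).length < v.1) →
    G.w = Fintype.card ι ∧ ∃ f ly p, G.Frozen f ly p ∧ s < f ∧ f ≤ s + L ∧ Good G.w p zs := by
  intro zs
  induction zs with
  | nil =>
    intro s _ hc hl hr
    unfold zcols at hc hr
    rw [List.flatMap_nil, List.append_nil] at hc hr
    rw [List.length_replicate] at hr
    obtain ⟨h1, x, h2, h3, ly, p, h4⟩ := G.exists_frozen hwW hc.1 (by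
      have := hc.2.1; rw [List.length_replicate] at this; exact this) hL
      (G.colsAt_replicate hc) hl hr
    exact ⟨h1, x, ly, p, h4, h2, h3, trivial⟩
  | cons z zs ih =>
    intro s hok hc hl hr
    have e : zcols L (z :: zs) = List.replicate L none ++ (z.cols ++ zcols L zs) := by
      unfold zcols
      rw [List.flatMap_cons, List.append_assoc]
    rw [e] at hc hr
    simp only [List.length_append, List.length_replicate] at hr
    push_cast at hr
    obtain ⟨hc0, hc'⟩ := hc.append
    rw [List.length_replicate] at hc'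
    obtain ⟨hc1, hc2⟩ := hc'.append
    obtain ⟨-, f', ly', p', hF', hf1, hf2, hgood⟩ := ih (s + L + z.cols.length)
      (fun z hz => hok z (List.mem_cons_of_mem _ hz)) hc2
      (fun i => by obtain ⟨v, h1, h2⟩ := hl i; exact ⟨v, h1, by omega⟩)
      (fun i => by obtain ⟨v, h1, h2⟩ := hr i; exact ⟨v, h1, by omega⟩)
    have hr0 : ∀ i, ∃ v : Vx, G.own v = some (.inl i) ∧ s + L < v.1 :=
      fun i => by obtain ⟨v, h1, h2⟩ := hr i; exact ⟨v, h1, by omega⟩
    obtain ⟨h1, x, h2, h3, ly, p, h4⟩ := G.exists_frozen hwW hc0.1 (by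
      have := hc0.2.1; rw [List.length_replicate] at this; exact this) hL
      (G.colsAt_replicate hc0) hl hr0
    have hw : 1 ≤ G.w := by
      rw [h1]
      exact_mod_cast Fintype.card_pos
    have hcz : G.ColsAt (s + L + z.cols.length) (List.replicate L none) := by
      have := hc2
      unfold zcols at this
      exact this.append.1
    refine ⟨h1, x, ly, p, h4, h2, h3, p', ?_, hF'.surj, hF'.inj, hgood⟩
    exact G.zone_rel hw h4 hF' (hok z (List.mem_cons_self ..)) (G.colsAt_replicate hc0) hc1
      (G.colsAt_replicate hcz) h2 h3 hf1 hf2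

end Glob

end Pool.Agent.Helper64_Chan
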