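import Pool.Agent.Helper64_Chan.Straight

/-!
# Neighbouring columns carry the same order
-/

namespace Pool.Agent.Helper64_Chan

namespace Region

variable {ι : Type} {R : Region ι} {c : ℤ} {T : ℤ → ℤ} {ρ : ℤ → ι}

/-- three cells without walls in a row are impossible -/
theorem three_cells (R : Region ι) {y a b d : ℤ} (h1 : 1 ≤ y) (h2 : y ≤ R.w)
    (ha1 : R.f₁ ≤ a) (ha2 : a ≤ R.f₂) (hb1 : R.f₁ ≤ b) (hb2 : b ≤ R.f₂) (hd1 : R.f₁ ≤ d)
    (hd2 : d ≤ R.f₂) (hab : a ≠ b) (had : a ≠ d) (hbd : b ≠ d) (h3 : R.psi a y = 1)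
    (h4 : R.psi b y = 1) (h5 : R.psi d y = 1) : False := by
  have := R.row_count (y := y) (by omega) (by omega) {a, b, d} (by
    intro z hz
    simp only [Finset.mem_insert, Finset.mem_singleton] at hz
    rcases hz with rfl | rfl | rfl
    · exact ⟨ha1, ha2, h3⟩
    · exact ⟨hb1, hb2, h4⟩
    · exact ⟨hd1, hd2, h5⟩)
  rw [Finset.card_insert_of_notMem (by simp [hab, had]), Finset.card_pair hbd] at this
  have := R.hs
  push_cast at this
  omega

/-- In a row in which both cells `c`, `c + 1` have no wall, nets on the layer `!m₁` only occur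
there. -/
theorem other_layer (hm : R.m₂ = R.m₁) {y : ℤ} (h1 : 1 ≤ y) (h2 : y ≤ R.w) (hc1 : R.f₁ ≤ c)
    (hc2 : c < R.f₂) (h3 : R.psi c y = 1) (h4 : R.psi (c + 1) y = 1) {i : ι} {x : ℤ}
    (h : R.Mem (.inl i) (x, y, !R.m₁)) : x = c ∨ x = c + 1 := by
  by_contra hc
  rcases R.psi_cases (x := x) (y := y) (by omega) (by omega) h.1 h.2.1 with h5 | h5
  · obtain ⟨z, h6⟩ := R.psi_zero_wall hm h1 h2 h.1 h.2.1 h5
    have := h.eq h6
    cases this
  · exact three_cells R h1 h2 h.1 h.2.1 hc1 (by omega) (by omega) (by omega)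
      (by omega) (by omega) (by omega) h5 h3 h4

/-- The vertices left of the cut in a deviating row. -/
theorem Stage.row_of_dev (S : R.Stage c T ρ) {y : ℤ} (h1 : 1 ≤ y) (h2 : y ≤ R.w)
    (hd : ρ y ≠ R.p₁ y) {i : ι} {x : ℤ} {l : Bool} (hx : x ≤ c + 2)
    (h : R.Mem (.inl i) (x, y, l)) : i = R.p₁ y ∨ i = ρ y := by
  obtain ⟨d1, d2, d3⟩ := S.dev y h1 h2 hd
  have hxf := h.1
  simp only at hxf
  by_cases hl : l = R.m₁
  · subst hl
    by_cases hxc : x ≤ c
    · exact Or.inl (Sum.inl.inj (h.eq (S.H x hxf hxc y h1 h2)))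
    · right
      rcases (show x = c + 1 ∨ x = c + 2 by omega) with rfl | rfl
      · exact Sum.inl.inj (h.eq (S.hρ' y h1 h2))
      · have := S.hρ y h1 h2
        rw [d3] at this
        exact Sum.inl.inj (h.eq this)
  · have := bool_eq_not_of_ne hl
    subst this
    have e1 := R.psi_one_of_nets (S.H c S.hc1 le_rfl y h1 h2) d1 h1 h2
    have e2 := R.psi_one_of_nets (S.hρ' y h1 h2) d2 h1 h2
    rcases other_layer S.hm h1 h2 S.hc1 S.hc2 e1 e2 h with rfl | rfl
    · exact Or.inl (Sum.inl.inj (h.eq d1))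
    · exact Or.inr (Sum.inl.inj (h.eq d2))

theorem ext_top' (R : Region ι) {T : ℤ → ℤ} : R.ext T R.w = T R.w ∧ R.ext T 1 = T 1 :=
  ⟨R.ext_of R.hw le_rfl, R.ext_of le_rfl R.hw⟩

/-- The extended cut is Lipschitz. -/
theorem ext_step' (R : Region ι) {T : ℤ → ℤ} (hT : R.TBcut T) {y y' : ℤ} (h1 : 0 ≤ y)
    (h2 : y ≤ R.w + 1) (h3 : 0 ≤ y') (h4 : y' ≤ R.w + 1) (h5 : y' = y + 1 ∨ y' = y - 1) :
    R.ext T y' ≤ R.ext T y + 1 ∧ R.ext T y ≤ R.ext T y' + 1 := by
  rcases h5 with rfl | rfl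
  · exact R.ext_step hT h1 (by omega)
  · have := R.ext_step hT (y := y - 1) h3 (by omega)
    rw [sub_add_cancel] at this
    omega

/-- Nets do not jump over deviating rows. -/
theorem Stage.no_jump (S : R.Stage c T ρ) {y z y' : ℤ} (h1 : 1 ≤ y) (h2 : y ≤ R.w)
    (h3 : 1 ≤ z) (h4 : z ≤ R.w) (h5 : 1 ≤ y') (h6 : y' ≤ R.w) (hy : ρ y ≠ R.p₁ y)
    (hz : ρ z = R.p₁ y) (hy' : ρ y' ≠ R.p₁ y')
    (hlt : (y < y' ∧ y' < z) ∨ (z < y' ∧ y' < y)) : False := by
  have hTy := (S.dev y h1 h2 hy).2.2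
  have hTy' := (S.dev y' h5 h6 hy').2.2
  have hM0 := S.hρ z h3 h4
  rw [hz] at hM0
  have hM1 := S.hρ' z h3 h4
  rw [hz] at hM1
  -- the net has no vertex in row y' left of the cut
  have hrow : ∀ x l, x ≤ c + 2 → R.Mem (.inl (R.p₁ y)) (x, y', l) → False := by
    intro x l hx h
    rcases S.row_of_dev h5 h6 hy' hx h with h7 | h7
    · have := R.inj₁ _ _ h1 h2 h5 h6 h7; omega
    · rw [← hz] at h7
      have := S.inj _ _ h3 h4 h5 h6 h7; omega
  -- and no vertex on the cut on this side of y'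
  have hcut : ∀ t l, 1 ≤ t → t ≤ R.w → t ≠ z → R.Mem (.inl (R.p₁ y)) (T t, t, l) → False := by
    intro t l h7 h8 h9 h10
    exact h9 (S.pf.data.2 _ _ _ _ _ h7 h8 h3 h4 h10 hM0).1
  obtain ⟨⟨x, t, l⟩, ⟨x', t', l'⟩, ha, hb, hn, hA, hB⟩ := R.cross
    (S.H c S.hc1 le_rfl y h1 h2) hM1
    (fun v => ((y < y' ∧ v.2.1 < y') ∨ (y' < y ∧ y' < v.2.1)) ∧ v.1 < R.ext T v.2.1) (by
      dsimp only
      rw [R.ext_of h1 h2, hTy]
      omega) (by
      dsimp only
      omega)
  dsimp only at hA hB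
  obtain ⟨hA1, hA2⟩ := hA
  have b1 := ha.2.2.1
  have b2 := ha.2.2.2.1
  have b3 := hb.2.2.1
  have b4 := hb.2.2.2.1
  simp only at b1 b2 b3 b4
  rcases hn with ⟨e1, e2, e3⟩ | ⟨e1, e2, e3⟩ | ⟨e1, e2, e3⟩ <;> simp only at e1 e2 e3
  · subst e1 e2
    exact hB ⟨hA1, hA2⟩
  · subst e1 e2
    have hl := ext_step' R S.pf.1 b1 b2 b3 b4 e3
    by_cases hc : t' = y'
    · subst hc
      rw [R.ext_of h5 h6] at hl
      exact hrow _ _ (by omega) hb
    · have hside : (y < y' ∧ t' < y') ∨ (y' < y ∧ y' < t') := by omega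
      have hx : x' = R.ext T t' := by
        by_contra hne
        exact hB ⟨hside, by omega⟩
      have et := ext_top' R (T := T)
      have h7 : 1 ≤ t' := by
        by_contra hcc
        have : t' = 0 := by omega
        subst this
        have : t = 1 := by omega
        subst this
        rw [R.ext_zero] at hx
        omega
      have h8 : t' ≤ R.w := by
        by_contra hcc
        have : t' = R.w + 1 := by omega
        subst this
        have : t = R.w := by omega
        subst this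
        rw [R.ext_top] at hx
        omega
      rw [R.ext_of h7 h8] at hx
      subst hx
      exact hcut t' _ h7 h8 (by omega) hb
  · subst e1 e2
    have hx : x' = x + 1 := by
      rcases e3 with h | h
      · exact h
      · exfalso
        exact hB ⟨hA1, by omega⟩
    subst hx
    have hx2 : x + 1 = R.ext T t' := by
      by_contra hne
      exact hB ⟨hA1, by omega⟩
    have h7 : 1 ≤ t' := by
      by_contra hcc
      have : t' = 0 := by omega
      subst this
      exact R.bot_adj ha hb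
    have h8 : t' ≤ R.w := by
      by_contra hcc
      have : t' = R.w + 1 := by omega
      subst this
      exact R.top_adj ha hb
    rw [R.ext_of h7 h8] at hx2
    rw [hx2] at hb
    exact hcut t' _ h7 h8 (by omega) hb

/-- One step down for the first of two nets exchanging their places. -/
theorem Stage.stepM (S : R.Stage c T ρ) {p z y : ℤ} (hp1 : 1 ≤ p) (hz1 : 1 ≤ z)
    (hz2 : z ≤ R.w) (hpy : p < y) (hyz : y ≤ z) (hM : ρ p = R.p₁ z) (hN : R.p₁ p = ρ z)
    (h1 : R.Mem (.inl (R.p₁ z)) (c, y, !R.m₁)) (h2 : R.Mem (.inl (ρ z)) (c + 1, y, !R.m₁))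
    (hne : R.p₁ z ≠ ρ z) : R.Mem (.inl (R.p₁ z)) (c, y - 1, !R.m₁) := by
  have hy1 : 1 ≤ y := by omega
  have hy2 : y ≤ R.w := by omega
  have e1 := R.psi_one_of_nets (S.H c S.hc1 le_rfl y hy1 hy2) h1 hy1 hy2
  have e2 := R.psi_one_of_nets (S.hρ' y hy1 hy2) h2 hy1 hy2
  have hTy : T y = c + 2 := by
    have := S.pf.2 y hy1 hy2
    rcases S.hT y hy1 hy2 with h | h | h
    · rw [h, e1] at this; omega
    · rw [h, e2] at this; omega
    · exact h
  have hMp := S.hρ p hp1 (by omega)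
  rw [hM] at hMp
  have hMp' := S.hρ' p hp1 (by omega)
  rw [hM] at hMp'
  have hcut : ∀ t l, 1 ≤ t → t ≤ R.w → t ≠ p → R.Mem (.inl (R.p₁ z)) (T t, t, l) → False := by
    intro t l h7 h8 h9 h10
    exact h9 (S.pf.data.2 _ _ _ _ _ h7 h8 hp1 (by omega) h10 hMp).1
  obtain ⟨⟨x, t, l⟩, ⟨x', t', l'⟩, ha, hb, hn, hA, hB⟩ := R.cross h1 hMp'
    (fun v => y ≤ v.2.1 ∧ v.1 < R.ext T v.2.1) (by
      dsimp only
      rw [R.ext_of hy1 hy2, hTy]
      omega) (by
      dsimp only
      omega)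
  dsimp only at hA hB
  obtain ⟨hA1, hA2⟩ := hA
  have b1 := ha.2.2.1
  have b2 := ha.2.2.2.1
  have b3 := hb.2.2.1
  have b4 := hb.2.2.2.1
  simp only at b1 b2 b3 b4
  rcases hn with ⟨e1', e2', e3⟩ | ⟨e1', e2', e3⟩ | ⟨e1', e2', e3⟩ <;> simp only at e1' e2' e3
  · subst e1' e2'
    exact absurd ⟨hA1, hA2⟩ hB
  · subst e1' e2'
    have hl := ext_step' R S.pf.1 b1 b2 b3 b4 e3
    by_cases hc : t' < y
    · have : t = y := by omega
      subst this
      have : t' = t - 1 := by omega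
      subst this
      rw [R.ext_of hy1 hy2, hTy] at hA2
      by_cases hl1 : l' = R.m₁
      · exfalso
        subst hl1
        by_cases hxc : x' ≤ c
        · have h3 := Sum.inl.inj (ha.eq (S.H x' ha.1 hxc t hy1 hy2))
          have h4 := Sum.inl.inj (hb.eq (S.H x' ha.1 hxc (t - 1) (by omega) (by omega)))
          have := R.inj₁ _ _ hy1 hy2 (by omega) (by omega) (h3.symm.trans h4)
          omega
        · have : x' = c + 1 := by omega
          subst this
          have h3 := Sum.inl.inj (ha.eq (S.hρ' t hy1 hy2))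
          rw [← hM] at h3
          have := S.inj _ _ hp1 (by omega) hy1 hy2 h3
          omega
      · have := bool_eq_not_of_ne hl1
        subst this
        rcases other_layer S.hm hy1 hy2 S.hc1 S.hc2 e1 e2 ha with rfl | rfl
        · exact hb
        · exact absurd (Sum.inl.inj (ha.eq h2)) hne
    · exfalso
      have hx : x' = R.ext T t' := by
        by_contra hne
        exact hB ⟨by omega, by omega⟩
      have et := ext_top' R (T := T)
      have h7 : 1 ≤ t' := by omega
      have h8 : t' ≤ R.w := by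
        by_contra hcc
        have : t' = R.w + 1 := by omega
        subst this
        have : t = R.w := by omega
        subst this
        rw [R.ext_top] at hx
        omega
      rw [R.ext_of h7 h8] at hx
      subst hx
      exact hcut t' _ h7 h8 (by omega) hb
  · exfalso
    subst e1' e2'
    have hx : x' = x + 1 := by
      rcases e3 with h | h
      · exact h
      · exfalso
        exact hB ⟨hA1, by omega⟩
    subst hx
    have hx2 : x + 1 = R.ext T t' := by
      by_contra hne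
      exact hB ⟨hA1, by omega⟩
    have h7 : 1 ≤ t' := by omega
    have h8 : t' ≤ R.w := by
      by_contra hcc
      have : t' = R.w + 1 := by omega
      subst this
      exact R.top_adj ha hb
    rw [R.ext_of h7 h8] at hx2
    rw [hx2] at hb
    exact hcut t' _ h7 h8 (by omega) hb

/-- One step down for the second of two nets exchanging their places. -/
theorem Stage.stepN (S : R.Stage c T ρ) {p z y : ℤ} (hp1 : 1 ≤ p) (hz1 : 1 ≤ z)
    (hz2 : z ≤ R.w) (hpy : p < y) (hyz : y ≤ z) (hM : ρ p = R.p₁ z) (hN : R.p₁ p = ρ z)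
    (hp : ρ p ≠ R.p₁ p)
    (h1 : R.Mem (.inl (R.p₁ z)) (c, y, !R.m₁)) (h2 : R.Mem (.inl (ρ z)) (c + 1, y, !R.m₁))
    (hne : R.p₁ z ≠ ρ z) : R.Mem (.inl (ρ z)) (c + 1, y - 1, !R.m₁) := by
  have hy1 : 1 ≤ y := by omega
  have hy2 : y ≤ R.w := by omega
  have e1 := R.psi_one_of_nets (S.H c S.hc1 le_rfl y hy1 hy2) h1 hy1 hy2
  have e2 := R.psi_one_of_nets (S.hρ' y hy1 hy2) h2 hy1 hy2
  have hTy : T y = c + 2 := by
    have := S.pf.2 y hy1 hy2
    rcases S.hT y hy1 hy2 with h | h | h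
    · rw [h, e1] at this; omega
    · rw [h, e2] at this; omega
    · exact h
  have hTp := (S.dev p hp1 (by omega) hp).2.2
  have hNz := S.hρ z hz1 hz2
  have hNp := S.H c S.hc1 le_rfl p hp1 (by omega)
  rw [hN] at hNp
  have hcut : ∀ t l, 1 ≤ t → t ≤ R.w → R.Mem (.inl (ρ z)) (T t, t, l) → t = z := by
    intro t l h7 h8 h10
    exact (S.pf.data.2 _ _ _ _ _ h7 h8 hz1 hz2 h10 hNz).1
  obtain ⟨⟨x, t, l⟩, ⟨x', t', l'⟩, ha, hb, hn, hA, hB⟩ := R.cross h2 hNp
    (fun v => (y ≤ v.2.1 ∧ v.1 < R.ext T v.2.1) ∨ R.ext T v.2.1 ≤ v.1) (by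
      dsimp only
      rw [R.ext_of hy1 hy2, hTy]
      omega) (by
      dsimp only
      rw [R.ext_of hp1 (by omega), hTp]
      omega)
  dsimp only at hA hB
  have b1 := ha.2.2.1
  have b2 := ha.2.2.2.1
  have b3 := hb.2.2.1
  have b4 := hb.2.2.2.1
  simp only at b1 b2 b3 b4
  have hB1 : x' < R.ext T t' := by
    by_contra hcc
    exact hB (Or.inr (by omega))
  have hB2 : t' < y := by
    by_contra hcc
    exact hB (Or.inl ⟨by omega, hB1⟩)
  rcases hn with ⟨e1', e2', e3⟩ | ⟨e1', e2', e3⟩ | ⟨e1', e2', e3⟩ <;> simp only at e1' e2' e3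
  · subst e1' e2'
    exact absurd hA hB
  · subst e1' e2'
    have hl := ext_step' R S.pf.1 b1 b2 b3 b4 e3
    rcases hA with ⟨hA1, hA2⟩ | hA
    · have : t = y := by omega
      subst this
      have : t' = t - 1 := by omega
      subst this
      rw [R.ext_of hy1 hy2, hTy] at hA2
      by_cases hl1 : l' = R.m₁
      · exfalso
        subst hl1
        by_cases hxc : x' ≤ c
        · have h3 := Sum.inl.inj (ha.eq (S.H x' ha.1 hxc t hy1 hy2))
          rw [← hN] at h3
          have := R.inj₁ _ _ hp1 (by omega) hy1 hy2 h3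
          omega
        · have : x' = c + 1 := by omega
          subst this
          have h3 := Sum.inl.inj (ha.eq (S.hρ' t hy1 hy2))
          have h4 := Sum.inl.inj (hb.eq (S.hρ' (t - 1) (by omega) (by omega)))
          have := S.inj _ _ hy1 hy2 (by omega) (by omega) (h3.symm.trans h4)
          omega
      · have := bool_eq_not_of_ne hl1
        subst this
        rcases other_layer S.hm hy1 hy2 S.hc1 S.hc2 e1 e2 ha with rfl | rfl
        · exact absurd (Sum.inl.inj (ha.eq h1)).symm hne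
        · exact hb
    · exfalso
      have hx : x' = R.ext T t := by omega
      have et := ext_top' R (T := T)
      by_cases h7 : 1 ≤ t
      · by_cases h8 : t ≤ R.w
        · rw [R.ext_of h7 h8] at hx
          rw [hx] at ha hb
          have h9 := hcut t _ h7 h8 ha
          have h10 : t' = t - 1 := by omega
          have h11 : 1 ≤ t' := by omega
          have h12 : y = z := by omega
          rw [R.ext_of h11 (by omega)] at hB1
          have := S.hT t' h11 (by omega)
          rw [h9, ← h12, hTy] at hx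
          omega
        · omega
      · have : t = 0 := by omega
        subst this
        have : t' = 1 := by omega
        subst this
        rw [R.ext_zero] at hx
        omega
  · exfalso
    subst e1' e2'
    rcases hA with ⟨hA1, hA2⟩ | hA
    · omega
    · have hx : x' = x - 1 := by omega
      subst hx
      have hx2 : x = R.ext T t' := by omega
      by_cases h7 : 1 ≤ t'
      · rw [R.ext_of h7 (by omega)] at hx2
        rw [hx2] at ha
        have := hcut t' _ h7 (by omega) ha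
        omega
      · have : t' = 0 := by omega
        subst this
        have ha' : R.Mem (.inl (ρ z)) (x - 1 + 1, 0, l') := by
          rw [sub_add_cancel]; exact ha
        exact R.bot_adj hb ha'

/-- There are no deviating rows. -/
theorem Stage.no_dev (S : R.Stage c T ρ) : ∀ y, 1 ≤ y → y ≤ R.w → ρ y = R.p₁ y := by
  classical
  by_contra hc
  push Not at hc
  obtain ⟨y₀, h01, h02, h03⟩ := hc
  let D := (Finset.Icc 1 R.w).filter (fun y => ρ y ≠ R.p₁ y)
  have hD : ∀ y, y ∈ D ↔ (1 ≤ y ∧ y ≤ R.w) ∧ ρ y ≠ R.p₁ y := by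
    intro y; simp [D]
  have hne : D.Nonempty := ⟨y₀, (hD y₀).2 ⟨⟨h01, h02⟩, h03⟩⟩
  obtain ⟨z, hz, hmax⟩ := D.exists_max_image id hne
  simp only [id] at hmax
  obtain ⟨⟨hz1, hz2⟩, hz3⟩ := (hD z).1 hz
  -- the two partners
  obtain ⟨p, hp1, hp2, hp3⟩ := S.surj (R.p₁ z)
  have hpD : ρ p ≠ R.p₁ p := by
    intro h
    have h4 := R.inj₁ _ _ hp1 hp2 hz1 hz2 (h.symm.trans hp3)
    subst h4
    exact hz3 hp3
  obtain ⟨u, hu1, hu2, hu3⟩ := R.surj₁ (ρ z)
  have huD : ρ u ≠ R.p₁ u := by
    intro h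
    have h4 := S.inj _ _ hu1 hu2 hz1 hz2 (h.trans hu3)
    subst h4
    exact hz3 hu3.symm
  have hpz : p < z := by
    have := hmax p ((hD p).2 ⟨⟨hp1, hp2⟩, hpD⟩)
    rcases eq_or_lt_of_le this with h | h
    · subst h; exact absurd hp3 hpD
    · exact h
  have huz : u < z := by
    have := hmax u ((hD u).2 ⟨⟨hu1, hu2⟩, huD⟩)
    rcases eq_or_lt_of_le this with h | h
    · subst h; exact absurd hu3.symm huD
    · exact h
  have hup : u = p := by
    rcases lt_trichotomy u p with h | h | h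
    · exact (S.no_jump hu1 hu2 hz1 hz2 hp1 hp2 huD hu3.symm hpD (Or.inl ⟨h, hpz⟩)).elim
    · exact h
    · exact (S.no_jump hz1 hz2 hp1 hp2 hu1 hu2 hz3 hp3 huD (Or.inr ⟨h, huz⟩)).elim
  subst hup
  have hd := S.dev z hz1 hz2 hz3
  have main : ∀ n : ℕ, ∀ y, y = z - n → u ≤ y →
      R.Mem (.inl (R.p₁ z)) (c, y, !R.m₁) ∧ R.Mem (.inl (ρ z)) (c + 1, y, !R.m₁) := by
    intro n
    induction n with
    | zero =>
      intro y hy _
      have : y = z := by simpa using hy
      subst this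
      exact ⟨hd.1, hd.2.1⟩
    | succ n ih =>
      intro y hy hy2
      push_cast at hy
      obtain ⟨h1, h2⟩ := ih (y + 1) (by omega) (by omega)
      have h3 := S.stepM hu1 hz1 hz2 (by omega) (by omega) hp3 hu3 h1 h2 hz3.symm
      have h4 := S.stepN hu1 hz1 hz2 (by omega) (by omega) hp3 hu3 hpD h1 h2 hz3.symm
      rw [add_sub_cancel_right] at h3 h4
      exact ⟨h3, h4⟩
  obtain ⟨h1, -⟩ := main (z - u).toNat u (by omega) le_rfl
  have h2 := (S.dev u hu1 hu2 hpD).1
  rw [hu3] at h2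
  exact hz3 (Sum.inl.inj (h1.eq h2)).symm

/-- If the passing nets do not change the layer, they are straight. -/
theorem straight (R : Region ι) (hm : R.m₂ = R.m₁) : ∀ (n : ℕ) (x : ℤ), R.f₁ ≤ x → x ≤ R.f₂ →
    x ≤ R.f₁ + n → ∀ y, 1 ≤ y → y ≤ R.w → R.Mem (.inl (R.p₁ y)) (x, y, R.m₁) := by
  intro n
  induction n with
  | zero =>
    intro x h1 _ h2 y h3 h4
    have : x = R.f₁ := by push_cast at h2; omega
    subst this
    exact R.mem_p₁ h3 h4
  | succ n ih =>
    intro x h1 h2 h3 y h4 h5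
    push_cast at h3
    by_cases hx : x ≤ R.f₁ + n
    · exact ih x h1 h2 hx y h4 h5
    obtain ⟨T, ρ, S⟩ := R.exists_stage hm (c := x - 1) (by omega) (by omega)
      (fun x' h6 h7 y' h8 h9 => ih x' h6 (by omega) (by omega) y' h8 h9)
    have h6 := S.hρ' y h4 h5
    rw [S.no_dev y h4 h5, sub_add_cancel] at h6
    exact h6

theorem straight' (R : Region ι) (hm : R.m₂ = R.m₁) {x y : ℤ} (h1 : R.f₁ ≤ x) (h2 : x ≤ R.f₂)
    (h3 : 1 ≤ y) (h4 : y ≤ R.w) : R.Mem (.inl (R.p₁ y)) (x, y, R.m₁) :=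
  R.straight hm (x - R.f₁).toNat x h1 h2 (by omega) y h3 h4

end Region

end Pool.Agent.Helper64_Chan
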