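import Pool.Agent.Helper64_Chan.Cells

/-!
# Regions in which the passing nets change the layer
-/

namespace Pool.Agent.Helper64_Chan

theorem bool_eq_not_of_ne {l l' : Bool} (h : l' ≠ l) : l' = !l := by
  cases l <;> cases l' <;> simp_all

namespace Region

variable {ι : Type} (R : Region ι)

/-- Every passing net which changes the layer has a via hole. -/
theorem via (hm : R.m₂ = !R.m₁) (i : ι) : ∃ x y, 1 ≤ y ∧ y ≤ R.w ∧
    R.Mem (.inl i) (x, y, false) ∧ R.Mem (.inl i) (x, y, true) := by
  by_contra hc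
  have key : ∀ x y l, 1 ≤ y → y ≤ R.w → R.Mem (.inl i) (x, y, l) →
      R.Mem (.inl i) (x, y, !l) → False := by
    intro x y l h1 h2 h3 h4
    apply hc
    refine ⟨x, y, h1, h2, ?_⟩
    cases l
    · exact ⟨h3, h4⟩
    · exact ⟨h4, h3⟩
  have hw := R.hw
  obtain ⟨y₁, h1, h2, rfl⟩ := R.surj₁ i
  obtain ⟨y₂, h3, h4, h5⟩ := R.surj₂ (R.p₁ y₁)
  have hm2 := R.mem_p₂ h3 h4
  rw [h5] at hm2
  obtain ⟨⟨x, y, l⟩, ⟨x', y', l'⟩, ha, hb, hn, hA, hB⟩ := R.cross (R.mem_p₁ h1 h2)
    hm2 (fun v => (1 ≤ v.2.1 ∧ v.2.1 ≤ R.w ∧ v.2.2 = R.m₁) ∨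
      (v.2.1 = 0 ∧ R.Mem (.inl (R.p₁ y₁)) (v.1, 1, R.m₁)) ∨
      (v.2.1 = R.w + 1 ∧ R.Mem (.inl (R.p₁ y₁)) (v.1, R.w, R.m₁)))
    (Or.inl ⟨h1, h2, rfl⟩) (by
      dsimp only
      rintro (h | h | h)
      · rw [hm] at h; have := h.2.2; cases R.m₁ <;> simp at this
      · omega
      · omega)
  dsimp only at hA hB
  have b1 := hb.2.2.1
  have b2 := hb.2.2.2.1
  simp only at b1 b2
  rcases hn with ⟨e1, e2, e3⟩ | ⟨e1, e2, e3⟩ | ⟨e1, e2, e3⟩ <;> simp only at e1 e2 e3
  · subst e1 e2 e3
    rcases hA with ⟨hA1, hA2, hA3⟩ | hA | hA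
    · exact key _ _ _ hA1 hA2 ha hb
    · exact hB (Or.inr (Or.inl hA))
    · exact hB (Or.inr (Or.inr hA))
  · subst e1 e2
    rcases hA with ⟨hA1, hA2, hA3⟩ | ⟨hA1, hA2⟩ | ⟨hA1, hA2⟩
    · subst hA3
      rcases e3 with rfl | rfl
      · by_cases hc2 : y + 1 ≤ R.w
        · exact hB (Or.inl ⟨by omega, hc2, rfl⟩)
        · have : y = R.w := by omega
          subst this
          exact hB (Or.inr (Or.inr ⟨rfl, ha⟩))
      · by_cases hc2 : 1 ≤ y - 1
        · exact hB (Or.inl ⟨hc2, by omega, rfl⟩)
        · have : y = 1 := by omega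
          subst this
          exact hB (Or.inr (Or.inl ⟨by ring, ha⟩))
    · subst hA1
      have : y' = 1 := by omega
      subst this
      by_cases hl : l' = R.m₁
      · exact hB (Or.inl ⟨le_rfl, hw, hl⟩)
      · have := bool_eq_not_of_ne hl
        subst this
        exact key _ _ _ le_rfl hw hA2 hb
    · subst hA1
      have : y' = R.w := by omega
      subst this
      by_cases hl : l' = R.m₁
      · exact hB (Or.inl ⟨hw, le_rfl, hl⟩)
      · have := bool_eq_not_of_ne hl
        subst this
        exact key _ _ _ hw le_rfl hA2 hb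
  · subst e1 e2
    rcases hA with ⟨hA1, hA2, hA3⟩ | ⟨hA1, hA2⟩ | ⟨hA1, hA2⟩
    · exact hB (Or.inl ⟨hA1, hA2, hA3⟩)
    · subst hA1
      rcases e3 with rfl | rfl
      · exact R.bot_adj ha hb
      · have ha' : R.Mem (.inl (R.p₁ y₁)) (x - 1 + 1, 0, l') := by
          rw [sub_add_cancel]; exact ha
        exact R.bot_adj hb ha'
    · subst hA1
      rcases e3 with rfl | rfl
      · exact R.top_adj ha hb
      · have ha' : R.Mem (.inl (R.p₁ y₁)) (x - 1 + 1, R.w + 1, l') := by
          rw [sub_add_cancel]; exact ha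
        exact R.top_adj hb ha'

/-- One free column, change of layer: the cells of the free column. -/
theorem flip1_cells (hs : R.s = 1) (hm : R.m₂ = !R.m₁) :
    ∀ y, 1 ≤ y → y ≤ R.w → ∃ i, R.Mem (.inl i) (R.g, y, false) ∧
      R.Mem (.inl i) (R.g, y, true) := by
  classical
  have hw := R.hw
  choose X Y h1 h2 h3 h4 using R.via hm
  have hpsi : ∀ i, R.psi (X i) (Y i) = 1 := fun i =>
    R.psi_one_of_nets (h3 i) (h4 i) (h1 i) (h2 i)
  have two : ∀ x x' y, 1 ≤ y → y ≤ R.w → R.f₁ ≤ x → x ≤ R.f₂ → R.f₁ ≤ x' → x' ≤ R.f₂ →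
      R.psi x y = 1 → R.psi x' y = 1 → x = x' := by
    intro x x' y h5 h6 h7 h8 h9 h10 h11 h12
    by_contra hne
    have := R.row_count (y := y) (by omega) (by omega) {x, x'} (by
      intro z hz
      simp only [Finset.mem_insert, Finset.mem_singleton] at hz
      rcases hz with rfl | rfl
      · exact ⟨h7, h8, h11⟩
      · exact ⟨h9, h10, h12⟩)
    rw [Finset.card_pair hne] at this
    push_cast at this
    omega
  have hinj : ∀ i j, Y i = Y j → i = j := by
    intro i j hij
    have hx := two (X i) (X j) (Y i) (h1 i) (h2 i) (h3 i).1 (h3 i).2.1 (h3 j).1 (h3 j).2.1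
      (hpsi i) (by rw [hij]; exact hpsi j)
    have h5 := h3 j
    rw [← hx, ← hij] at h5
    exact Sum.inl.inj ((h3 i).eq h5)
  have hsurj : ∀ y, 1 ≤ y → y ≤ R.w → ∃ i, Y i = y := by
    have := Finset.surjOn_of_injOn_of_card_le (s := Finset.Icc 1 R.w) (t := Finset.Icc 1 R.w)
      (fun y => Y (R.p₁ y)) (by
        intro y _
        have := h1 (R.p₁ y)
        have := h2 (R.p₁ y)
        simp; omega) (by
        intro y hy y' hy' e
        simp only [Finset.coe_Icc, Set.mem_Icc] at hy hy'
        exact R.inj₁ y y' hy.1 hy.2 hy'.1 hy'.2 (hinj _ _ e)) le_rfl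
    intro y h1 h2
    obtain ⟨y', -, h3⟩ := this (show y ∈ (Finset.Icc 1 R.w : Finset ℤ) from by simp [h1, h2])
    exact ⟨_, h3⟩
  have main : ∀ n : ℕ, ∀ i, Y i = 1 + n → X i = R.g := by
    intro n
    induction n with
    | zero =>
      intro i hi
      have hi : Y i = 1 := by simpa using hi
      by_contra hne
      have h5 := R.psi_row_one (x := X i) (h3 i).1 (h3 i).2.1 (by
        unfold Fr; rw [hs]; omega)
      have h6 := hpsi i
      rw [hi, h5] at h6
      omega
    | succ n ih =>
      intro i hi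
      push_cast at hi
      have h5 := h2 i
      obtain ⟨j, hj⟩ := hsurj (1 + n) (by omega) (by omega)
      have h6 := ih j hj
      have h7 := (h3 i).1
      have h8 := (h3 i).2.1
      have h9 := (h3 j).1
      have h10 := (h3 j).2.1
      have h11 := hpsi i
      have h12 := hpsi j
      simp only at h7 h8 h9 h10
      rw [h6] at h9 h10 h12
      by_contra hne
      rcases lt_or_gt_of_ne hne with hlt | hlt
      · have := R.LR_count (L := fun x => if x ≤ X i then Y i else Y j) (by
          constructor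
          · intro x' _ _
            dsimp only
            split_ifs <;> omega
          · intro x' _ _
            dsimp only
            split_ifs <;> omega) {X i, R.g} (by
          intro z hz
          simp only [Finset.mem_insert, Finset.mem_singleton] at hz
          rcases hz with rfl | rfl
          · exact ⟨h7, h8, by simpa using h11⟩
          · refine ⟨h9, h10, ?_⟩
            rw [if_neg (by omega)]
            exact h12)
        rw [Finset.card_pair hne] at this
        push_cast at this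
        omega
      · have := R.LR_count (L := fun x => if x ≤ R.g then Y j else Y i) (by
          constructor
          · intro x' _ _
            dsimp only
            split_ifs <;> omega
          · intro x' _ _
            dsimp only
            split_ifs <;> omega) {X i, R.g} (by
          intro z hz
          simp only [Finset.mem_insert, Finset.mem_singleton] at hz
          rcases hz with rfl | rfl
          · refine ⟨h7, h8, ?_⟩
            rw [if_neg (by omega)]
            exact h11
          · exact ⟨h9, h10, by simpa using h12⟩)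
        rw [Finset.card_pair hne] at this
        push_cast at this
        omega
  intro y h5 h6
  obtain ⟨i, hi⟩ := hsurj y h5 h6
  have h7 := main (y - 1).toNat i (by rw [hi]; omega)
  have h8 := h3 i
  have h9 := h4 i
  rw [h7, hi] at h8 h9
  exact ⟨i, h8, h9⟩

theorem flip1_left (hs : R.s = 1) (hm : R.m₂ = !R.m₁) {y : ℤ} (h1 : 1 ≤ y) (h2 : y ≤ R.w) :
    ∃ l, R.Mem (.inl (R.p₁ y)) (R.g, y, l) := by
  have hw := R.hw
  have hf₁ := R.hf₁
  have hf₂ := R.hf₂
  have hcell := R.flip1_cells hs hm
  have hfree : ∀ x y, 1 ≤ y → y ≤ R.w → R.f₁ ≤ x → x < R.g → R.psi x y = 0 := by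
    intro x y h3 h4 h5 h6
    rcases R.psi_cases (x := x) (y := y) (by omega) (by omega) h5 (by omega) with h7 | h7
    · exact h7
    exfalso
    obtain ⟨i, h8, h9⟩ := hcell y h3 h4
    have h10 := R.psi_one_of_nets h8 h9 h3 h4
    have := R.row_count (y := y) (by omega) (by omega) {x, R.g} (by
      intro z hz
      simp only [Finset.mem_insert, Finset.mem_singleton] at hz
      rcases hz with rfl | rfl
      · exact ⟨h5, by omega, h7⟩
      · exact ⟨by omega, by omega, h10⟩)
    rw [Finset.card_pair (by omega)] at this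
    push_cast at this
    omega
  have main : ∀ n : ℕ, ∀ x, x = R.f₁ + n → x ≤ R.g → ∀ y, 1 ≤ y → y ≤ R.w →
      ∃ l, R.Mem (.inl (R.p₁ y)) (x, y, l) := by
    intro n
    induction n with
    | zero =>
      intro x hx _ y h3 h4
      have hx : x = R.f₁ := by simpa using hx
      subst hx
      exact ⟨_, R.mem_p₁ h3 h4⟩
    | succ n ih =>
      intro x hx hx2 y h3 h4
      push_cast at hx
      have ih' := ih (x - 1) (by omega) (by omega)
      obtain ⟨y', l, h5, h6, h7⟩ := R.TB_hit (T := fun y' => if y' = y then x else x - 1) (by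
        constructor
        · intro y' _ _
          dsimp only
          split_ifs <;> omega
        · intro y' _ _
          dsimp only
          split_ifs <;> omega) (R.p₁ y)
      by_cases hy : y' = y
      · subst hy
        simp only [if_true] at h7
        exact ⟨l, h7⟩
      · exfalso
        rw [if_neg hy] at h7
        obtain ⟨l', h8⟩ := ih' y' h5 h6
        have h9 := (R.net_unique h7 h8 h5 h6 (hfree _ _ h5 h6 (by omega) (by omega))).1
        exact hy (R.inj₁ y' y h5 h6 h3 h4 h9.symm)
  exact main (R.g - R.f₁).toNat R.g (by omega) le_rfl y h1 h2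

theorem flip1_eq (hs : R.s = 1) (hm : R.m₂ = !R.m₁) {y : ℤ} (h1 : 1 ≤ y) (h2 : y ≤ R.w)
    {i : ι} {l : Bool} (h : R.Mem (.inl i) (R.g, y, l)) : i = R.p₁ y := by
  obtain ⟨j, h3, h4⟩ := R.flip1_cells hs hm y h1 h2
  obtain ⟨l', h5⟩ := R.flip1_left hs hm h1 h2
  have h6 : ∀ k l'', R.Mem (.inl k) (R.g, y, l'') → k = j := by
    intro k l'' h7
    cases l''
    · exact Sum.inl.inj (h7.eq h3)
    · exact Sum.inl.inj (h7.eq h4)
  exact (h6 _ _ h).trans (h6 _ _ h5).symm

/-- One free column, change of layer. -/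
theorem flip1 (hs : R.s = 1) (hm : R.m₂ = !R.m₁) :
    (∀ y, 1 ≤ y → y ≤ R.w → R.p₁ y = R.p₂ y) ∧ R.tp R.g = R.p₁ R.w ∧ R.bt R.g = R.p₁ 1 := by
  have hw := R.hw
  have hFr : R.Fr R.g := ⟨le_rfl, by omega⟩
  refine ⟨?_, ?_, ?_⟩
  · intro y h1 h2
    obtain ⟨l, h3⟩ := R.hflip.flip1_left hs (by
      simp only [hflip]; rw [hm]; simp) h1 h2
    rw [hflip_mem] at h3
    have e : -R.hflip.g = R.g := by simp only [hflip]; omega
    rw [e] at h3
    have h4 : R.Mem (.inl (R.p₂ y)) (R.g, y, l) := by
      simpa [negr, hflip] using h3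
    exact (R.flip1_eq hs hm h1 h2 h4).symm
  · obtain ⟨l, h3⟩ := R.vflip.bt_bot (x := R.g) hFr
    rw [vflip_mem] at h3
    have e : R.w + 1 - 1 = R.w := by ring
    rw [e] at h3
    exact R.flip1_eq hs hm hw le_rfl h3
  · obtain ⟨l, h3⟩ := R.bt_bot (x := R.g) hFr
    exact R.flip1_eq hs hm le_rfl hw h3

/-- free paths down to a bottom cell outside the free columns -/
theorem exists_down : ∀ (n : ℕ) (x y : ℤ), y = n + 2 → y ≤ R.w + 1 → R.f₁ ≤ x → x ≤ R.f₂ →
    ∃ q : ℤ → ℤ, q y = x ∧
      (∀ t, 1 ≤ t → t < y → q (t + 1) ≤ q t + 1 ∧ q t ≤ q (t + 1) + 1) ∧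
      (∀ t, 1 ≤ t → t < y → R.f₁ ≤ q t ∧ q t ≤ R.f₂ ∧ R.psi (q t) t = 0) ∧ ¬ R.Fr (q 1)
  | 0, x, y, h, h1, h2, h3 => by
    have hy : y = 2 := by simpa using h
    subst hy
    have hf₁ := R.hf₁
    have hf₂ := R.hf₂
    have hs := R.hs
    obtain ⟨x', h4, h5, h6, h7, h8⟩ : ∃ x', R.f₁ ≤ x' ∧ x' ≤ R.f₂ ∧ x' ≤ x + 1 ∧ x ≤ x' + 1 ∧
        ¬ R.Fr x' := by
      by_cases hx : R.Fr x
      · have hx' := hx
        unfold Fr at hx'
        by_cases hxg : x = R.g
        · exact ⟨x - 1, by omega, by omega, by omega, by omega, by unfold Fr; omega⟩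
        · exact ⟨x + 1, by omega, by omega, by omega, by omega, by unfold Fr; omega⟩
      · exact ⟨x, h2, h3, by omega, by omega, hx⟩
    refine ⟨fun t => if t ≤ 1 then x' else x, by simp, ?_, ?_, by simpa using h8⟩
    · intro t h9 h10
      dsimp only
      split_ifs <;> omega
    · intro t h9 h10
      have : t = 1 := by omega
      subst this
      simp only [le_refl, if_true]
      exact ⟨h4, h5, R.psi_row_one h4 h5 h8⟩
  | n + 1, x, y, h, h1, h2, h3 => by
    push_cast at h
    have hs := R.hs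
    obtain ⟨x', h4, h5, h6, h7, h8⟩ : ∃ x', R.f₁ ≤ x' ∧ x' ≤ R.f₂ ∧ x' ≤ x + 1 ∧ x ≤ x' + 1 ∧
        R.psi x' (y - 1) = 0 := by
      by_cases c0 : R.psi x (y - 1) = 0
      · exact ⟨x, h2, h3, by omega, by omega, c0⟩
      have e1 : x ≠ R.f₁ := by
        rintro rfl
        exact c0 (R.psi_f₁ (by omega) (by omega))
      have e2 : x ≠ R.f₂ := by
        rintro rfl
        exact c0 (R.psi_f₂ (by omega) (by omega))
      by_cases c1 : R.psi (x - 1) (y - 1) = 0
      · exact ⟨x - 1, by omega, by omega, by omega, by omega, c1⟩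
      by_cases c2 : R.psi (x + 1) (y - 1) = 0
      · exact ⟨x + 1, by omega, by omega, by omega, by omega, c2⟩
      exfalso
      have d0 := R.psi_cases (x := x) (y := y - 1) (by omega) (by omega) h2 h3
      have d1 := R.psi_cases (x := x - 1) (y := y - 1) (by omega) (by omega) (by omega)
        (by omega)
      have d2 := R.psi_cases (x := x + 1) (y := y - 1) (by omega) (by omega) (by omega)
        (by omega)
      have := R.row_count (y := y - 1) (by omega) (by omega) {x - 1, x, x + 1} (by
        intro z hz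
        simp only [Finset.mem_insert, Finset.mem_singleton] at hz
        rcases hz with rfl | rfl | rfl
        · exact ⟨by omega, by omega, by tauto⟩
        · exact ⟨by omega, by omega, by tauto⟩
        · exact ⟨by omega, by omega, by tauto⟩)
      rw [Finset.card_insert_of_notMem (by simp; omega), Finset.card_pair (by omega)] at this
      push_cast at this
      omega
    obtain ⟨q, h9, h10, h11, h12⟩ := exists_down n x' (y - 1) (by omega) (by omega) h4 h5
    refine ⟨fun t => if t ≤ y - 1 then q t else x, by simp, ?_, ?_, ?_⟩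
    · intro t h13 h14
      dsimp only
      by_cases ht : t + 1 ≤ y - 1
      · rw [if_pos ht, if_pos (by omega)]
        exact h10 t h13 (by omega)
      · have : t = y - 1 := by omega
        subst this
        rw [if_neg ht, if_pos le_rfl, h9]
        omega
    · intro t h13 h14
      dsimp only
      rw [if_pos (by omega)]
      by_cases ht : t = y - 1
      · subst ht
        rw [h9]
        exact ⟨h4, h5, h8⟩
      · exact h11 t h13 (by omega)
    · dsimp only
      rw [if_pos (by omega)]
      exact h12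

/-- A change of layer is impossible if some net is the lowest one on both sides and does not
have a lower terminal in the free columns. -/
theorem flip2 (hm : R.m₂ = !R.m₁) {E : ι} (h1 : R.p₁ 1 = E) (h2 : R.p₂ 1 = E)
    (hE : ∀ x, R.Fr x → R.bt x ≠ E) : False := by
  classical
  have hw := R.hw
  have hs := R.hs
  obtain ⟨x, r, h3, h4, h5, h6⟩ := R.via hm E
  have h7 := R.psi_one_of_nets h5 h6 h3 h4
  have h8 : 2 ≤ r := by
    by_contra hc
    have : r = 1 := by omega
    subst this
    by_cases hx : R.Fr x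
    · obtain ⟨l, h9⟩ := R.bt_bot hx
      apply hE x hx
      cases l
      · exact Sum.inl.inj (h9.eq h5)
      · exact Sum.inl.inj (h9.eq h6)
    · rw [R.psi_row_one h5.1 h5.2.1 hx] at h7
      omega
  have c1 := h5.1
  have c2 := h5.2.1
  simp only at c1 c2
  obtain ⟨q, hq1, hq2, hq3, hq4⟩ := R.exists_down (r - 2).toNat x r (by omega) (by omega) c1 c2
  obtain ⟨u, hu1, hu2, hu3⟩ := R.exists_up (x := x) (y := r) (by omega) h4 c1 c2
  have hcut : R.TBcut (fun y => if y ≤ r then q y else u y) := by
    constructor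
    · intro y h9 h10
      dsimp only
      by_cases c : y + 1 ≤ r
      · rw [if_pos c, if_pos (by omega)]
        exact hq2 y h9 (by omega)
      · rw [if_neg c]
        by_cases c' : y ≤ r
        · rw [if_pos c']
          have : y = r := by omega
          subst this
          rw [hq1, ← hu1]
          exact hu2 y le_rfl h10
        · rw [if_neg c']
          exact hu2 y (by omega) h10
    · intro y h9 h10
      dsimp only
      by_cases c : y ≤ r
      · rw [if_pos c]
        by_cases c' : y = r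
        · subst c'; rw [hq1]; exact ⟨c1, c2⟩
        · have := hq3 y h9 (by omega)
          exact ⟨this.1, this.2.1⟩
      · rw [if_neg c]
        have := hu3 y (by omega) h10
        exact ⟨this.1, this.2.1⟩
  have hE1 : ∃ l, R.Mem (.inl E) (q 1, 1, l) := by
    have h9 := hq3 1 le_rfl (by omega)
    unfold Fr at hq4
    by_cases c : q 1 < R.g
    · have := (R.row_one_left' h9.1 c).2
      rw [h1] at this
      exact ⟨_, this⟩
    · have := (R.row_one_right' (x := q 1) (by omega) h9.2.1).2
      rw [h2] at this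
      exact ⟨_, this⟩
  obtain ⟨l1, hE1⟩ := hE1
  have hpf : ∀ y, 1 ≤ y → y ≤ R.w → y ≠ r →
      R.psi (if y ≤ r then q y else u y) y = 0 := by
    intro y h9 h10 h11
    by_cases c : y ≤ r
    · rw [if_pos c]; exact (hq3 y h9 (by omega)).2.2
    · rw [if_neg c]; exact (hu3 y (by omega) h10).2.2
  have hh : ∀ i : ι, ∃ y, (1 ≤ y ∧ y ≤ R.w) ∧
      ∃ l, R.Mem (.inl i) ((if y ≤ r then q y else u y), y, l) := by
    intro i
    obtain ⟨y, l, h9, h10, h11⟩ := R.TB_hit hcut i
    exact ⟨y, ⟨h9, h10⟩, l, h11⟩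
  choose h hr hmem using hh
  have hn1 : ∀ i, i ≠ E → h i ≠ 1 := by
    intro i hi h9
    obtain ⟨l, h10⟩ := hmem i
    rw [h9, if_pos (by omega)] at h10
    exact hi (R.net_unique h10 hE1 le_rfl hw (hq3 1 le_rfl (by omega)).2.2).1
  have hnr : ∀ i, i ≠ E → h i ≠ r := by
    intro i hi h9
    obtain ⟨l, h10⟩ := hmem i
    rw [h9, if_pos le_rfl, hq1] at h10
    cases l
    · exact hi (Sum.inl.inj (h10.eq h5))
    · exact hi (Sum.inl.inj (h10.eq h6))
  have hcard := Finset.card_le_card_of_injOn (s := (Finset.Icc 1 R.w).erase 1)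
    (t := ((Finset.Icc 1 R.w).erase 1).erase r) (fun y => h (R.p₁ y)) (by
      intro y hy
      simp only [Finset.coe_erase, Finset.coe_Icc, Set.mem_sdiff, Set.mem_Icc,
        Set.mem_singleton_iff] at hy
      have hne : R.p₁ y ≠ E := by
        intro h9
        rw [← h1] at h9
        exact hy.2 (R.inj₁ y 1 hy.1.1 hy.1.2 le_rfl hw h9)
      have := hr (R.p₁ y)
      simp only [Finset.coe_erase, Finset.coe_Icc, Set.mem_sdiff, Set.mem_Icc,
        Set.mem_singleton_iff]
      exact ⟨⟨this, hn1 _ hne⟩, hnr _ hne⟩) (by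
      intro y hy y' hy' e
      simp only [Finset.coe_erase, Finset.coe_Icc, Set.mem_sdiff, Set.mem_Icc,
        Set.mem_singleton_iff] at hy hy'
      dsimp only at e
      have hne : R.p₁ y ≠ E := by
        intro h9
        rw [← h1] at h9
        exact hy.2 (R.inj₁ y 1 hy.1.1 hy.1.2 le_rfl hw h9)
      obtain ⟨l, h9⟩ := hmem (R.p₁ y)
      obtain ⟨l', h10⟩ := hmem (R.p₁ y')
      rw [← e] at h10
      have h11 := hr (R.p₁ y)
      exact R.inj₁ y y' hy.1.1 hy.1.2 hy'.1.1 hy'.1.2
        (R.net_unique h9 h10 h11.1 h11.2 (hpf _ h11.1 h11.2 (hnr _ hne))).1)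
  rw [Finset.card_erase_of_mem (a := r) (by simp; omega), Finset.card_erase_of_mem (by simp; omega)]
    at hcard
  simp only [Int.card_Icc] at hcard
  omega

end Region

end Pool.Agent.Helper64_Chan
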