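import Pool.Agent.Helper64_Chan.Instance

/-!
# From layouts to ownership functions
-/

namespace Pool.Agent.Helper64_Chan

/-- a vertex of the grid as a vertex with integer coordinates -/
def toVx {m w : ℕ} (a : GridVertex m w) : Vx := (a.val.1, a.val.2.1, decide (a.val.2.2 = 1))

theorem toVx_inj {m w : ℕ} {a b : GridVertex m w} (h : toVx a = toVx b) : a = b := by
  obtain ⟨⟨x, y, l⟩, h1, h2, h3⟩ := a
  obtain ⟨⟨x', y', l'⟩, h1', h2', h3'⟩ := b
  simp only [toVx, Prod.mk.injEq, Nat.cast_inj, decide_eq_decide] at h h2 h3 h2' h3'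
  obtain ⟨rfl, rfl, h⟩ := h
  have : l = l' := by omega
  subst this
  rfl

theorem nb_toVx {m w : ℕ} {a b : GridVertex m w} (h : (gridGraph m w).Adj a b) :
    Nb (toVx a) (toVx b) := by
  obtain ⟨⟨x, y, l⟩, h1, h2, h3⟩ := a
  obtain ⟨⟨x', y', l'⟩, h1', h2', h3'⟩ := b
  have h : Nat.dist x x' + Nat.dist y y' + Nat.dist l l' = 1 := h
  unfold Nat.dist at h
  simp only at h2 h3 h2' h3'
  unfold Nb toVx
  simp only
  rcases (show (l' ≠ l ∧ x' = x ∧ y' = y) ∨ (l' = l ∧ x' = x ∧ (y' = y + 1 ∨ y = y' + 1)) ∨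
    (l' = l ∧ y' = y ∧ (x' = x + 1 ∨ x = x' + 1)) by omega) with ⟨e1, e2, e3⟩ | ⟨e1, e2, e3⟩ |
    ⟨e1, e2, e3⟩
  · left
    subst e2 e3
    refine ⟨rfl, rfl, ?_⟩
    rcases (show l = 0 ∨ l = 1 by omega) with rfl | rfl
    · have : l' = 1 := by omega
      subst this; rfl
    · have : l' = 0 := by omega
      subst this; rfl
  · right; left
    subst e1 e2
    exact ⟨rfl, rfl, by omega⟩
  · right; right
    subst e1 e2
    exact ⟨rfl, rfl, by omega⟩

/-- connected subgraphs and chains of adjacent vertices -/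
theorem rtg_of_connected {V : Type} {G : SimpleGraph V} {H : G.Subgraph} (hH : H.Connected)
    {a b : V} (ha : a ∈ H.verts) (hb : b ∈ H.verts) :
    Relation.ReflTransGen (fun u v => H.Adj u v) a b := by
  have h1 := hH.preconnected.coe ⟨a, ha⟩ ⟨b, hb⟩
  rw [SimpleGraph.reachable_iff_reflTransGen] at h1
  have h2 := rtg_map (p := fun u v => H.Adj u v) (fun v : H.verts => v.val) (by
    intro u v h
    exact h) h1
  exact h2

section

variable {N : ℕ} {cs : List Column} {hv : ValidCols (N + 2) cs} {w : ℕ}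
  (Y : Layout (mkCRP (N + 2) cs hv) w)

/-- the vertex `v` is used by net number `i` -/
def Cov (i : Fin (netsOf (N + 2) cs).length) (v : Vx) : Prop :=
  ∃ a ∈ (Y.part i).verts, toVx a = v

theorem Cov.unique {i j : Fin (netsOf (N + 2) cs).length} {v : Vx} (h : Cov Y i v)
    (h' : Cov Y j v) : i = j := by
  by_contra hne
  obtain ⟨a, ha, hav⟩ := h
  obtain ⟨b, hb, hbv⟩ := h'
  have : a = b := toVx_inj (hav.trans hbv.symm)
  subst this
  exact Set.disjoint_left.1 (Y.disjoint i j hne) ha hb

open Classical in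
/-- the owner of a vertex -/
noncomputable def ownOf (v : Vx) : Option (Fin (N + 2) ⊕ ℤ) :=
  if h : ∃ i, Cov Y i v then some (name N cs h.choose.val) else none

theorem ownOf_iff {v : Vx} {o : Fin (N + 2) ⊕ ℤ} :
    ownOf Y v = some o ↔ ∃ i, Cov Y i v ∧ name N cs i.val = o := by
  unfold ownOf
  constructor
  · intro h
    split_ifs at h with hc
    exact ⟨hc.choose, hc.choose_spec, Option.some.inj h⟩
  · rintro ⟨i, h1, h2⟩
    have hc : ∃ i, Cov Y i v := ⟨i, h1⟩
    rw [dif_pos hc]
    have : hc.choose = i := Cov.unique Y hc.choose_spec h1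
    rw [this, h2]

theorem get_net (i : Fin (netsOf (N + 2) cs).length) :
    (mkCRP (N + 2) cs hv).nets.get i = (netsOf (N + 2) cs)[i.val] := rfl

theorem cov_upper {i : Fin (netsOf (N + 2) cs).length} {t : ℕ}
    (h : t ∈ ((netsOf (N + 2) cs)[i.val]).upper) (l : Bool) : Cov Y i (t, w + 1, l) := by
  obtain ⟨a, b, h1, h2, h3⟩ := Y.upper i t h
  cases l
  · refine ⟨a, h3.fst_mem, ?_⟩
    unfold toVx
    rw [h1]
    simp
  · refine ⟨b, h3.snd_mem, ?_⟩
    unfold toVx
    rw [h2]
    simp

theorem cov_lower {i : Fin (netsOf (N + 2) cs).length} {t : ℕ}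
    (h : t ∈ ((netsOf (N + 2) cs)[i.val]).lower) (l : Bool) : Cov Y i (t, 0, l) := by
  obtain ⟨a, b, h1, h2, h3⟩ := Y.lower i t h
  cases l
  · refine ⟨a, h3.fst_mem, ?_⟩
    unfold toVx
    rw [h1]
    simp
  · refine ⟨b, h3.snd_mem, ?_⟩
    unfold toVx
    rw [h2]
    simp

/-- identity nets -/
theorem exists_id {k : ℕ} (hk : k < cs.length) (hc : cs[k] = none) :
    ∃ i : Fin (netsOf (N + 2) cs).length, ((netsOf (N + 2) cs)[i.val]) = ⟨[1 + k], [1 + k]⟩ ∧
      name N cs i.val = .inr ((1 + k : ℕ) : ℤ) := by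
  have h1 : 1 + k ∈ colIdx Option.isNone 1 cs := by
    rw [mem_colIdx]
    exact ⟨k, hk, rfl, by rw [hc]; rfl⟩
  obtain ⟨j, hj, h2⟩ := List.getElem_of_mem h1
  have h3 : N + 2 + j < (netsOf (N + 2) cs).length := by rw [length_netsOf]; omega
  refine ⟨⟨N + 2 + j, h3⟩, ?_, ?_⟩
  · have e : N + 2 + j - (N + 2) = j := by omega
    have h4 := netsOf_get_ge (W := N + 2) (cs := cs) (i := N + 2 + j) h3 (by omega) (by omega)
    simp only [e, h2] at h4
    exact h4
  · have e : N + 2 + j - (N + 2) = j := by omega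
    have h4 := name_ge (N := N) (cs := cs) (i := N + 2 + j) (by omega) (by omega)
    simp only [e, h2] at h4
    exact h4

/-- passing nets -/
theorem exists_pass {a : ℕ} (ha : a < N + 2) :
    ∃ i : Fin (netsOf (N + 2) cs).length, ((netsOf (N + 2) cs)[i.val]) =
      ⟨colIdx (hasTop a) 1 cs, colIdx (hasBot a) 1 cs⟩ ∧ name N cs i.val = .inl (el N a) := by
  have h3 : a < (netsOf (N + 2) cs).length := by rw [length_netsOf]; omega
  refine ⟨⟨a, h3⟩, netsOf_get_lt h3 ha, ?_⟩
  rw [name_lt ha]
  congr 1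
  apply Fin.ext
  rw [el_val ha]

/-- the ownership structure of a layout -/
noncomputable def globOf : Glob (Fin (N + 2)) where
  w := w
  m := cs.length
  col := colFn N cs
  own := ownOf Y
  box := by
    intro v o h
    rw [ownOf_iff] at h
    obtain ⟨i, ⟨a, -, rfl⟩, -⟩ := h
    obtain ⟨⟨x, y, l⟩, ⟨h1, h2⟩, h3, h4⟩ := a
    simp only [toVx] at h1 h2 h3 ⊢
    have h2 : x ≤ cs.length := h2
    omega
  top_none := by
    intro x l h1 h2 h3
    obtain ⟨k, hk⟩ : ∃ k : ℕ, x = 1 + k := ⟨(x - 1).toNat, by omega⟩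
    have hk2 : k < cs.length := by omega
    rw [hk, colFn_eq hk2] at h3
    have hc : cs[k] = none := by
      rcases h : cs[k] with _ | p
      · rfl
      · rw [h] at h3; cases h3
    obtain ⟨i, h4, h5⟩ := exists_id (N := N) hk2 hc
    rw [ownOf_iff]
    refine ⟨i, ?_, ?_⟩
    · have h6 : 1 + k ∈ ((netsOf (N + 2) cs)[i.val]).upper := by rw [h4]; simp
      have := cov_upper Y h6 l
      rw [hk]
      push_cast at this
      exact this
    · rw [h5, hk]; push_cast; rfl
  bot_none := by
    intro x l h1 h2 h3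
    obtain ⟨k, hk⟩ : ∃ k : ℕ, x = 1 + k := ⟨(x - 1).toNat, by omega⟩
    have hk2 : k < cs.length := by omega
    rw [hk, colFn_eq hk2] at h3
    have hc : cs[k] = none := by
      rcases h : cs[k] with _ | p
      · rfl
      · rw [h] at h3; cases h3
    obtain ⟨i, h4, h5⟩ := exists_id (N := N) hk2 hc
    rw [ownOf_iff]
    refine ⟨i, ?_, ?_⟩
    · have h6 : 1 + k ∈ ((netsOf (N + 2) cs)[i.val]).lower := by rw [h4]; simp
      have := cov_lower Y h6 l
      rw [hk]
      push_cast at this
      exact this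
    · rw [h5, hk]; push_cast; rfl
  top_some := by
    intro x l a b h1 h2 h3
    obtain ⟨k, hk⟩ : ∃ k : ℕ, x = 1 + k := ⟨(x - 1).toNat, by omega⟩
    have hk2 : k < cs.length := by omega
    rw [hk, colFn_eq hk2] at h3
    obtain ⟨a', b', hc⟩ : ∃ a' b', cs[k] = some (a', b') := by
      rcases h : cs[k] with _ | ⟨a', b'⟩
      · rw [h] at h3; cases h3
      · exact ⟨a', b', rfl⟩
    rw [hc, conv_some] at h3
    simp only [Option.some.injEq, Prod.mk.injEq] at h3
    obtain ⟨ha, hb⟩ := hv.lt a' b' (by rw [← hc]; exact List.getElem_mem hk2)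
    obtain ⟨i, h4, h5⟩ := exists_pass (N := N) (cs := cs) ha
    rw [ownOf_iff]
    refine ⟨i, ?_, ?_⟩
    · have h6 : 1 + k ∈ ((netsOf (N + 2) cs)[i.val]).upper := by
        rw [h4]
        simp only
        rw [mem_colIdx]
        exact ⟨k, hk2, rfl, by rw [hc, hasTop_iff]; exact ⟨b', rfl⟩⟩
      have := cov_upper Y h6 l
      rw [hk]
      push_cast at this
      exact this
    · rw [h5, h3.1]
  bot_some := by
    intro x l a b h1 h2 h3
    obtain ⟨k, hk⟩ : ∃ k : ℕ, x = 1 + k := ⟨(x - 1).toNat, by omega⟩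
    have hk2 : k < cs.length := by omega
    rw [hk, colFn_eq hk2] at h3
    obtain ⟨a', b', hc⟩ : ∃ a' b', cs[k] = some (a', b') := by
      rcases h : cs[k] with _ | ⟨a', b'⟩
      · rw [h] at h3; cases h3
      · exact ⟨a', b', rfl⟩
    rw [hc, conv_some] at h3
    simp only [Option.some.injEq, Prod.mk.injEq] at h3
    obtain ⟨ha, hb⟩ := hv.lt a' b' (by rw [← hc]; exact List.getElem_mem hk2)
    obtain ⟨i, h4, h5⟩ := exists_pass (N := N) (cs := cs) hb
    rw [ownOf_iff]
    refine ⟨i, ?_, ?_⟩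
    · have h6 : 1 + k ∈ ((netsOf (N + 2) cs)[i.val]).lower := by
        rw [h4]
        simp only
        rw [mem_colIdx]
        exact ⟨k, hk2, rfl, by rw [hc, hasBot_iff]; exact ⟨a', rfl⟩⟩
      have := cov_lower Y h6 l
      rw [hk]
      push_cast at this
      exact this
    · rw [h5, h3.2]
  inr_none := by
    intro v z h
    rw [ownOf_iff] at h
    obtain ⟨⟨i, hi⟩, -, h⟩ := h
    dsimp only at h
    have hi' := hi
    rw [length_netsOf] at hi'
    by_cases h1 : i < N + 2
    · rw [name_lt h1] at h; cases h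
    · rw [name_ge (by omega) (by omega)] at h
      have h2 := List.getElem_mem (l := colIdx Option.isNone 1 cs) (n := i - (N + 2)) (by omega)
      have h3 := (mem_colIdx _ _ _ _).1 h2
      obtain ⟨k, hk, h4, h5⟩ := h3
      have h6 := Sum.inr.inj h
      rw [h4] at h6
      push_cast at h6
      refine ⟨by omega, by omega, ?_⟩
      rw [← h6, colFn_eq hk]
      rcases hc : cs[k] with _ | p
      · rfl
      · rw [hc] at h5; cases h5
  conn := by
    intro o u v hu hv'
    rw [ownOf_iff] at hu hv'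
    obtain ⟨i, ⟨a, ha, rfl⟩, h1⟩ := hu
    obtain ⟨j, ⟨b, hb, rfl⟩, h2⟩ := hv'
    have hij : i = j := Fin.ext (name_inj i.isLt j.isLt (h1.trans h2.symm))
    subst hij
    refine rtg_map toVx ?_ (rtg_of_connected (Y.connected i) ha hb)
    intro a b hab
    refine ⟨nb_toVx hab.adj_sub, ?_⟩
    rw [ownOf_iff]
    exact ⟨i, ⟨b, hab.snd_mem, rfl⟩, h1⟩

end

/-- a layout of the channel routing problem of a gadget list gives a rank function -/
theorem rank_of_layout {N L : ℕ} {gs : List Gadget} (hwf : ∀ g ∈ gs, g.Wf N)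
    (hL : 4 * (N + 2) * (N + 2) + 4 * (N + 2) < L) (hv : ValidCols (N + 2) (cols N L gs))
    {w : ℕ} (hw : w ≤ N + 2) (Y : Layout (mkCRP (N + 2) (cols N L gs) hv) w) :
    ∃ r : ℕ → ℤ, ∀ g ∈ gs, g.Sat r := by
  classical
  set G := globOf Y with hG
  have hGw : G.w = w := rfl
  have hGm : G.m = (cols N L gs).length := rfl
  have hcard : (Fintype.card (Fin (N + 2)) : ℤ) = N + 2 := by simp
  -- the columns
  have hcols : G.ColsAt 0 ((cols N L gs).map (conv N)) := by
    refine ⟨le_rfl, by rw [List.length_map, hGm]; omega, ?_⟩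
    intro k hk
    rw [List.length_map] at hk
    rw [List.getElem_map]
    have e : (0 : ℤ) + 1 + k = 1 + k := by ring
    rw [e]
    exact colFn_eq hk
  have hlen := congrArg List.length (conv_cols N L gs)
  rw [conv_cols] at hcols
  obtain ⟨hc1, hc2⟩ := hcols.append
  obtain ⟨hc3, hc4⟩ := hc2.append
  have hside : ((side N).map (conv N)).length = N + 2 := by simp [side]
  have hsideget : ∀ (k : ℕ) (h : k < ((side N).map (conv N)).length),
      ((side N).map (conv N))[k] = some (el N k, el N k) := by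
    intro k h
    rw [List.getElem_map]
    unfold side
    rw [List.getElem_map, List.getElem_range, conv_some]
  have hleft : ∀ i : Fin (N + 2), ∃ v : Vx, G.own v = some (.inl i) ∧
      v.1 ≤ 0 + (((side N).map (conv N)).length : ℤ) := by
    intro i
    have h1 : i.val < ((side N).map (conv N)).length := by rw [hside]; exact i.isLt
    have h2 := hc1.2.2 i.val h1
    rw [hsideget i.val h1, el_self] at h2
    have h3 := hc1.2.1
    refine ⟨_, G.top_some _ false i i ?_ ?_ h2, ?_⟩
    · omega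
    · omega
    · dsimp only; omega
  have hright : ∀ i : Fin (N + 2), ∃ v : Vx, G.own v = some (.inl i) ∧
      0 + (((side N).map (conv N)).length : ℤ) + (Glob.zcols L (zonesOf N gs)).length < v.1 := by
    intro i
    have h1 : i.val < ((side N).map (conv N)).length := by rw [hside]; exact i.isLt
    have h2 := hc4.2.2 i.val h1
    rw [hsideget i.val h1, el_self] at h2
    have h3 := hc4.2.1
    refine ⟨_, G.top_some _ false i i ?_ ?_ h2, ?_⟩
    · omega
    · omega
    · dsimp only; omega
  have hok : ∀ z ∈ zonesOf N gs, z.Ok := by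
    have ht : ∀ z ∈ tallZ N, z.Ok := by
      intro z hz
      unfold tallZ at hz
      rw [List.mem_append, List.mem_map, List.mem_map] at hz
      rcases hz with ⟨e, -, rfl⟩ | ⟨e, -, rfl⟩
      · trivial
      · trivial
    intro z hz
    unfold zonesOf at hz
    rw [List.mem_append, List.mem_flatMap] at hz
    rcases hz with ⟨g, hg, hz⟩ | hz
    · rw [List.mem_append, List.mem_singleton] at hz
      rcases hz with hz | rfl
      · exact ht z hz
      · have hg' := hwf g hg
        cases g with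
        | test a b => trivial
        | up a b c =>
          obtain ⟨g1, g2, g3, g4, g5, g6⟩ := hg'
          exact ⟨fun h => by have := el_inj (by omega) (by omega) h; omega,
            fun h => by have := el_inj (by omega) (by omega) h; omega⟩
        | down a b c =>
          obtain ⟨g1, g2, g3, g4, g5, g6⟩ := hg'
          exact ⟨fun h => by have := el_inj (by omega) (by omega) h; omega,
            fun h => by have := el_inj (by omega) (by omega) h; omega⟩
    · exact ht z hz
  obtain ⟨h1, f, ly, p, hF, -, -, hgood⟩ := G.chain (L := L) (by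
      rw [hcard, hGw]; exact_mod_cast hw) (by
      rw [hcard]; exact_mod_cast hL) (zonesOf N gs) _ hok hc3 hleft hright
  have hw1 : 1 ≤ G.w := by rw [h1, hcard]; omega
  have hbij : Bij G.w p := ⟨hF.surj, hF.inj⟩
  exact exists_rank hbij gs hwf (good_satP hw1 gs hbij hwf hgood)

end Pool.Agent.Helper64_Chan
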