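import Pool.Agent.Helper64_Chan.RegionMain

/-!
# Layouts as ownership functions, and rigid columns in long blocks
-/

namespace Pool.Agent.Helper64_Chan

/-- A layout of width `w` of a channel with `m` columns. `col x = none`: column `x` has its own
net, named `x`; `col x = some (a, b)`: upper terminal of the passing net `a`, lower terminal of
the passing net `b`. -/
structure Glob (ι : Type) where
  w : ℤ
  m : ℤ
  col : ℤ → Option (ι × ι)
  own : Vx → Option (ι ⊕ ℤ)
  box : ∀ v o, own v = some o → 1 ≤ v.1 ∧ v.1 ≤ m ∧ 0 ≤ v.2.1 ∧ v.2.1 ≤ w + 1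
  top_none : ∀ x l, 1 ≤ x → x ≤ m → col x = none → own (x, w + 1, l) = some (.inr x)
  bot_none : ∀ x l, 1 ≤ x → x ≤ m → col x = none → own (x, 0, l) = some (.inr x)
  top_some : ∀ x l a b, 1 ≤ x → x ≤ m → col x = some (a, b) → own (x, w + 1, l) = some (.inl a)
  bot_some : ∀ x l a b, 1 ≤ x → x ≤ m → col x = some (a, b) → own (x, 0, l) = some (.inl b)
  inr_none : ∀ v z, own v = some (.inr z) → 1 ≤ z ∧ z ≤ m ∧ col z = none
  conn : ∀ o (u v : Vx), own u = some o → own v = some o →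
    Relation.ReflTransGen (fun a b => Nb a b ∧ own b = some o) u v

theorem Nb.fst {a b : Vx} (h : Nb a b) : b.1 ≤ a.1 + 1 ∧ a.1 ≤ b.1 + 1 := by
  rcases h with ⟨e1, e2, e3⟩ | ⟨e1, e2, e3⟩ | ⟨e1, e2, e3⟩ <;> omega

theorem Nb.snd {a b : Vx} (h : Nb a b) : b.2.1 ≤ a.2.1 + 1 ∧ a.2.1 ≤ b.2.1 + 1 := by
  rcases h with ⟨e1, e2, e3⟩ | ⟨e1, e2, e3⟩ | ⟨e1, e2, e3⟩ <;> omega

theorem Nb.of_fst {a b : Vx} (h : Nb a b) (hne : b.1 ≠ a.1) :
    b.2.1 = a.2.1 ∧ b.2.2 = a.2.2 := by
  rcases h with ⟨e1, e2, e3⟩ | ⟨e1, e2, e3⟩ | ⟨e1, e2, e3⟩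
  · exact absurd e1 hne
  · exact absurd e2 hne
  · exact ⟨e2, e1⟩

theorem Nb.of_snd {a b : Vx} (h : Nb a b) (hne : b.2.1 ≠ a.2.1) :
    b.1 = a.1 ∧ b.2.2 = a.2.2 := by
  rcases h with ⟨e1, e2, e3⟩ | ⟨e1, e2, e3⟩ | ⟨e1, e2, e3⟩
  · exact absurd e2 hne
  · exact ⟨e2, e1⟩
  · exact absurd e2 hne

/-- A connected set meeting a hyperplane at most once stays connected in the half space. -/
theorem halfspace {S : Vx → Prop} {φ : Vx → ℤ} (hφ : ∀ a b, Nb a b → φ b ≤ φ a + 1 ∧
    φ a ≤ φ b + 1) {f : ℤ} (hS : ∀ a b, S a → S b → φ a = f → φ b = f → a = b) {u v : Vx}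
    (hu : S u) (h : Relation.ReflTransGen (fun a b => Nb a b ∧ S b) u v) (h1 : f ≤ φ u)
    (h2 : f ≤ φ v) :
    Relation.ReflTransGen (fun a b => Nb a b ∧ (S b ∧ f ≤ φ b)) u v := by
  have key : (f ≤ φ v → Relation.ReflTransGen (fun a b => Nb a b ∧ (S b ∧ f ≤ φ b)) u v) ∧
      (φ v < f → ∃ c, S c ∧ φ c = f ∧
        Relation.ReflTransGen (fun a b => Nb a b ∧ (S b ∧ f ≤ φ b)) u c) ∧ S v := by
    clear h2
    induction h with
    | refl => exact ⟨fun _ => .refl, fun h => by omega, hu⟩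
    | @tail b c _ hbc ih =>
      obtain ⟨ih1, ih2, ih3⟩ := ih
      have hstep := hφ b c hbc.1
      refine ⟨fun hc => ?_, fun hc => ?_, hbc.2⟩
      · by_cases hb : f ≤ φ b
        · exact (ih1 hb).tail ⟨hbc.1, hbc.2, hc⟩
        · obtain ⟨d, hd1, hd2, hd3⟩ := ih2 (by omega)
          have : d = c := hS d c hd1 hbc.2 hd2 (by omega)
          rw [← this]
          exact hd3
      · by_cases hb : f ≤ φ b
        · exact ⟨b, ih3, by omega, ih1 hb⟩
        · exact ih2 (by omega)
  exact key.1 h2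

namespace Glob

variable {ι : Type} (G : Glob ι)

theorem cross {o : ι ⊕ ℤ} {u v : Vx} (hu : G.own u = some o) (hv : G.own v = some o)
    (A : Vx → Prop) (hAu : A u) (hAv : ¬ A v) :
    ∃ a b, G.own a = some o ∧ G.own b = some o ∧ Nb a b ∧ A a ∧ ¬ A b := by
  obtain ⟨a, b, h1, h2, h3, h4⟩ := cross_rtg (G.conn o u v hu hv) A hAu hAv
  refine ⟨a, b, ?_, h2.2, h2.1, h3, h4⟩
  rcases Relation.ReflTransGen.cases_tail h1 with h | ⟨c, -, hc⟩
  · rw [h]; exact hu
  · exact hc.2

/-- boundary vertices of walls -/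
theorem wall_bdy {z x y : ℤ} {l : Bool} (h : G.own (x, y, l) = some (.inr z))
    (hy : y = 0 ∨ y = G.w + 1) : x = z := by
  have hb := G.box _ _ h
  simp only at hb
  rcases hc : G.col x with _ | ⟨a, b⟩
  · rcases hy with rfl | rfl
    · rw [G.bot_none x l hb.1 hb.2.1 hc] at h
      exact Sum.inr.inj (Option.some.inj h)
    · rw [G.top_none x l hb.1 hb.2.1 hc] at h
      exact Sum.inr.inj (Option.some.inj h)
  · rcases hy with rfl | rfl
    · rw [G.bot_some x l a b hb.1 hb.2.1 hc] at h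
      cases h
    · rw [G.top_some x l a b hb.1 hb.2.1 hc] at h
      cases h

/-- walls meet every row -/
theorem hit_row {z y : ℤ} (hz1 : 1 ≤ z) (hz2 : z ≤ G.m) (hz3 : G.col z = none) (h1 : 1 ≤ y)
    (h2 : y ≤ G.w) : ∃ x l, G.own (x, y, l) = some (.inr z) := by
  obtain ⟨⟨x, t, l⟩, ⟨x', t', l'⟩, ha, hb, hn, hA, hB⟩ := G.cross
    (G.bot_none z false hz1 hz2 hz3) (G.top_none z false hz1 hz2 hz3) (fun v => v.2.1 < y)
    (by dsimp only; omega) (by dsimp only; omega)
  have := hn.snd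
  dsimp only at hA hB this
  have : t' = y := by omega
  subst this
  exact ⟨x', l', hb⟩

/-- a wall leaves its lower terminal upwards -/
theorem hit_one {z : ℤ} (hw : 1 ≤ G.w) (hz1 : 1 ≤ z) (hz2 : z ≤ G.m) (hz3 : G.col z = none) :
    ∃ l, G.own (z, 1, l) = some (.inr z) := by
  obtain ⟨⟨x, t, l⟩, ⟨x', t', l'⟩, ha, hb, hn, hA, hB⟩ := G.cross
    (G.bot_none z false hz1 hz2 hz3) (G.top_none z false hz1 hz2 hz3) (fun v => v.2.1 = 0)
    rfl (by dsimp only; omega)
  dsimp only at hA hB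
  subst hA
  have h1 := (hn.of_snd hB).1
  have h2 := hn.snd
  have h3 := (G.box _ _ hb).2.2.1
  simp only at h1 h2 h3
  subst h1
  have : t' = 1 := by omega
  subst this
  have := G.wall_bdy ha (Or.inl rfl)
  subst this
  exact ⟨l', hb⟩

/-- Passing nets meet the columns between their vertices; in columns with their own net this
happens in the rows `1, …, w`. -/
theorem hit_col {i : ι} {u v : Vx} (hu : G.own u = some (.inl i)) (hv : G.own v = some (.inl i))
    {x : ℤ} (h1 : u.1 < x) (h2 : x < v.1) (hx : G.col x = none) :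
    ∃ y l, 1 ≤ y ∧ y ≤ G.w ∧ G.own (x, y, l) = some (.inl i) := by
  obtain ⟨⟨a, t, l⟩, ⟨a', t', l'⟩, ha, hb, hn, hA, hB⟩ := G.cross hu hv (fun v => v.1 < x)
    h1 (by omega)
  have h3 := hn.fst
  dsimp only at hA hB h3
  have : a' = x := by omega
  subst this
  have h4 := G.box _ _ hb
  simp only at h4
  refine ⟨t', l', ?_, ?_, hb⟩
  · by_contra hc
    have : t' = 0 := by omega
    subst this
    rw [G.bot_none _ _ h4.1 h4.2.1 hx] at hb
    cases hb
  · by_contra hc
    have : t' = G.w + 1 := by omega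
    subst this
    rw [G.top_none _ _ h4.1 h4.2.1 hx] at hb
    cases hb

/-- A rigid column. -/
structure Frozen (x : ℤ) (ly : Bool) (p : ℤ → ι) : Prop where
  hx1 : 1 ≤ x
  hx2 : x ≤ G.m
  none : G.col x = Option.none
  wall : ∀ y, 1 ≤ y → y ≤ G.w → G.own (x, y, !ly) = some (.inr x)
  net : ∀ y, 1 ≤ y → y ≤ G.w → G.own (x, y, ly) = some (.inl (p y))
  inj : ∀ y y', 1 ≤ y → y ≤ G.w → 1 ≤ y' → y' ≤ G.w → p y = p y' → y = y'
  surj : ∀ i, ∃ y, 1 ≤ y ∧ y ≤ G.w ∧ p y = i
  only : ∀ v, G.own v = some (.inr x) → v.1 = x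

/-- Long blocks of columns with their own nets contain a rigid column. -/
theorem exists_frozen [Fintype ι] [Nonempty ι] (hwW : G.w ≤ Fintype.card ι) {s L : ℤ}
    (hs : 0 ≤ s) (hsL : s + L ≤ G.m)
    (hL : 4 * (Fintype.card ι : ℤ) * Fintype.card ι + 4 * Fintype.card ι < L)
    (hblk : ∀ x, s < x → x ≤ s + L → G.col x = Option.none)
    (hleft : ∀ i, ∃ v : Vx, G.own v = some (.inl i) ∧ v.1 ≤ s)
    (hright : ∀ i, ∃ v : Vx, G.own v = some (.inl i) ∧ s + L < v.1) :
    G.w = Fintype.card ι ∧ ∃ x, s < x ∧ x ≤ s + L ∧ ∃ ly p, G.Frozen x ly p := by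
  classical
  have hW0 : 0 < (Fintype.card ι : ℤ) := by exact_mod_cast Fintype.card_pos
  have hL0 : 0 < L := by nlinarith
  -- every net hits every column of the block
  have hcol : ∀ i x, s < x → x ≤ s + L → ∃ y l, 1 ≤ y ∧ y ≤ G.w ∧
      G.own (x, y, l) = some (.inl i) := by
    intro i x h1 h2
    obtain ⟨u, hu1, hu2⟩ := hleft i
    obtain ⟨v, hv1, hv2⟩ := hright i
    exact G.hit_col hu1 hv1 (by omega) (by omega) (hblk x h1 h2)
  have hw1 : 1 ≤ G.w := by
    obtain ⟨y, l, h1, h2, -⟩ := hcol (Classical.arbitrary ι) (s + 1) (by omega) (by omega)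
    omega
  set X : Finset ℤ := Finset.Icc (s + 1) (s + L) with hX
  set Rw : Finset ℤ := Finset.Icc 1 G.w with hRw
  have hXc : (X.card : ℤ) = L := by
    rw [hX, Int.card_Icc]; omega
  have hRc : (Rw.card : ℤ) = G.w := by
    rw [hRw, Int.card_Icc]; omega
  set S : Finset Vx := X ×ˢ (Rw ×ˢ (Finset.univ : Finset Bool)) with hS
  have memS : ∀ x y l, ((x, y, l) : Vx) ∈ S ↔ (s < x ∧ x ≤ s + L) ∧ (1 ≤ y ∧ y ≤ G.w) := by
    intro x y l
    rw [hS, hX, hRw]
    simp only [Finset.mem_product, Finset.mem_Icc, Finset.mem_univ, and_true]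
    omega
  have hSc : (S.card : ℤ) = 2 * G.w * L := by
    rw [hS, Finset.card_product, Finset.card_product]
    push_cast
    rw [hXc, hRc]
    simp only [Finset.card_univ, Fintype.card_bool, Nat.cast_ofNat]
    ring
  -- wandering walls
  set Out : Finset ℤ := X.filter (fun z => ∃ v : Vx, G.own v = some (.inr z) ∧
    ¬ (s < v.1 ∧ v.1 ≤ s + L)) with hOut
  have hOutc : (Out.card : ℤ) ≤ 4 * G.w := by
    have hsub : Out ⊆ (({s + 1, s + L} : Finset ℤ) ×ˢ (Rw ×ˢ (Finset.univ : Finset Bool))).biUnion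
        (fun v => wallSet (G.own v)) := by
      intro z hz
      rw [hOut, Finset.mem_filter, hX, Finset.mem_Icc] at hz
      obtain ⟨⟨hz1, hz2⟩, v, hv1, hv2⟩ := hz
      have hzc := hblk z (by omega) hz2
      have key : ∃ x y l, (x = s + 1 ∨ x = s + L) ∧ 1 ≤ y ∧ y ≤ G.w ∧
          G.own (x, y, l) = some (.inr z) := by
        by_cases c1 : z = s + 1
        · obtain ⟨l, hl⟩ := G.hit_one hw1 (by omega) (by omega) hzc
          exact ⟨z, 1, l, Or.inl c1, le_rfl, hw1, hl⟩
        by_cases c2 : z = s + L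
        · obtain ⟨l, hl⟩ := G.hit_one hw1 (by omega) (by omega) hzc
          exact ⟨z, 1, l, Or.inr c2, le_rfl, hw1, hl⟩
        have inner : ∀ x y l, x ≠ z → G.own (x, y, l) = some (.inr z) → 1 ≤ y ∧ y ≤ G.w := by
          intro x y l h1 h2
          have h3 := (G.box _ _ h2)
          simp only at h3
          constructor
          · by_contra hc
            exact h1 (G.wall_bdy h2 (Or.inl (by omega)))
          · by_contra hc
            exact h1 (G.wall_bdy h2 (Or.inr (by omega)))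
        have hz0 := G.bot_none z false (by omega) (by omega) hzc
        by_cases c3 : v.1 ≤ s
        · obtain ⟨⟨a, t, l⟩, ⟨a', t', l'⟩, ha, hb, hn, hA, hB⟩ := G.cross hz0 hv1
            (fun v => s + 1 < v.1) (by dsimp only; omega) (by omega)
          have h3 := hn.fst
          dsimp only at hA hB h3
          have : a' = s + 1 := by omega
          have h4 := inner a' t' l' (by omega) hb
          exact ⟨a', t', l', Or.inl this, h4.1, h4.2, hb⟩
        · obtain ⟨⟨a, t, l⟩, ⟨a', t', l'⟩, ha, hb, hn, hA, hB⟩ := G.cross hz0 hv1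
            (fun v => v.1 < s + L) (by dsimp only; omega) (by omega)
          have h3 := hn.fst
          dsimp only at hA hB h3
          have : a' = s + L := by omega
          have h4 := inner a' t' l' (by omega) hb
          exact ⟨a', t', l', Or.inr this, h4.1, h4.2, hb⟩
      obtain ⟨x, y, l, h1, h2, h3, h4⟩ := key
      rw [Finset.mem_biUnion]
      refine ⟨(x, y, l), ?_, ?_⟩
      · rw [hRw]
        simp only [Finset.mem_product, Finset.mem_insert, Finset.mem_singleton, Finset.mem_Icc,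
          Finset.mem_univ, and_true]
        exact ⟨h1, h2, h3⟩
      · rw [h4]
        simp [wallSet]
    have h1 := (Finset.card_le_card hsub).trans Finset.card_biUnion_le
    have h2 : ∑ v ∈ (({s + 1, s + L} : Finset ℤ) ×ˢ (Rw ×ˢ (Finset.univ : Finset Bool))),
        (wallSet (G.own v)).card ≤
        ∑ v ∈ (({s + 1, s + L} : Finset ℤ) ×ˢ (Rw ×ˢ (Finset.univ : Finset Bool))), 1 := by
      apply Finset.sum_le_sum
      intro v _
      have := card_wallSet (G.own v)
      have := isW_le (G.own v)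
      omega
    rw [Finset.sum_const, smul_eq_mul, mul_one, Finset.card_product, Finset.card_product] at h2
    have h3 : ({s + 1, s + L} : Finset ℤ).card ≤ 2 := Finset.card_le_two
    have h4 : ({s + 1, s + L} : Finset ℤ).card * (Rw.card * (Finset.univ : Finset Bool).card) ≤
        2 * (Rw.card * 2) := by
      simp only [Finset.card_univ, Fintype.card_bool]
      exact Nat.mul_le_mul_right _ h3
    have h5 := h1.trans (h2.trans h4)
    have h6 : (Out.card : ℤ) ≤ 2 * ((Rw.card : ℤ) * 2) := by exact_mod_cast h5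
    rw [hRc] at h6
    omega
  have hOutX : Out ⊆ X := Finset.filter_subset _ _
  -- the two families
  set Ax : ℤ → Finset Vx := fun x => S.filter (fun v => v.1 = x ∧ ∃ i, G.own v = some (.inl i))
    with hAx
  set Nz : ℤ → Finset Vx := fun z => S.filter (fun v => G.own v = some (.inr z)) with hNz
  have hA1 : ∀ x ∈ X, (Fintype.card ι : ℤ) ≤ (Ax x).card := by
    intro x hx
    rw [hX, Finset.mem_Icc] at hx
    have hh : ∀ i : ι, ∃ v : Vx, v ∈ Ax x ∧ G.own v = some (.inl i) := by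
      intro i
      obtain ⟨y, l, h1, h2, h3⟩ := hcol i x (by omega) hx.2
      refine ⟨(x, y, l), ?_, h3⟩
      rw [hAx]
      simp only [Finset.mem_filter, true_and]
      exact ⟨(memS x y l).2 ⟨⟨by omega, hx.2⟩, h1, h2⟩, i, h3⟩
    choose h h1 h2 using hh
    have := Finset.card_le_card_of_injOn (s := (Finset.univ : Finset ι)) (t := Ax x) h
      (fun i _ => h1 i) (fun i _ j _ hij => by
        have h3 := h2 i
        rw [hij, h2 j] at h3
        exact (Sum.inl.inj (Option.some.inj h3)).symm)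
    rw [Finset.card_univ] at this
    exact_mod_cast this
  have hN1 : ∀ z ∈ X \ Out, ∀ y ∈ Rw, ∃ v ∈ Nz z, v.2.1 = y := by
    intro z hz y hy
    rw [Finset.mem_sdiff] at hz
    have hz1 := hz.1
    rw [hX, Finset.mem_Icc] at hz1
    rw [hRw, Finset.mem_Icc] at hy
    obtain ⟨x, l, h1⟩ := G.hit_row (z := z) (by omega) (by omega) (hblk z (by omega) hz1.2)
      hy.1 hy.2
    refine ⟨(x, y, l), ?_, rfl⟩
    rw [hNz]
    simp only [Finset.mem_filter]
    refine ⟨(memS x y l).2 ⟨?_, hy⟩, h1⟩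
    by_contra hc
    apply hz.2
    rw [hOut, Finset.mem_filter]
    exact ⟨hz.1, (x, y, l), h1, hc⟩
  have hN2 : ∀ z ∈ X \ Out, G.w ≤ ((Nz z).card : ℤ) := by
    intro z hz
    have h1 : Rw ⊆ (Nz z).image (fun v => v.2.1) := by
      intro y hy
      obtain ⟨v, hv1, hv2⟩ := hN1 z hz y hy
      rw [Finset.mem_image]
      exact ⟨v, hv1, hv2⟩
    have h2 := (Finset.card_le_card h1).trans Finset.card_image_le
    rw [← hRc]
    exact_mod_cast h2
  -- the count
  have hdis : ((X.biUnion Ax) ∪ ((X \ Out).biUnion Nz)).card ≤ S.card := by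
    apply Finset.card_le_card
    intro v hv
    rw [Finset.mem_union, Finset.mem_biUnion, Finset.mem_biUnion] at hv
    rcases hv with ⟨x, -, hv⟩ | ⟨z, -, hv⟩
    · exact (Finset.mem_filter.1 hv).1
    · exact (Finset.mem_filter.1 hv).1
  rw [Finset.card_union_of_disjoint (by
    rw [Finset.disjoint_left]
    intro v hv hv'
    rw [Finset.mem_biUnion] at hv hv'
    obtain ⟨x, -, hv⟩ := hv
    obtain ⟨z, -, hv'⟩ := hv'
    obtain ⟨i, hi⟩ := (Finset.mem_filter.1 hv).2.2
    have := (Finset.mem_filter.1 hv').2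
    rw [hi] at this
    cases this), Finset.card_biUnion (by
    intro x _ x' _ hne
    rw [Function.onFun, Finset.disjoint_left]
    intro v hv hv'
    exact hne ((Finset.mem_filter.1 hv).2.1.symm.trans (Finset.mem_filter.1 hv').2.1)),
    Finset.card_biUnion (by
    intro x _ x' _ hne
    rw [Function.onFun, Finset.disjoint_left]
    intro v hv hv'
    have h1 := (Finset.mem_filter.1 hv).2
    rw [(Finset.mem_filter.1 hv').2] at h1
    exact hne (Sum.inr.inj (Option.some.inj h1)).symm)] at hdis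
  have hgood : ∃ x ∈ X \ Out, ((Ax x).card : ℤ) + (Nz x).card ≤ 2 * G.w := by
    by_contra hc
    push Not at hc
    have h1 : (2 * G.w + 1) * ((X \ Out).card : ℤ) ≤
        ∑ x ∈ X \ Out, (((Ax x).card : ℤ) + (Nz x).card) := by
      rw [mul_comm, ← nsmul_eq_mul, ← Finset.sum_const]
      apply Finset.sum_le_sum
      intro x hx
      have := hc x hx
      omega
    have h2 : G.w * (Out.card : ℤ) ≤ ∑ x ∈ Out, ((Ax x).card : ℤ) := by
      rw [mul_comm, ← nsmul_eq_mul, ← Finset.sum_const]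
      apply Finset.sum_le_sum
      intro x hx
      have := hA1 x (hOutX hx)
      omega
    have h3 : ∑ x ∈ X, ((Ax x).card : ℤ) = ∑ x ∈ X \ Out, ((Ax x).card : ℤ) +
        ∑ x ∈ Out, ((Ax x).card : ℤ) := by
      rw [Finset.sum_sdiff hOutX]
    have h4 : ∑ x ∈ X, ((Ax x).card : ℤ) + ∑ x ∈ X \ Out, ((Nz x).card : ℤ) ≤ S.card := by
      exact_mod_cast hdis
    have h5 : ((X \ Out).card : ℤ) = L - Out.card := by
      rw [Finset.card_sdiff_of_subset hOutX]
      have := Finset.card_le_card hOutX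
      rw [← hXc]
      push_cast [this]
      ring
    rw [Finset.sum_add_distrib] at h1
    rw [hSc] at h4
    rw [h5] at h1
    have h6 : (0 : ℤ) ≤ Out.card := by positivity
    nlinarith
  obtain ⟨x, hxm, hx⟩ := hgood
  have h1 := hA1 x (Finset.mem_sdiff.1 hxm).1
  have h2 := hN2 x hxm
  have hwe : G.w = Fintype.card ι := by omega
  have hAc : ((Ax x).card : ℤ) = G.w := by omega
  have hNc : ((Nz x).card : ℤ) = G.w := by omega
  have hxX := (Finset.mem_sdiff.1 hxm).1
  have hxO := (Finset.mem_sdiff.1 hxm).2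
  rw [hX, Finset.mem_Icc] at hxX
  have hx1 : 1 ≤ x := by omega
  have hx2 : x ≤ G.m := by omega
  have hxc := hblk x (by omega) hxX.2
  have hin : ∀ v : Vx, G.own v = some (.inr x) → s < v.1 ∧ v.1 ≤ s + L := by
    intro v hv
    by_contra hc
    apply hxO
    rw [hOut, Finset.mem_filter]
    exact ⟨(Finset.mem_sdiff.1 hxm).1, v, hv, hc⟩
  -- one vertex of the wall in each row
  have huniq : ∀ u v : Vx, G.own u = some (.inr x) → G.own v = some (.inr x) → 1 ≤ u.2.1 →
      u.2.1 ≤ G.w → u.2.1 = v.2.1 → u = v := by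
    have hinj : Set.InjOn (fun v : Vx => v.2.1) (Nz x : Set Vx) := by
      apply Finset.injOn_of_surjOn_of_card_le (fun v : Vx => v.2.1) (t := Rw)
      · intro v hv
        have h3 := (Finset.mem_filter.1 hv).1
        have := (memS v.1 v.2.1 v.2.2).1 h3
        rw [hRw]
        simpa using this.2
      · intro y hy
        obtain ⟨v, hv1, hv2⟩ := hN1 x hxm y hy
        exact ⟨v, hv1, hv2⟩
      · have : ((Nz x).card : ℤ) ≤ Rw.card := by omega
        exact_mod_cast this
    intro u v hu hv h3 h4 h5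
    apply hinj
    · rw [Finset.mem_coe, hNz, Finset.mem_filter]
      exact ⟨(memS u.1 u.2.1 u.2.2).2 ⟨hin u hu, h3, h4⟩, hu⟩
    · rw [Finset.mem_coe, hNz, Finset.mem_filter]
      exact ⟨(memS v.1 v.2.1 v.2.2).2 ⟨hin v hv, by omega, by omega⟩, hv⟩
    · exact h5
  obtain ⟨l0, hl0⟩ := G.hit_one hw1 hx1 hx2 hxc
  have hstr : ∀ n : ℕ, ∀ y : ℤ, y = 1 + n → y ≤ G.w → G.own (x, y, l0) = some (.inr x) := by
    intro n
    induction n with
    | zero =>
      intro y hy _
      have : y = 1 := by simpa using hy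
      subst this
      exact hl0
    | succ n ih =>
      intro y hy hyw
      push_cast at hy
      have h3 := ih (y - 1) (by omega) (by omega)
      obtain ⟨⟨a, t, l⟩, ⟨a', t', l'⟩, ha, hb, hn, hA, hB⟩ := G.cross
        (G.bot_none x false hx1 hx2 hxc) (G.top_none x false hx1 hx2 hxc)
        (fun v => v.2.1 < y) (by dsimp only; omega) (by dsimp only; omega)
      have h4 := hn.snd
      dsimp only at hA hB h4
      have h5 := hn.of_snd (by dsimp only; omega)
      simp only at h5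
      obtain ⟨rfl, rfl⟩ := h5
      have h6 : t = y - 1 := by omega
      subst h6
      have h7 : t' = y := by omega
      subst h7
      have h8 := huniq _ _ ha h3 (by dsimp only; omega) (by dsimp only; omega) rfl
      simp only [Prod.mk.injEq, true_and] at h8
      obtain ⟨rfl, rfl⟩ := h8
      exact hb
  have hwall : ∀ y, 1 ≤ y → y ≤ G.w → G.own (x, y, l0) = some (.inr x) := fun y h3 h4 =>
    hstr (y - 1).toNat y (by omega) h4
  have honly : ∀ v, G.own v = some (.inr x) → v.1 = x := by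
    rintro ⟨a, t, l⟩ hv
    have hb := G.box _ _ hv
    simp only at hb ⊢
    by_cases ht : 1 ≤ t ∧ t ≤ G.w
    · have := huniq _ _ hv (hwall t ht.1 ht.2) ht.1 ht.2 rfl
      exact congrArg Prod.fst this
    · exact G.wall_bdy hv (by omega)
  -- the other layer of column `x`
  have hAsub : Ax x ⊆ Rw.image (fun y => ((x, y, !l0) : Vx)) := by
    rintro ⟨a, t, l⟩ hv
    rw [hAx] at hv
    simp only [Finset.mem_filter] at hv
    obtain ⟨hv1, hv2, i, hv3⟩ := hv
    subst hv2
    rw [memS] at hv1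
    rw [Finset.mem_image]
    refine ⟨t, by rw [hRw, Finset.mem_Icc]; exact hv1.2, ?_⟩
    have : l ≠ l0 := by
      rintro rfl
      rw [hwall t hv1.2.1 hv1.2.2] at hv3
      cases hv3
    rw [bool_eq_not_of_ne this]
  have hAeq : Ax x = Rw.image (fun y => ((x, y, !l0) : Vx)) := by
    apply Finset.eq_of_subset_of_card_le hAsub
    have h3 : (Rw.image (fun y => ((x, y, !l0) : Vx))).card ≤ Rw.card := Finset.card_image_le
    have h4 : (Rw.card : ℤ) = (Ax x).card := by omega
    have h5 : Rw.card = (Ax x).card := by exact_mod_cast h4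
    omega
  have hnet : ∀ y : ℤ, ∃ i : ι, 1 ≤ y → y ≤ G.w → G.own (x, y, !l0) = some (.inl i) := by
    intro y
    by_cases hy : 1 ≤ y ∧ y ≤ G.w
    · have h3 : ((x, y, !l0) : Vx) ∈ Ax x := by
        rw [hAeq, Finset.mem_image]
        exact ⟨y, by rw [hRw, Finset.mem_Icc]; exact hy, rfl⟩
      obtain ⟨i, hi⟩ := (Finset.mem_filter.1 h3).2.2
      exact ⟨i, fun _ _ => hi⟩
    · exact ⟨Classical.arbitrary ι, fun h3 h4 => absurd ⟨h3, h4⟩ hy⟩
  choose p hp using hnet
  have hsurj : ∀ i, ∃ y, 1 ≤ y ∧ y ≤ G.w ∧ p y = i := by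
    intro i
    obtain ⟨y, l, h3, h4, h5⟩ := hcol i x (by omega) hxX.2
    refine ⟨y, h3, h4, ?_⟩
    have : l ≠ l0 := by
      rintro rfl
      rw [hwall y h3 h4] at h5
      cases h5
    rw [bool_eq_not_of_ne this, hp y h3 h4] at h5
    exact Sum.inl.inj (Option.some.inj h5)
  refine ⟨hwe, x, by omega, hxX.2, !l0, p, hx1, hx2, hxc, ?_, hp, ?_, hsurj, honly⟩
  · intro y h3 h4
    rw [Bool.not_not]
    exact hwall y h3 h4
  · have h3 : Set.InjOn p (Rw : Set ℤ) := by
      apply Finset.injOn_of_surjOn_of_card_le p (t := Finset.univ)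
      · intro y _; simp
      · intro i _
        obtain ⟨y, h4, h5, h6⟩ := hsurj i
        exact ⟨y, by rw [Finset.mem_coe, hRw, Finset.mem_Icc]; exact ⟨h4, h5⟩, h6⟩
      · rw [Finset.card_univ]
        have : (Rw.card : ℤ) ≤ Fintype.card ι := by omega
        exact_mod_cast this
    intro y y' h4 h5 h6 h7 h8
    exact h3 (by rw [Finset.mem_coe, hRw, Finset.mem_Icc]; exact ⟨h4, h5⟩)
      (by rw [Finset.mem_coe, hRw, Finset.mem_Icc]; exact ⟨h6, h7⟩) h8

end Glob

end Pool.Agent.Helper64_Chan
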