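import Pool.Agent.Helper64_Chan.Order

/-!
# The channel routing problem given by a list of columns
-/

namespace Pool.Agent.Helper64_Chan

theorem mem_colIdx (p : Column → Bool) : ∀ (x : ℕ) (cs : List Column) (t : ℕ),
    t ∈ colIdx p x cs ↔ ∃ (k : ℕ) (h : k < cs.length), t = x + k ∧ p cs[k] = true
  | x, [], t => by simp [colIdx]
  | x, c :: cs, t => by
    have ih := mem_colIdx p (x + 1) cs t
    unfold colIdx
    have key : (∃ (k : ℕ) (h : k < (c :: cs).length), t = x + k ∧ p (c :: cs)[k] = true) ↔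
        (t = x ∧ p c = true) ∨ ∃ (k : ℕ) (h : k < cs.length), t = x + 1 + k ∧ p cs[k] = true := by
      constructor
      · rintro ⟨k, hk, h1, h2⟩
        rcases k with _ | k
        · left; exact ⟨by omega, by simpa using h2⟩
        · right
          exact ⟨k, by simpa using hk, by omega, by simpa using h2⟩
      · rintro (⟨h1, h2⟩ | ⟨k, hk, h1, h2⟩)
        · exact ⟨0, by simp, by omega, by simpa using h2⟩
        · exact ⟨k + 1, by simpa using hk, by omega, by simpa using h2⟩
    rw [key]
    by_cases hp : p c = true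
    · rw [if_pos hp, List.mem_cons, ih]
      simp [hp]
    · rw [if_neg hp, ih]
      simp [hp]

theorem nodup_colIdx (p : Column → Bool) : ∀ (x : ℕ) (cs : List Column), (colIdx p x cs).Nodup
  | x, [] => by simp [colIdx]
  | x, c :: cs => by
    unfold colIdx
    split_ifs
    · rw [List.nodup_cons]
      refine ⟨?_, nodup_colIdx p (x + 1) cs⟩
      rw [mem_colIdx]
      rintro ⟨k, -, h, -⟩
      omega
    · exact nodup_colIdx p (x + 1) cs

/-- conditions making a list of columns a channel routing problem -/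
structure ValidCols (W : ℕ) (cs : List Column) : Prop where
  ne : cs ≠ []
  lt : ∀ a b, some (a, b) ∈ cs → a < W ∧ b < W
  top : ∀ e, e < W → ∃ b, some (e, b) ∈ cs
  bot : ∀ e, e < W → ∃ a, some (a, e) ∈ cs

theorem hasTop_iff {e : ℕ} {c : Column} : hasTop e c = true ↔ ∃ b, c = some (e, b) := by
  rcases c with _ | ⟨a, b⟩
  · simp [hasTop]
  · simp [hasTop]

theorem hasBot_iff {e : ℕ} {c : Column} : hasBot e c = true ↔ ∃ a, c = some (a, e) := by
  rcases c with _ | ⟨a, b⟩
  · simp [hasBot]
  · simp [hasBot]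

theorem nodup_aux (W : ℕ) (cs : List Column) (P : ℕ → Column → Bool)
    (hP : ∀ e e' c, P e c = true → P e' c = true → e = e')
    (hP' : ∀ e c, P e c = true → c.isNone = false) :
    ((List.range W).flatMap (fun e => colIdx (P e) 1 cs) ++ colIdx Option.isNone 1 cs).Nodup := by
  rw [List.nodup_append]
  refine ⟨?_, nodup_colIdx _ _ _, ?_⟩
  · rw [List.nodup_flatMap]
    refine ⟨fun e _ => nodup_colIdx _ _ _, ?_⟩
    apply List.Pairwise.imp_of_mem (R := fun a b => a ≠ b) ?_ List.nodup_range
    intro a b _ _ hab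
    rw [Function.onFun, List.disjoint_left]
    intro t h1 h2
    rw [mem_colIdx] at h1 h2
    obtain ⟨k, hk, h3, h4⟩ := h1
    obtain ⟨k', hk', h5, h6⟩ := h2
    have : k = k' := by omega
    subst this
    exact hab (hP _ _ _ h4 h6)
  · intro t h1 t' h2 h
    subst h
    rw [List.mem_flatMap] at h1
    obtain ⟨e, -, h1⟩ := h1
    rw [mem_colIdx] at h1 h2
    obtain ⟨k, hk, h3, h4⟩ := h1
    obtain ⟨k', hk', h5, h6⟩ := h2
    have : k = k' := by omega
    subst this
    rw [hP' _ _ h4] at h6
    cases h6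

theorem flatMap_upper (W : ℕ) (cs : List Column) : (netsOf W cs).flatMap Net.upper =
    (List.range W).flatMap (fun e => colIdx (hasTop e) 1 cs) ++ colIdx Option.isNone 1 cs := by
  unfold netsOf
  rw [List.flatMap_append, List.flatMap_map, List.flatMap_map]
  congr 1
  exact List.flatMap_singleton' _

theorem flatMap_lower (W : ℕ) (cs : List Column) : (netsOf W cs).flatMap Net.lower =
    (List.range W).flatMap (fun e => colIdx (hasBot e) 1 cs) ++ colIdx Option.isNone 1 cs := by
  unfold netsOf
  rw [List.flatMap_append, List.flatMap_map, List.flatMap_map]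
  congr 1
  exact List.flatMap_singleton' _

theorem mem_netsOf {W : ℕ} {cs : List Column} {M : Net} (h : M ∈ netsOf W cs) :
    (∃ e, e < W ∧ M = ⟨colIdx (hasTop e) 1 cs, colIdx (hasBot e) 1 cs⟩) ∨
      ∃ x, x ∈ colIdx Option.isNone 1 cs ∧ M = ⟨[x], [x]⟩ := by
  unfold netsOf at h
  rw [List.mem_append, List.mem_map, List.mem_map] at h
  rcases h with ⟨e, h1, h2⟩ | ⟨x, h1, h2⟩
  · exact Or.inl ⟨e, List.mem_range.1 h1, h2.symm⟩
  · exact Or.inr ⟨x, h1, h2.symm⟩

theorem bound_colIdx {p : Column → Bool} {cs : List Column} {t : ℕ}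
    (h : t ∈ colIdx p 1 cs) : 1 ≤ t ∧ t ≤ cs.length := by
  rw [mem_colIdx] at h
  obtain ⟨k, hk, h1, -⟩ := h
  omega

/-- the channel routing problem of a list of columns -/
def mkCRP (W : ℕ) (cs : List Column) (h : ValidCols W cs) : CRP where
  m := cs.length
  nets := netsOf W cs
  m_pos := by
    have := List.length_pos_iff.2 h.ne
    omega
  upper_ne := by
    intro M hM
    rcases mem_netsOf hM with ⟨e, he, rfl⟩ | ⟨x, hx, rfl⟩
    · obtain ⟨b, hb⟩ := h.top e he
      obtain ⟨k, hk, h1⟩ := List.getElem_of_mem hb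
      apply List.ne_nil_of_mem (a := 1 + k)
      rw [mem_colIdx]
      exact ⟨k, hk, rfl, by rw [h1, hasTop_iff]; exact ⟨b, rfl⟩⟩
    · simp
  lower_ne := by
    intro M hM
    rcases mem_netsOf hM with ⟨e, he, rfl⟩ | ⟨x, hx, rfl⟩
    · obtain ⟨b, hb⟩ := h.bot e he
      obtain ⟨k, hk, h1⟩ := List.getElem_of_mem hb
      apply List.ne_nil_of_mem (a := 1 + k)
      rw [mem_colIdx]
      exact ⟨k, hk, rfl, by rw [h1, hasBot_iff]; exact ⟨b, rfl⟩⟩
    · simp
  upper_mem := by
    intro M hM t ht
    rcases mem_netsOf hM with ⟨e, he, rfl⟩ | ⟨x, hx, rfl⟩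
    · exact bound_colIdx ht
    · simp only [List.mem_singleton] at ht
      subst ht
      exact bound_colIdx hx
  lower_mem := by
    intro M hM t ht
    rcases mem_netsOf hM with ⟨e, he, rfl⟩ | ⟨x, hx, rfl⟩
    · exact bound_colIdx ht
    · simp only [List.mem_singleton] at ht
      subst ht
      exact bound_colIdx hx
  upper_nodup := by
    rw [flatMap_upper]
    apply nodup_aux
    · intro e e' c h1 h2
      rw [hasTop_iff] at h1 h2
      obtain ⟨b, rfl⟩ := h1
      obtain ⟨b', h2⟩ := h2
      simp only [Option.some.injEq, Prod.mk.injEq] at h2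
      exact h2.1
    · intro e c h1
      rw [hasTop_iff] at h1
      obtain ⟨b, rfl⟩ := h1
      rfl
  lower_nodup := by
    rw [flatMap_lower]
    apply nodup_aux
    · intro e e' c h1 h2
      rw [hasBot_iff] at h1 h2
      obtain ⟨b, rfl⟩ := h1
      obtain ⟨b', h2⟩ := h2
      simp only [Option.some.injEq, Prod.mk.injEq] at h2
      exact h2.2
    · intro e c h1
      rw [hasBot_iff] at h1
      obtain ⟨b, rfl⟩ := h1
      rfl

theorem mkCRP_dense (W : ℕ) (cs : List Column) (h : ValidCols W cs) : (mkCRP W cs h).Dense := by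
  intro x h1 h2
  have hk : x - 1 < cs.length := by
    have : x ≤ cs.length := h2
    omega
  rcases hc : cs[x - 1] with _ | ⟨a, b⟩
  · have hx : x ∈ colIdx Option.isNone 1 cs := by
      rw [mem_colIdx]
      exact ⟨x - 1, hk, by omega, by rw [hc]; rfl⟩
    have hM : (⟨[x], [x]⟩ : Net) ∈ netsOf W cs := by
      unfold netsOf
      rw [List.mem_append, List.mem_map, List.mem_map]
      exact Or.inr ⟨x, hx, rfl⟩
    exact ⟨⟨_, hM, by simp⟩, ⟨_, hM, by simp⟩⟩
  · have hmem : some (a, b) ∈ cs := by rw [← hc]; exact List.getElem_mem hk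
    obtain ⟨ha, hb⟩ := h.lt a b hmem
    have hM : ∀ e, e < W → (⟨colIdx (hasTop e) 1 cs, colIdx (hasBot e) 1 cs⟩ : Net) ∈
        netsOf W cs := by
      intro e he
      unfold netsOf
      rw [List.mem_append, List.mem_map, List.mem_map]
      exact Or.inl ⟨e, List.mem_range.2 he, rfl⟩
    refine ⟨⟨_, hM a ha, ?_⟩, ⟨_, hM b hb, ?_⟩⟩
    · rw [mem_colIdx]
      exact ⟨x - 1, hk, by omega, by rw [hc, hasTop_iff]; exact ⟨b, rfl⟩⟩
    · rw [mem_colIdx]
      exact ⟨x - 1, hk, by omega, by rw [hc, hasBot_iff]; exact ⟨a, rfl⟩⟩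

/-- number of nets -/
theorem length_netsOf (W : ℕ) (cs : List Column) :
    (netsOf W cs).length = W + (colIdx Option.isNone 1 cs).length := by
  simp [netsOf]

theorem netsOf_get_lt {W : ℕ} {cs : List Column} {i : ℕ} (h : i < (netsOf W cs).length)
    (hi : i < W) : (netsOf W cs)[i] = ⟨colIdx (hasTop i) 1 cs, colIdx (hasBot i) 1 cs⟩ := by
  unfold netsOf
  rw [List.getElem_append_left (by simpa using hi)]
  simp

theorem netsOf_get_ge {W : ℕ} {cs : List Column} {i : ℕ} (h : i < (netsOf W cs).length)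
    (hi : W ≤ i) (h' : i - W < (colIdx Option.isNone 1 cs).length) :
    (netsOf W cs)[i] = ⟨[(colIdx Option.isNone 1 cs)[i - W]],
      [(colIdx Option.isNone 1 cs)[i - W]]⟩ := by
  unfold netsOf
  rw [List.getElem_append_right (by simpa using hi)]
  simp

/-- owner name of the net with number `i` -/
def name (N : ℕ) (cs : List Column) (i : ℕ) : Fin (N + 2) ⊕ ℤ :=
  if h : i < N + 2 then .inl ⟨i, h⟩
  else .inr (((colIdx Option.isNone 1 cs)[i - (N + 2)]?).getD 0 : ℕ)

theorem name_lt {N : ℕ} {cs : List Column} {i : ℕ} (h : i < N + 2) :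
    name N cs i = .inl ⟨i, h⟩ := by
  unfold name; rw [dif_pos h]

theorem name_ge {N : ℕ} {cs : List Column} {i : ℕ} (h : N + 2 ≤ i)
    (h' : i - (N + 2) < (colIdx Option.isNone 1 cs).length) :
    name N cs i = .inr (((colIdx Option.isNone 1 cs)[i - (N + 2)] : ℕ) : ℤ) := by
  unfold name
  rw [dif_neg (by omega), List.getElem?_eq_getElem h', Option.getD_some]

theorem name_inj {N : ℕ} {cs : List Column} {i j : ℕ} (hi : i < (netsOf (N + 2) cs).length)
    (hj : j < (netsOf (N + 2) cs).length) (h : name N cs i = name N cs j) : i = j := by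
  rw [length_netsOf] at hi hj
  by_cases h1 : i < N + 2
  · by_cases h2 : j < N + 2
    · rw [name_lt h1, name_lt h2] at h
      simpa using h
    · rw [name_lt h1, name_ge (by omega) (by omega)] at h
      cases h
  · by_cases h2 : j < N + 2
    · rw [name_lt h2, name_ge (by omega) (by omega)] at h
      cases h
    · rw [name_ge (by omega) (by omega), name_ge (by omega) (by omega)] at h
      have h3 : (colIdx Option.isNone 1 cs)[i - (N + 2)]'(by omega) =
          (colIdx Option.isNone 1 cs)[j - (N + 2)]'(by omega) := by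
        simpa using h
      have := (List.Nodup.getElem_inj_iff (nodup_colIdx Option.isNone 1 cs)).1 h3
      omega

/-- columns as a function of the position -/
def colFn (N : ℕ) (cs : List Column) (x : ℤ) : Option (Fin (N + 2) × Fin (N + 2)) :=
  (cs[(x - 1).toNat]?).bind (conv N)

theorem colFn_eq {N : ℕ} {cs : List Column} {k : ℕ} (h : k < cs.length) :
    colFn N cs (1 + k) = conv N cs[k] := by
  unfold colFn
  have : (1 + (k : ℤ) - 1).toNat = k := by omega
  rw [this, List.getElem?_eq_getElem h]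
  rfl

end Pool.Agent.Helper64_Chan
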