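import Pool.Agent.Helper64_Chan.Instance

/-!
# Connected sets of grid points
-/

namespace Pool.Agent.Helper64_Chan

/-- adjacency of raw grid points -/
def RA (u v : ℕ × ℕ × ℕ) : Prop :=
  Nat.dist u.1 v.1 + Nat.dist u.2.1 v.2.1 + Nat.dist u.2.2 v.2.2 = 1

theorem RA.symm {u v : ℕ × ℕ × ℕ} (h : RA u v) : RA v u := by
  unfold RA at *
  rw [Nat.dist_comm v.1, Nat.dist_comm v.2.1, Nat.dist_comm v.2.2]
  exact h

/-- linked inside a set of raw grid points -/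
def Lk (S : Set (ℕ × ℕ × ℕ)) : ℕ × ℕ × ℕ → ℕ × ℕ × ℕ → Prop :=
  Relation.ReflTransGen (fun a b => RA a b ∧ a ∈ S ∧ b ∈ S)

variable {S : Set (ℕ × ℕ × ℕ)}

theorem Lk.refl (a : ℕ × ℕ × ℕ) : Lk S a a := Relation.ReflTransGen.refl

theorem Lk.symm {a b : ℕ × ℕ × ℕ} (h : Lk S a b) : Lk S b a := by
  unfold Lk at *
  induction h with
  | refl => exact Relation.ReflTransGen.refl
  | tail _ h2 ih => exact Relation.ReflTransGen.head ⟨h2.1.symm, h2.2.2, h2.2.1⟩ ih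

theorem Lk.trans {a b c : ℕ × ℕ × ℕ} (h : Lk S a b) (h' : Lk S b c) : Lk S a c :=
  Relation.ReflTransGen.trans h h'

theorem Lk.step {a b : ℕ × ℕ × ℕ} (h : RA a b) (ha : a ∈ S) (hb : b ∈ S) : Lk S a b :=
  Relation.ReflTransGen.single ⟨h, ha, hb⟩

/-- vertical segments -/
theorem Lk.vert (x l y1 : ℕ) : ∀ y2 : ℕ, y1 ≤ y2 →
    (∀ y, y1 ≤ y → y ≤ y2 → (x, y, l) ∈ S) → Lk S (x, y1, l) (x, y2, l)
  | 0, h, _ => by
    have : y1 = 0 := by omega
    subst this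
    exact Lk.refl _
  | y2 + 1, h, hS => by
    rcases Nat.lt_or_ge y2 y1 with h1 | h1
    · have : y1 = y2 + 1 := by omega
      rw [this]
      exact Lk.refl _
    · refine (Lk.vert x l y1 y2 h1 (fun y h2 h3 => hS y h2 (by omega))).trans ?_
      refine Lk.step ?_ (hS y2 h1 (by omega)) (hS (y2 + 1) h le_rfl)
      unfold RA Nat.dist
      dsimp only
      omega

/-- horizontal segments -/
theorem Lk.horiz (y l x1 : ℕ) : ∀ x2 : ℕ, x1 ≤ x2 →
    (∀ x, x1 ≤ x → x ≤ x2 → (x, y, l) ∈ S) → Lk S (x1, y, l) (x2, y, l)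
  | 0, h, _ => by
    have : x1 = 0 := by omega
    subst this
    exact Lk.refl _
  | x2 + 1, h, hS => by
    rcases Nat.lt_or_ge x2 x1 with h1 | h1
    · have : x1 = x2 + 1 := by omega
      rw [this]
      exact Lk.refl _
    · refine (Lk.horiz y l x1 x2 h1 (fun x h2 h3 => hS x h2 (by omega))).trans ?_
      refine Lk.step ?_ (hS x2 h1 (by omega)) (hS (x2 + 1) h le_rfl)
      unfold RA Nat.dist
      dsimp only
      omega

/-- change of the layer -/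
theorem Lk.layer {x y : ℕ} (h0 : (x, y, 0) ∈ S) (h1 : (x, y, 1) ∈ S) :
    Lk S (x, y, 0) (x, y, 1) := by
  refine Lk.step ?_ h0 h1
  unfold RA Nat.dist
  dsimp only
  omega

/-- the induced subgraph on a set of grid points -/
def sub (m w : ℕ) (S : Set (ℕ × ℕ × ℕ)) : (gridGraph m w).Subgraph :=
  (⊤ : (gridGraph m w).Subgraph).induce {v | v.val ∈ S}

theorem sub_adj {m w : ℕ} {a b : GridVertex m w} (h : (gridGraph m w).Adj a b)
    (ha : a.val ∈ S) (hb : b.val ∈ S) : (sub m w S).Adj a b := by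
  unfold sub
  rw [SimpleGraph.Subgraph.induce_adj]
  exact ⟨ha, hb, h⟩

theorem connected_of {m w : ℕ}
    (hS : ∀ v ∈ S, (1 ≤ v.1 ∧ v.1 ≤ m) ∧ v.2.1 ≤ w + 1 ∧ v.2.2 ≤ 1) {v0 : ℕ × ℕ × ℕ}
    (h0 : v0 ∈ S) (h : ∀ v ∈ S, Lk S v v0) : (sub m w S).Connected := by
  have key : ∀ a b : ℕ × ℕ × ℕ, Lk S a b → ∀ (ha : a ∈ S) (hb : b ∈ S),
      (sub m w S).coe.Reachable ⟨⟨a, hS a ha⟩, ha⟩ ⟨⟨b, hS b hb⟩, hb⟩ := by
    intro a b hab ha
    unfold Lk at hab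
    induction hab with
    | refl => intro hb; exact SimpleGraph.Reachable.refl _
    | tail _ h2 ih =>
      intro hb
      refine (ih h2.2.1).trans (SimpleGraph.Adj.reachable ?_)
      rw [SimpleGraph.Subgraph.coe_adj]
      exact sub_adj h2.1 h2.2.1 hb
  rw [SimpleGraph.Subgraph.connected_iff]
  refine ⟨⟨?_⟩, ⟨⟨v0, hS v0 h0⟩, h0⟩⟩
  rintro ⟨a, ha⟩ ⟨b, hb⟩
  exact (key _ _ (h a.val ha) ha h0).trans (key _ _ (h b.val hb) hb h0).symm

theorem sub_disjoint {m w : ℕ} {T : Set (ℕ × ℕ × ℕ)} (h : ∀ v, v ∈ S → v ∈ T → False) :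
    Disjoint (sub m w S).verts (sub m w T).verts := by
  rw [Set.disjoint_left]
  intro v h1 h2
  exact h v.val h1 h2

end Pool.Agent.Helper64_Chan
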