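import Pool.Agent.Helper64_Chan.Shapes

/-!
# From linear orders to layouts
-/

namespace Pool.Agent.Helper64_Chan

/-- shapes of a block -/
def sblk (L : ℕ) : List Shape := List.replicate L .idn

/-- shapes of the columns `tall N L` -/
def stall (N L : ℕ) : List Shape :=
  (List.range (N + 1)).flatMap (fun e => .one e (N + 1) :: sblk L) ++
    (List.range N).flatMap (fun e => .one N e :: sblk L)

/-- shapes of the columns of a gadget -/
def sg (N L : ℕ) (pos : ℕ → ℕ) : Gadget → List Shape
  | .test a b => .one a b :: sblk L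
  | .up a b c => if pos b < pos a then .one a b :: .one N c :: sblk L
      else .upL a b :: .upR a c :: sblk L
  | .down a b c => if pos a < pos b then .one b a :: .one c (N + 1) :: sblk L
      else .dnL b a :: .dnR c a :: sblk L

/-- shapes of the columns at the ends -/
def sside (N : ℕ) : List Shape := (List.range (N + 2)).map (fun e => .one e e)

/-- all shapes -/
def shapes (N L : ℕ) (pos : ℕ → ℕ) (gs : List Gadget) : List Shape :=
  sside N ++ (sblk L ++ (gs.flatMap (fun g => stall N L ++ sg N L pos g) ++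
    (stall N L ++ sside N)))

theorem map_sblk (N L : ℕ) : (sblk L).map (Shape.col N) = blk L := by
  simp [sblk, blk, Shape.col]

theorem map_stall (N L : ℕ) : (stall N L).map (Shape.col N) = tall N L := by
  unfold stall tall
  rw [List.map_append, List.map_flatMap, List.map_flatMap]
  simp only [List.map_cons, map_sblk, Shape.col]

theorem map_sg (N L : ℕ) (pos : ℕ → ℕ) (g : Gadget) :
    (sg N L pos g).map (Shape.col N) = gcols N L g := by
  cases g with
  | test a b => simp [sg, gcols, Shape.col, map_sblk]
  | up a b c =>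
    simp only [sg, gcols]
    split_ifs <;> simp [Shape.col, map_sblk]
  | down a b c =>
    simp only [sg, gcols]
    split_ifs <;> simp [Shape.col, map_sblk]

theorem map_sside (N : ℕ) : (sside N).map (Shape.col N) = side N := by
  simp [sside, side, Shape.col]

theorem map_shapes (N L : ℕ) (pos : ℕ → ℕ) (gs : List Gadget) :
    (shapes N L pos gs).map (Shape.col N) = cols N L gs := by
  unfold shapes cols
  simp only [List.map_append, List.map_flatMap, map_sblk, map_stall, map_sg, map_sside]

/-- condition on consecutive shapes -/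
def LnkHd : Shape → Option Shape → Prop
  | .upL a _, o => ∃ c, o = some (.upR a c)
  | .dnL _ a, o => ∃ c, o = some (.dnR c a)
  | _, _ => True

theorem LnkHd.none {s : Shape} (h : LnkHd s none) (o : Option Shape) : LnkHd s o := by
  cases s <;> simp_all [LnkHd]

/-- consecutive shapes fit -/
def Lnk : List Shape → Prop
  | [] => True
  | s :: ss => LnkHd s ss.head? ∧ Lnk ss

theorem Lnk.append : ∀ {xs ys : List Shape}, Lnk xs → Lnk ys → Lnk (xs ++ ys)
  | [], _, _, h => h
  | [_], _, h, h' => ⟨h.1.none _, h'⟩
  | _ :: t :: xs, _, h, h' => ⟨h.1, Lnk.append (xs := t :: xs) h.2 h'⟩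

theorem Lnk.flatMap {α : Type} (f : α → List Shape) : ∀ xs : List α, (∀ x ∈ xs, Lnk (f x)) →
    Lnk (xs.flatMap f)
  | [], _ => trivial
  | x :: xs, h => by
    rw [List.flatMap_cons]
    exact (h x (List.mem_cons_self ..)).append
      (Lnk.flatMap f xs (fun y hy => h y (List.mem_cons_of_mem _ hy)))

theorem lnk_sblk : ∀ L : ℕ, Lnk (sblk L)
  | 0 => trivial
  | L + 1 => ⟨trivial, lnk_sblk L⟩

theorem lnk_stall (N L : ℕ) : Lnk (stall N L) := by
  unfold stall
  refine Lnk.append (Lnk.flatMap _ _ ?_) (Lnk.flatMap _ _ ?_)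
  · intro e _; exact ⟨trivial, lnk_sblk L⟩
  · intro e _; exact ⟨trivial, lnk_sblk L⟩

theorem lnk_sg (N L : ℕ) (pos : ℕ → ℕ) (g : Gadget) : Lnk (sg N L pos g) := by
  cases g with
  | test a b => exact ⟨trivial, lnk_sblk L⟩
  | up a b c =>
    simp only [sg]
    split_ifs
    · exact ⟨trivial, trivial, lnk_sblk L⟩
    · exact ⟨⟨c, rfl⟩, trivial, lnk_sblk L⟩
  | down a b c =>
    simp only [sg]
    split_ifs
    · exact ⟨trivial, trivial, lnk_sblk L⟩
    · exact ⟨⟨c, rfl⟩, trivial, lnk_sblk L⟩

theorem lnk_sside (N : ℕ) : Lnk (sside N) := by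
  have key : ∀ xs : List ℕ, Lnk (xs.map (fun e => Shape.one e e)) := by
    intro xs
    induction xs with
    | nil => trivial
    | cons x xs ih => exact ⟨trivial, ih⟩
  exact key _

theorem lnk_shapes (N L : ℕ) (pos : ℕ → ℕ) (gs : List Gadget) : Lnk (shapes N L pos gs) := by
  unfold shapes
  refine (lnk_sside N).append ((lnk_sblk L).append (Lnk.append (Lnk.flatMap _ _ ?_)
    ((lnk_stall N L).append (lnk_sside N))))
  intro g _
  exact (lnk_stall N L).append (lnk_sg N L pos g)

theorem Lnk.get : ∀ {ss : List Shape}, Lnk ss → ∀ (k : ℕ) (h : k < ss.length),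
    LnkHd ss[k] ss[k + 1]?
  | [], _, k, h => by simp at h
  | s :: ss, h, 0, _ => by
    have := h.1
    rw [List.head?_eq_getElem?] at this
    simpa using this
  | s :: ss, h, k + 1, hk => by
    have := Lnk.get h.2 k (by simpa using hk)
    simpa using this

theorem shp_eq {ss : List Shape} {k : ℕ} (h : k < ss.length) : shp ss (1 + k) = ss[k] := by
  unfold shp
  have : 1 + k - 1 = k := by omega
  rw [this, List.getElem?_eq_getElem h]
  rfl

theorem Lnk.fits {ss : List Shape} (h : Lnk ss) : Fits ss := by
  intro x h1 h2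
  obtain ⟨k, rfl⟩ : ∃ k, x = 1 + k := ⟨x - 1, by omega⟩
  have hk : k < ss.length := by omega
  have h3 := h.get k hk
  rw [shp_eq hk]
  constructor
  · intro a b h4
    rw [h4] at h3
    obtain ⟨c, h5⟩ := h3
    have h6 : k + 1 < ss.length := by
      by_contra h7
      rw [List.getElem?_eq_none (by omega)] at h5
      cases h5
    refine ⟨by omega, c, ?_⟩
    rw [add_assoc, shp_eq h6]
    rw [List.getElem?_eq_getElem h6] at h5
    exact Option.some.inj h5
  · intro b a h4
    rw [h4] at h3
    obtain ⟨c, h5⟩ := h3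
    have h6 : k + 1 < ss.length := by
      by_contra h7
      rw [List.getElem?_eq_none (by omega)] at h5
      cases h5
    refine ⟨by omega, c, ?_⟩
    rw [add_assoc, shp_eq h6]
    rw [List.getElem?_eq_getElem h6] at h5
    exact Option.some.inj h5

theorem ok_shapes {N L : ℕ} {pos : ℕ → ℕ} (hp : Pos N pos) {gs : List Gadget}
    (hwf : ∀ g ∈ gs, g.Wf N) (hsat : ∀ g ∈ gs, g.Sat (fun e => (pos e : ℤ))) :
    ∀ s ∈ shapes N L pos gs, s.Ok N pos := by
  have hblk : ∀ s ∈ sblk L, s.Ok N pos := by
    intro s hs
    unfold sblk at hs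
    rw [List.mem_replicate] at hs
    rw [hs.2]
    trivial
  have hside : ∀ s ∈ sside N, s.Ok N pos := by
    intro s hs
    unfold sside at hs
    rw [List.mem_map] at hs
    obtain ⟨e, he, rfl⟩ := hs
    rw [List.mem_range] at he
    exact ⟨he, he, le_rfl⟩
  have hbot : ∀ e, e < N + 2 → pos (N + 1) ≤ pos e := by
    intro e he
    rw [hp.bot]
    exact (hp.bd he).1
  have htop : ∀ e, e < N + 2 → pos e ≤ pos N := by
    intro e he
    rw [hp.top]
    exact (hp.bd he).2
  have htall : ∀ s ∈ stall N L, s.Ok N pos := by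
    intro s hs
    unfold stall at hs
    rw [List.mem_append, List.mem_flatMap, List.mem_flatMap] at hs
    rcases hs with ⟨e, he, hs⟩ | ⟨e, he, hs⟩
    · rw [List.mem_range] at he
      rcases List.mem_cons.1 hs with rfl | hs
      · exact ⟨by omega, by omega, hbot e (by omega)⟩
      · exact hblk s hs
    · rw [List.mem_range] at he
      rcases List.mem_cons.1 hs with rfl | hs
      · exact ⟨by omega, by omega, htop e (by omega)⟩
      · exact hblk s hs
  intro s hs
  unfold shapes at hs
  rw [List.mem_append, List.mem_append, List.mem_append, List.mem_append, List.mem_flatMap] at hs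
  rcases hs with hs | hs | ⟨g, hg, hs⟩ | hs | hs
  · exact hside s hs
  · exact hblk s hs
  · rw [List.mem_append] at hs
    rcases hs with hs | hs
    · exact htall s hs
    · have h1 := hwf g hg
      have h2 := hsat g hg
      cases g with
      | test a b =>
        obtain ⟨g1, g2, g3⟩ := h1
        simp only [Gadget.Sat, Nat.cast_lt] at h2
        unfold sg at hs
        rcases List.mem_cons.1 hs with rfl | hs
        · exact ⟨by omega, by omega, h2.le⟩
        · exact hblk s hs
      | up a b c =>
        obtain ⟨g1, g2, g3, g4, g5, g6⟩ := h1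
        simp only [Gadget.Sat, Nat.cast_lt] at h2
        simp only [sg] at hs
        split_ifs at hs with h3
        · rcases List.mem_cons.1 hs with rfl | hs
          · exact ⟨by omega, by omega, h3.le⟩
          · rcases List.mem_cons.1 hs with rfl | hs
            · exact ⟨by omega, by omega, htop c (by omega)⟩
            · exact hblk s hs
        · rcases List.mem_cons.1 hs with rfl | hs
          · exact ⟨g1, g2, g4⟩
          · rcases List.mem_cons.1 hs with rfl | hs
            · exact ⟨g1, g3, by omega⟩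
            · exact hblk s hs
      | down a b c =>
        obtain ⟨g1, g2, g3, g4, g5, g6⟩ := h1
        simp only [Gadget.Sat, Nat.cast_lt] at h2
        simp only [sg] at hs
        split_ifs at hs with h3
        · rcases List.mem_cons.1 hs with rfl | hs
          · exact ⟨by omega, by omega, h3.le⟩
          · rcases List.mem_cons.1 hs with rfl | hs
            · exact ⟨by omega, by omega, hbot c (by omega)⟩
            · exact hblk s hs
        · rcases List.mem_cons.1 hs with rfl | hs
          · exact ⟨g1, g2, g4⟩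
          · rcases List.mem_cons.1 hs with rfl | hs
            · exact ⟨g1, g3, by omega⟩
            · exact hblk s hs
  · exact htall s hs
  · exact hside s hs

theorem ok_shp {N : ℕ} {pos : ℕ → ℕ} {ss : List Shape} (h : ∀ s ∈ ss, s.Ok N pos) (x : ℕ) :
    (shp ss x).Ok N pos := by
  unfold shp
  rcases hx : ss[x - 1]? with _ | s
  · trivial
  · exact h s (List.mem_of_getElem? hx)

open Classical in
/-- the positions given by a rank function -/
noncomputable def posOf (N : ℕ) (r : ℕ → ℤ) (e : ℕ) : ℕ :=
  if e = N then N + 2 else if e = N + 1 then 1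
    else 2 + ((Finset.range N).filter (fun e' => r e' < r e)).card

theorem posOf_lt {N : ℕ} {r : ℕ → ℤ} {a b : ℕ} (ha : a < N) (hb : b < N) (h : r a < r b) :
    posOf N r a < posOf N r b := by
  classical
  unfold posOf
  rw [if_neg (by omega), if_neg (by omega), if_neg (by omega), if_neg (by omega)]
  have : ((Finset.range N).filter (fun e' => r e' < r a)).card <
      ((Finset.range N).filter (fun e' => r e' < r b)).card := by
    apply Finset.card_lt_card
    rw [Finset.ssubset_iff_of_subset]
    · refine ⟨a, ?_, ?_⟩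
      · rw [Finset.mem_filter, Finset.mem_range]
        exact ⟨ha, h⟩
      · rw [Finset.mem_filter]
        rintro ⟨-, h'⟩
        exact lt_irrefl _ h'
    · intro x hx
      rw [Finset.mem_filter] at hx ⊢
      exact ⟨hx.1, hx.2.trans h⟩
  omega

theorem posOf_pos {N : ℕ} {r : ℕ → ℤ} (hr : ∀ a b, a < N → b < N → r a = r b → a = b) :
    Pos N (posOf N r) := by
  classical
  have htop : posOf N r N = N + 2 := by unfold posOf; rw [if_pos rfl]
  have hbot : posOf N r (N + 1) = 1 := by
    unfold posOf; rw [if_neg (by omega), if_pos rfl]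
  have hmid : ∀ e, e < N → 2 ≤ posOf N r e ∧ posOf N r e ≤ N + 1 := by
    intro e he
    unfold posOf
    rw [if_neg (by omega), if_neg (by omega)]
    have h1 : ((Finset.range N).filter (fun e' => r e' < r e)).card < (Finset.range N).card := by
      apply Finset.card_lt_card
      rw [Finset.ssubset_iff_of_subset (Finset.filter_subset _ _)]
      refine ⟨e, Finset.mem_range.2 he, ?_⟩
      rw [Finset.mem_filter]
      rintro ⟨-, h'⟩
      exact lt_irrefl _ h'
    rw [Finset.card_range] at h1
    omega
  refine ⟨htop, hbot, hmid, ?_⟩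
  intro a b ha hb hne
  rcases (show a < N ∨ a = N ∨ a = N + 1 by omega) with h1 | h1 | h1 <;>
    rcases (show b < N ∨ b = N ∨ b = N + 1 by omega) with h2 | h2 | h2
  · rcases lt_trichotomy (r a) (r b) with h3 | h3 | h3
    · exact (posOf_lt h1 h2 h3).ne
    · exact absurd (hr a b h1 h2 h3) hne
    · exact (posOf_lt h2 h1 h3).ne'
  · have := hmid a h1; rw [h2, htop]; omega
  · have := hmid a h1; rw [h2, hbot]; omega
  · have := hmid b h2; rw [h1, htop]; omega
  · omega
  · rw [h1, h2, htop, hbot]; omega
  · have := hmid b h2; rw [h1, hbot]; omega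
  · rw [h1, h2, htop, hbot]; omega
  · omega

theorem posOf_sat {N : ℕ} {r : ℕ → ℤ} {g : Gadget} (hw : g.Wf N) (hs : g.Sat r) :
    g.Sat (fun e => (posOf N r e : ℤ)) := by
  cases g with
  | test a b =>
    obtain ⟨g1, g2, g3⟩ := hw
    simp only [Gadget.Sat, Nat.cast_lt] at hs ⊢
    exact posOf_lt g2 g1 hs
  | up a b c =>
    obtain ⟨g1, g2, g3, -⟩ := hw
    simp only [Gadget.Sat, Nat.cast_lt] at hs ⊢
    exact hs.imp (posOf_lt g2 g1) (posOf_lt g3 g1)
  | down a b c =>
    obtain ⟨g1, g2, g3, -⟩ := hw
    simp only [Gadget.Sat, Nat.cast_lt] at hs ⊢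
    exact hs.imp (posOf_lt g1 g2) (posOf_lt g1 g3)

/-- the points of the net with number `i` -/
def partSet (N : ℕ) (pos : ℕ → ℕ) (ss : List Shape) (cs : List Column) (i : ℕ) :
    Set (ℕ × ℕ × ℕ) :=
  if i < N + 2 then elSet N pos ss i
  else idSet N (((colIdx Option.isNone 1 cs)[i - (N + 2)]?).getD 0)

section

variable {N : ℕ} {pos : ℕ → ℕ} {ss : List Shape} {cs : List Column}

theorem shp_col (hcs : ss.map (Shape.col N) = cs) {k : ℕ} (hk : k < cs.length) :
    (shp ss (1 + k)).col N = cs[k] := by
  subst hcs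
  rw [List.length_map] at hk
  rw [shp_eq hk, List.getElem_map]

theorem Shape.eq_idn {s : Shape} (h : s.col N = none) : s = .idn := by
  cases s <;> simp_all [Shape.col]

/-- the index of a column with its own net -/
theorem idx_spec {i : ℕ} (h : N + 2 ≤ i) (hi : i < (netsOf (N + 2) cs).length) :
    ∃ (k : ℕ) (hk : k < cs.length), cs[k] = none ∧
      (netsOf (N + 2) cs)[i] = ⟨[1 + k], [1 + k]⟩ ∧
      ∀ pos ss, partSet N pos ss cs i = idSet N (1 + k) := by
  have hi' := hi
  rw [length_netsOf] at hi'
  have h1 : i - (N + 2) < (colIdx Option.isNone 1 cs).length := by omega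
  have h2 := List.getElem_mem h1
  rw [mem_colIdx] at h2
  obtain ⟨k, hk, h3, h4⟩ := h2
  refine ⟨k, hk, ?_, ?_, ?_⟩
  · rcases hc : cs[k] with _ | p
    · rfl
    · rw [hc] at h4; cases h4
  · rw [netsOf_get_ge hi h h1, h3]
  · intro pos ss
    unfold partSet
    rw [if_neg (by omega), List.getElem?_eq_getElem h1, Option.getD_some, h3]

theorem idx_inj {i j : ℕ} (h : N + 2 ≤ i) (hi : i < (netsOf (N + 2) cs).length)
    (h' : N + 2 ≤ j) (hj : j < (netsOf (N + 2) cs).length) {k : ℕ}
    (e : (netsOf (N + 2) cs)[i] = ⟨[1 + k], [1 + k]⟩)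
    (e' : (netsOf (N + 2) cs)[j] = ⟨[1 + k], [1 + k]⟩) : i = j := by
  have hi' := hi
  have hj' := hj
  rw [length_netsOf] at hi' hj'
  rw [netsOf_get_ge hi h (by omega)] at e
  rw [netsOf_get_ge hj h' (by omega)] at e'
  have e1 : (colIdx Option.isNone 1 cs)[i - (N + 2)]'(by omega) = 1 + k := by
    have := congrArg Net.upper e
    simpa using this
  have e2 : (colIdx Option.isNone 1 cs)[j - (N + 2)]'(by omega) = 1 + k := by
    have := congrArg Net.upper e'
    simpa using this
  have h3 := (List.Nodup.getElem_inj_iff (nodup_colIdx Option.isNone 1 cs)).1 (e1.trans e2.symm)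
  omega

/-- the layout given by shapes -/
noncomputable def layoutOf (hv : ValidCols (N + 2) cs) (hp : Pos N pos)
    (hcs : ss.map (Shape.col N) = cs) (hok : ∀ x, (shp ss x).Ok N pos) (hf : Fits ss) :
    Layout (mkCRP (N + 2) cs hv) (N + 2) where
  part i := sub cs.length (N + 2) (partSet N pos ss cs i.val)
  connected := by
    intro i
    have hlen : ss.length = cs.length := by rw [← hcs, List.length_map]
    have hpos : 1 ≤ cs.length := by
      have := List.length_pos_iff.2 hv.ne
      omega
    by_cases hi : i.val < N + 2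
    · unfold partSet
      rw [if_pos hi]
      have h1 := elSet_box (N := N) (pos := pos) (ss := ss) (e := i.val)
      rw [hlen] at h1
      exact connected_of h1 (row_mem hp hi le_rfl (by rw [hlen]; exact hpos))
        (elSet_conn hp hok hf hi)
    · obtain ⟨k, hk, h1, h2, h3⟩ := idx_spec (cs := cs) (not_lt.1 hi) i.isLt
      rw [h3]
      have h4 := idSet_box (N := N) (ss := ss) (x := 1 + k) (by omega) (by omega)
      rw [hlen] at h4
      exact connected_of h4 (v0 := (1 + k, 0, 0)) ⟨rfl, by simp, by simp, by simp⟩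
        (idSet_conn N (1 + k))
  disjoint := by
    intro i j hij
    have hij' : i.val ≠ j.val := fun h => hij (Fin.ext h)
    apply sub_disjoint
    intro v h1 h2
    by_cases hi : i.val < N + 2
    · by_cases hj : j.val < N + 2
      · unfold partSet at h1 h2
        rw [if_pos hi] at h1
        rw [if_pos hj] at h2
        exact elSet_disj hp hok hi hj hij' v h1 h2
      · obtain ⟨k, hk, h3, h4, h5⟩ := idx_spec (cs := cs) (not_lt.1 hj) j.isLt
        rw [h5] at h2
        unfold partSet at h1
        rw [if_pos hi] at h1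
        exact elSet_idSet_disj hp hi (Shape.eq_idn ((shp_col hcs hk).trans h3)) v h1 h2
    · obtain ⟨k, hk, h3, h4, h5⟩ := idx_spec (cs := cs) (not_lt.1 hi) i.isLt
      rw [h5] at h1
      by_cases hj : j.val < N + 2
      · unfold partSet at h2
        rw [if_pos hj] at h2
        exact elSet_idSet_disj hp hj (Shape.eq_idn ((shp_col hcs hk).trans h3)) v h2 h1
      · obtain ⟨k', hk', h3', h4', h5'⟩ := idx_spec (cs := cs) (not_lt.1 hj) j.isLt
        rw [h5'] at h2
        have h6 : 1 + k ≠ 1 + k' := by
          intro h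
          rw [← h] at h4'
          exact hij' (idx_inj (not_lt.1 hi) i.isLt (not_lt.1 hj) j.isLt h4 h4')
        exact idSet_disj h6 v h1 h2
  upper := by
    intro i t ht
    have hlen : ss.length = cs.length := by rw [← hcs, List.length_map]
    have hi0 : i.val < (netsOf (N + 2) cs).length := i.isLt
    have ht : t ∈ ((netsOf (N + 2) cs)[i.val]'hi0).upper := ht
    have hmem : (1 ≤ t ∧ t ≤ cs.length) ∧ ∀ l, l ≤ 1 →
        (t, N + 3, l) ∈ partSet N pos ss cs i.val := by
      by_cases hi : i.val < N + 2
      · rw [netsOf_get_lt hi0 hi] at ht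
        have ht : t ∈ colIdx (hasTop i.val) 1 cs := ht
        rw [mem_colIdx] at ht
        obtain ⟨k, hk, rfl, h2⟩ := ht
        rw [hasTop_iff] at h2
        obtain ⟨b, h2⟩ := h2
        refine ⟨⟨by omega, by omega⟩, fun l hl => ?_⟩
        unfold partSet
        rw [if_pos hi]
        exact upper_mem hp hok (by omega) (by omega) ((shp_col hcs hk).trans h2) hl
      · obtain ⟨k, hk, h3, h4, h5⟩ := idx_spec (cs := cs) (not_lt.1 hi) hi0
        rw [h4] at ht
        simp only [List.mem_singleton] at ht
        subst ht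
        refine ⟨⟨by omega, by omega⟩, fun l hl => ?_⟩
        rw [h5]
        exact ⟨rfl, le_rfl, hl, Or.inr (Or.inr rfl)⟩
    obtain ⟨hb, hm⟩ := hmem
    refine ⟨⟨(t, N + 3, 0), hb, le_rfl, by simp⟩, ⟨(t, N + 3, 1), hb, le_rfl, le_rfl⟩, rfl, rfl,
      sub_adj ?_ (hm 0 (by omega)) (hm 1 le_rfl)⟩
    show Nat.dist t t + Nat.dist (N + 3) (N + 3) + Nat.dist 0 1 = 1
    simp [Nat.dist]
  lower := by
    intro i t ht
    have hlen : ss.length = cs.length := by rw [← hcs, List.length_map]
    have hi0 : i.val < (netsOf (N + 2) cs).length := i.isLt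
    have ht : t ∈ ((netsOf (N + 2) cs)[i.val]'hi0).lower := ht
    have hmem : (1 ≤ t ∧ t ≤ cs.length) ∧ ∀ l, l ≤ 1 →
        (t, 0, l) ∈ partSet N pos ss cs i.val := by
      by_cases hi : i.val < N + 2
      · rw [netsOf_get_lt hi0 hi] at ht
        have ht : t ∈ colIdx (hasBot i.val) 1 cs := ht
        rw [mem_colIdx] at ht
        obtain ⟨k, hk, rfl, h2⟩ := ht
        rw [hasBot_iff] at h2
        obtain ⟨b, h2⟩ := h2
        refine ⟨⟨by omega, by omega⟩, fun l hl => ?_⟩
        unfold partSet
        rw [if_pos hi]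
        exact lower_mem hok (by omega) (by omega) ((shp_col hcs hk).trans h2) hl
      · obtain ⟨k, hk, h3, h4, h5⟩ := idx_spec (cs := cs) (not_lt.1 hi) hi0
        rw [h4] at ht
        simp only [List.mem_singleton] at ht
        subst ht
        refine ⟨⟨by omega, by omega⟩, fun l hl => ?_⟩
        rw [h5]
        exact ⟨rfl, by simp, hl, Or.inr (Or.inl rfl)⟩
    obtain ⟨hb, hm⟩ := hmem
    refine ⟨⟨(t, 0, 0), hb, by simp, by simp⟩, ⟨(t, 0, 1), hb, by simp, le_rfl⟩, rfl, rfl,
      sub_adj ?_ (hm 0 (by omega)) (hm 1 le_rfl)⟩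
    show Nat.dist t t + Nat.dist 0 0 + Nat.dist 0 1 = 1
    simp [Nat.dist]

end

/-- a rank function satisfying all gadgets gives a layout of width `N + 2` -/
theorem layout_of_rank {N L : ℕ} {gs : List Gadget} (hwf : ∀ g ∈ gs, g.Wf N)
    (hv : ValidCols (N + 2) (cols N L gs)) {r : ℕ → ℤ}
    (hr : ∀ a b, a < N → b < N → r a = r b → a = b) (hs : ∀ g ∈ gs, g.Sat r) :
    Nonempty (Layout (mkCRP (N + 2) (cols N L gs) hv) (N + 2)) := by
  have hp := posOf_pos hr
  exact ⟨layoutOf hv hp (map_shapes N L (posOf N r) gs)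
    (ok_shp (ok_shapes hp hwf (fun g hg => posOf_sat (hwf g hg) (hs g hg))))
    (lnk_shapes N L (posOf N r) gs).fits⟩

end Pool.Agent.Helper64_Chan
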