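import Pool.Agent.Helper64_Chan.FromLayout
import Pool.Agent.Helper64_Chan.ToLayout
import Pool.Agent.Helper64_Chan.SatOrder
import Pool.Agent.Helper53_Chan.PolyTime
import Pool.Agent.Common_CookLevin.CookLevin

/-!
# Channel routing is NP-hard
-/

namespace Pool.Agent.Helper64_Chan

open Pool.Agent.Common_CookLevin (CNF encodeCNF satProblem hard_of_sat)
open Pool.Agent.Helper32_HCK (DecisionProblem InNP PolyReduces languageProblem)

theorem lt_gcols {N L : ℕ} {g : Gadget} (hg : g.Wf N) {a b : ℕ}
    (h : some (a, b) ∈ gcols N L g) : a < N + 2 ∧ b < N + 2 := by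
  have hblk : (some (a, b) : Column) ∉ blk L := by
    intro h
    unfold blk at h
    rw [List.mem_replicate] at h
    cases h.2
  cases g with
  | test a' b' =>
    obtain ⟨g1, g2, g3⟩ := hg
    simp only [gcols, List.mem_cons, Option.some.injEq, Prod.mk.injEq, hblk, or_false] at h
    omega
  | up a' b' c' =>
    obtain ⟨g1, g2, g3, -⟩ := hg
    simp only [gcols, List.mem_cons, Option.some.injEq, Prod.mk.injEq, hblk, or_false] at h
    omega
  | down a' b' c' =>
    obtain ⟨g1, g2, g3, -⟩ := hg
    simp only [gcols, List.mem_cons, Option.some.injEq, Prod.mk.injEq, hblk, or_false] at h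
    omega

theorem lt_tall {N L a b : ℕ} (h : some (a, b) ∈ tall N L) : a < N + 2 ∧ b < N + 2 := by
  have hblk : (some (a, b) : Column) ∉ blk L := by
    intro h
    unfold blk at h
    rw [List.mem_replicate] at h
    cases h.2
  unfold tall at h
  rw [List.mem_append, List.mem_flatMap, List.mem_flatMap] at h
  rcases h with ⟨e, he, h⟩ | ⟨e, he, h⟩
  · rw [List.mem_range] at he
    simp only [List.mem_cons, Option.some.injEq, Prod.mk.injEq, hblk, or_false] at h
    omega
  · rw [List.mem_range] at he
    simp only [List.mem_cons, Option.some.injEq, Prod.mk.injEq, hblk, or_false] at h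
    omega

theorem lt_side {N a b : ℕ} (h : some (a, b) ∈ side N) : a < N + 2 ∧ b < N + 2 := by
  unfold side at h
  rw [List.mem_map] at h
  obtain ⟨e, he, h⟩ := h
  rw [List.mem_range] at he
  simp only [Option.some.injEq, Prod.mk.injEq] at h
  omega

theorem validCols {N L : ℕ} {gs : List Gadget} (hwf : ∀ g ∈ gs, g.Wf N) :
    ValidCols (N + 2) (cols N L gs) := by
  have hside : ∀ e, e < N + 2 → some (e, e) ∈ cols N L gs := by
    intro e he
    unfold cols
    rw [List.mem_append]
    left
    unfold side
    rw [List.mem_map]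
    exact ⟨e, List.mem_range.2 he, rfl⟩
  refine ⟨?_, ?_, fun e he => ⟨e, hside e he⟩, fun e he => ⟨e, hside e he⟩⟩
  · exact List.ne_nil_of_mem (hside 0 (by omega))
  · intro a b h
    unfold cols at h
    rw [List.mem_append, List.mem_append, List.mem_append, List.mem_append,
      List.mem_flatMap] at h
    rcases h with h | h | ⟨g, hg, h⟩ | h | h
    · exact lt_side h
    · unfold blk at h
      rw [List.mem_replicate] at h
      cases h.2
    · rw [List.mem_append] at h
      rcases h with h | h
      · exact lt_tall h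
      · exact lt_gcols (hwf g hg) h
    · exact lt_tall h
    · exact lt_side h

theorem wf_of (F : CNF) : ∀ g ∈ gadgets (encodeCNF F).reverse, g.Wf (numEl F) := by
  have h := wf_gadgets (encodeCNF F).reverse
  rw [List.length_reverse] at h
  exact h

theorem valid_of (F : CNF) : ValidCols (numEl F + 2) (colsOf F) := validCols (wf_of F)

/-- the channel routing problem of a formula -/
def crpOf (F : CNF) : CRP := mkCRP (numEl F + 2) (colsOf F) (valid_of F)

theorem crpOf_iff (F : CNF) : (crpOf F).wmin ≤ ((numEl F + 2 : ℕ) : ℕ∞) ↔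
    ∃ v : ℕ → Bool, ∀ C ∈ F, ∃ l ∈ C, v l.1 = l.2 := by
  rw [CRP.wmin_le_iff]
  constructor
  · rintro ⟨w, hw, ⟨Y⟩⟩
    obtain ⟨r, hr⟩ := rank_of_layout (N := numEl F) (L := blockLen (numEl F))
      (gs := gadgets (encodeCNF F).reverse) (wf_of F) (by unfold blockLen; omega)
      (valid_of F) hw Y
    exact sat_of_rank hr
  · rintro ⟨v, hv⟩
    obtain ⟨r, h1, h2⟩ := rank_of_sat hv
    exact ⟨numEl F + 2, le_rfl, layout_of_rank (wf_of F) (valid_of F) h2 h1⟩

/-- satisfiability reduces to channel routing -/
theorem sat_to_channel : PolyReduces satProblem channelProblem := by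
  obtain ⟨c⟩ := Pool.Agent.Helper53_Chan.outWord_polyTime
  refine ⟨fun F => (crpOf F, numEl F + 2), ⟨⟨c.toTM2ComputableAux, c.time, fun F => ?_⟩⟩,
    fun F => (crpOf_iff F).symm⟩
  exact c.outputsFun F

/-- satisfiability reduces to channel routing with dense instances -/
theorem sat_to_dense : PolyReduces satProblem denseChannelProblem := by
  obtain ⟨c⟩ := Pool.Agent.Helper53_Chan.outWord_polyTime
  refine ⟨fun F => ⟨(crpOf F, numEl F + 2), mkCRP_dense _ _ (valid_of F)⟩,
    ⟨⟨c.toTM2ComputableAux, c.time, fun F => ?_⟩⟩, fun F => (crpOf_iff F).symm⟩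
  exact c.outputsFun F

/-- The minimum width channel routing problem is NP-hard, also for dense instances. -/
theorem channel_nphard : NPHard channelProblem ∧ NPHard denseChannelProblem :=
  ⟨fun L hL => hard_of_sat sat_to_channel L hL, fun L hL => hard_of_sat sat_to_dense L hL⟩

end Pool.Agent.Helper64_Chan
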