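import Pool.Agent.Helper64_Chan.Chain
import Pool.Agent.Helper64_Chan.Reduce

/-!
# From consistent sequences of orders to one order satisfying all constraints
-/

namespace Pool.Agent.Helper64_Chan

/-- meaning of the constraints for a rank function `r` -/
def Gadget.Sat (r : ℕ → ℤ) : Gadget → Prop
  | .test a b => r b < r a
  | .up a b c => r b < r a ∨ r c < r a
  | .down a b c => r a < r b ∨ r a < r c

/-- the elements of a constraint are distinct and smaller than `N` -/
def Gadget.Wf (N : ℕ) : Gadget → Prop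
  | .test a b => a < N ∧ b < N ∧ a ≠ b
  | .up a b c => a < N ∧ b < N ∧ c < N ∧ a ≠ b ∧ a ≠ c ∧ b ≠ c
  | .down a b c => a < N ∧ b < N ∧ c < N ∧ a ≠ b ∧ a ≠ c ∧ b ≠ c

/-- the passing net with number `a` -/
def el (N a : ℕ) : Fin (N + 2) := Fin.ofNat (N + 2) a

theorem el_val {N a : ℕ} (h : a < N + 2) : (el N a).val = a := by
  simp [el, Nat.mod_eq_of_lt h]

theorem el_inj {N a b : ℕ} (ha : a < N + 2) (hb : b < N + 2) (h : el N a = el N b) : a = b := by
  have := congrArg Fin.val h
  rwa [el_val ha, el_val hb] at this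

theorem el_self {N : ℕ} (i : Fin (N + 2)) : el N i.val = i := by
  apply Fin.ext
  rw [el_val i.isLt]

/-- zones forcing the net `N + 1` to the bottom and the net `N` to the top -/
def tallZ (N : ℕ) : List (Zone (Fin (N + 2))) :=
  (List.range (N + 1)).map (fun e => .one (el N e) (el N (N + 1))) ++
    (List.range N).map (fun e => .one (el N N) (el N e))

/-- the zone of a constraint -/
def gz (N : ℕ) : Gadget → Zone (Fin (N + 2))
  | .test a b => .one (el N a) (el N b)
  | .up a b c => .two (el N a) (el N b) (el N N) (el N c)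
  | .down a b c => .two (el N b) (el N a) (el N c) (el N (N + 1))

/-- all zones -/
def zonesOf (N : ℕ) (gs : List Gadget) : List (Zone (Fin (N + 2))) :=
  gs.flatMap (fun g => tallZ N ++ [gz N g]) ++ tallZ N

/-- bijectivity of an order -/
def Bij {ι : Type} (w : ℤ) (p : ℤ → ι) : Prop :=
  (∀ i, ∃ y, 1 ≤ y ∧ y ≤ w ∧ p y = i) ∧
  (∀ y y', 1 ≤ y → y ≤ w → 1 ≤ y' → y' ≤ w → p y = p y' → y = y')

theorem Same.symm {ι : Type} {w : ℤ} {p q : ℤ → ι} (h : Same w p q) : Same w q p :=
  fun y h1 h2 => (h y h1 h2).symm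

theorem Same.trans {ι : Type} {w : ℤ} {p q r : ℤ → ι} (h : Same w p q) (h' : Same w q r) :
    Same w p r := fun y h1 h2 => (h y h1 h2).trans (h' y h1 h2)

theorem NB.congr {ι : Type} {w : ℤ} {p q : ℤ → ι} (h : Same w p q) {a b : ι}
    (hn : NB w q a b) : NB w p a b := by
  intro ya yb h1 h2 h3 h4 h5 h6
  exact hn ya yb h1 h2 h3 h4 ((h ya h1 h2).symm.trans h5) ((h yb h3 h4).symm.trans h6)

theorem NB2.congr {ι : Type} {w : ℤ} {p q : ℤ → ι} (h : Same w p q) {a b c : ι}
    (hn : NB2 w q a b c) : NB2 w p a b c := by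
  intro ya yb yc h1 h2 h3 h4 h5 h6 h7 h8 h9
  exact hn ya yb yc h1 h2 h3 h4 h5 h6 ((h ya h1 h2).symm.trans h7)
    ((h yb h3 h4).symm.trans h8) ((h yc h5 h6).symm.trans h9)

theorem NA2.congr {ι : Type} {w : ℤ} {p q : ℤ → ι} (h : Same w p q) {a b c : ι}
    (hn : NA2 w q a b c) : NA2 w p a b c := by
  intro ya yb yc h1 h2 h3 h4 h5 h6 h7 h8 h9
  exact hn ya yb yc h1 h2 h3 h4 h5 h6 ((h ya h1 h2).symm.trans h7)
    ((h yb h3 h4).symm.trans h8) ((h yc h5 h6).symm.trans h9)

/-- one-column zones do not change the order -/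
theorem Good.ones {ι : Type} {w : ℤ} : ∀ (ps : List (ι × ι)) {p : ℤ → ι} {zs : List (Zone ι)},
    Bij w p → Good w p (ps.map (fun x => .one x.1 x.2) ++ zs) →
    ∃ q, Same w p q ∧ Bij w q ∧ (∀ x ∈ ps, NB w p x.1 x.2) ∧ Good w q zs
  | [], p, zs, hp, h => ⟨p, fun _ _ _ => rfl, hp, by simp, by simpa using h⟩
  | x :: ps, p, zs, hp, h => by
    rw [List.map_cons, List.cons_append] at h
    obtain ⟨q, ⟨h1, h2⟩, h3, h4, h5⟩ := h
    obtain ⟨r, h6, h7, h8, h9⟩ := Good.ones ps ⟨h3, h4⟩ h5
    refine ⟨r, h1.trans h6, h7, ?_, h9⟩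
    intro y hy
    rcases List.mem_cons.1 hy with rfl | hy
    · exact h2
    · exact (h8 y hy).congr h1

theorem Good.tall {N : ℕ} {w : ℤ} (hw : 1 ≤ w) {p : ℤ → Fin (N + 2)}
    {zs : List (Zone (Fin (N + 2)))} (hp : Bij w p) (h : Good w p (tallZ N ++ zs)) :
    (∃ q, Same w p q ∧ Bij w q ∧ Good w q zs) ∧ p 1 = el N (N + 1) ∧ p w = el N N := by
  have e : tallZ N = (((List.range (N + 1)).map (fun e => (el N e, el N (N + 1))) ++
      (List.range N).map (fun e => (el N N, el N e)))).map (fun x => Zone.one x.1 x.2) := by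
    unfold tallZ
    rw [List.map_append, List.map_map, List.map_map]
    rfl
  rw [e] at h
  obtain ⟨q, h1, h2, h3, h4⟩ := Good.ones _ hp h
  refine ⟨⟨q, h1, h2, h4⟩, ?_, ?_⟩
  · obtain ⟨y, hy1, hy2, hy3⟩ := hp.1 (el N (N + 1))
    by_cases hi : (p 1).val = N + 1
    · rw [← el_self (p 1), hi]
    · have hmem : (p 1, el N (N + 1)) ∈ ((List.range (N + 1)).map
          (fun e => (el N e, el N (N + 1))) ++ (List.range N).map (fun e => (el N N, el N e))) := by
        rw [List.mem_append]
        left
        rw [List.mem_map]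
        refine ⟨(p 1).val, ?_, ?_⟩
        · rw [List.mem_range]
          have := (p 1).isLt
          omega
        · rw [el_self]
      have h5 := h3 _ hmem
      rcases eq_or_lt_of_le hy1 with h6 | h6
      · rw [← h6] at hy3; exact hy3
      · exact (h5 1 y le_rfl hw hy1 hy2 rfl hy3 h6).elim
  · obtain ⟨y, hy1, hy2, hy3⟩ := hp.1 (el N N)
    by_cases hi : (p w).val = N
    · rw [← el_self (p w), hi]
    · have hmem : (el N N, p w) ∈ ((List.range (N + 1)).map
          (fun e => (el N e, el N (N + 1))) ++ (List.range N).map (fun e => (el N N, el N e))) := by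
        rw [List.mem_append]
        by_cases hi2 : (p w).val = N + 1
        · left
          rw [List.mem_map]
          refine ⟨N, by simp, ?_⟩
          rw [← el_self (p w), hi2]
        · right
          rw [List.mem_map]
          refine ⟨(p w).val, ?_, ?_⟩
          · rw [List.mem_range]
            have := (p w).isLt
            omega
          · rw [el_self]
      have h5 := h3 _ hmem
      rcases eq_or_lt_of_le hy2 with h6 | h6
      · rw [h6] at hy3; exact hy3
      · exact (h5 y w hy1 hy2 hw le_rfl hy3 rfl h6).elim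

/-- constraints for an order -/
def SatP (N : ℕ) (w : ℤ) (p : ℤ → Fin (N + 2)) : Gadget → Prop
  | .test a b => NB w p (el N a) (el N b)
  | .up a b c => NB2 w p (el N a) (el N b) (el N c)
  | .down a b c => NA2 w p (el N a) (el N b) (el N c)

theorem SatP.congr {N : ℕ} {w : ℤ} {p q : ℤ → Fin (N + 2)} (h : Same w p q) {g : Gadget}
    (hg : SatP N w q g) : SatP N w p g := by
  cases g with
  | test a b => exact NB.congr h hg
  | up a b c => exact NB2.congr h hg
  | down a b c => exact NA2.congr h hg

theorem rest_eq (N : ℕ) (gs : List Gadget) : ∃ zs, zonesOf N gs = tallZ N ++ zs := by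
  cases gs with
  | nil => exact ⟨[], by simp [zonesOf]⟩
  | cons g gs => exact ⟨[gz N g] ++ zonesOf N gs, by
      unfold zonesOf
      rw [List.flatMap_cons]
      simp only [List.append_assoc]⟩

theorem good_satP {N : ℕ} {w : ℤ} (hw : 1 ≤ w) : ∀ (gs : List Gadget) {p : ℤ → Fin (N + 2)},
    Bij w p → (∀ g ∈ gs, g.Wf N) → Good w p (zonesOf N gs) → ∀ g ∈ gs, SatP N w p g
  | [], _, _, _, _ => by simp
  | g :: gs, p, hp, hwf, h => by
    have e : zonesOf N (g :: gs) = tallZ N ++ (gz N g :: zonesOf N gs) := by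
      unfold zonesOf
      rw [List.flatMap_cons]
      simp only [List.append_assoc, List.nil_append, List.cons_append]
    rw [e] at h
    obtain ⟨⟨q, h1, h2, h3⟩, h4, h5⟩ := Good.tall hw hp h
    obtain ⟨r, h6, h7, h8, h9⟩ := h3
    have hr : Bij w r := ⟨h7, h8⟩
    have hq1 : q 1 = el N (N + 1) := (h1 1 le_rfl hw).symm.trans h4
    have hqw : q w = el N N := (h1 w hw le_rfl).symm.trans h5
    obtain ⟨zs, hzs⟩ := rest_eq N gs
    have h10 := h9
    rw [hzs] at h10
    obtain ⟨-, hr1, hrw⟩ := Good.tall hw hr h10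
    have hg := hwf g (List.mem_cons_self ..)
    have key : Same w q r ∧ SatP N w q g := by
      cases g with
      | test a b => exact h6
      | up a b c =>
        obtain ⟨g1, g2, g3, -, -, -⟩ := hg
        have := h6.1 (el N (N + 1)) hq1 hr1
          (fun h => by have := el_inj (by omega) (by omega) h; omega)
          (fun h => by have := el_inj (by omega) (by omega) h; omega)
        exact this
      | down a b c =>
        obtain ⟨g1, g2, g3, -, -, -⟩ := hg
        have := h6.2 (el N N) hqw hrw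
          (fun h => by have := el_inj (by omega) (by omega) h; omega)
          (fun h => by have := el_inj (by omega) (by omega) h; omega)
        exact this
    have ih := good_satP hw gs hr (fun g hg => hwf g (List.mem_cons_of_mem _ hg)) h9
    intro g' hg'
    rcases List.mem_cons.1 hg' with rfl | hg'
    · exact key.2.congr h1
    · exact (ih g' hg').congr (h1.trans key.1)

/-- from orders to rank functions -/
theorem exists_rank {N : ℕ} {w : ℤ} {p : ℤ → Fin (N + 2)} (hp : Bij w p) (gs : List Gadget)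
    (hwf : ∀ g ∈ gs, g.Wf N) (hs : ∀ g ∈ gs, SatP N w p g) :
    ∃ r : ℕ → ℤ, ∀ g ∈ gs, g.Sat r := by
  choose pos h1 h2 h3 using hp.1
  have hinj : ∀ a b, a < N → b < N → pos (el N a) = pos (el N b) → a = b := by
    intro a b ha hb h
    have h4 := h3 (el N a)
    rw [h, h3] at h4
    exact (el_inj (by omega) (by omega) h4).symm
  refine ⟨fun a => pos (el N a), fun g hg => ?_⟩
  have hw := hwf g hg
  have h4 := hs g hg
  cases g with
  | test a b =>
    obtain ⟨g1, g2, g3⟩ := hw
    have h5 : ¬ pos (el N a) < pos (el N b) := fun h =>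
      h4 _ _ (h1 _) (h2 _) (h1 _) (h2 _) (h3 _) (h3 _) h
    have h6 : pos (el N a) ≠ pos (el N b) := fun h => g3 (hinj a b g1 g2 h)
    show pos (el N b) < pos (el N a)
    omega
  | up a b c =>
    obtain ⟨g1, g2, g3, g4, g5, -⟩ := hw
    have h5 : ¬ (pos (el N a) < pos (el N b) ∧ pos (el N a) < pos (el N c)) := fun h =>
      h4 _ _ _ (h1 _) (h2 _) (h1 _) (h2 _) (h1 _) (h2 _) (h3 _) (h3 _) (h3 _) h.1 h.2
    have h6 : pos (el N a) ≠ pos (el N b) := fun h => g4 (hinj a b g1 g2 h)
    have h7 : pos (el N a) ≠ pos (el N c) := fun h => g5 (hinj a c g1 g3 h)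
    show pos (el N b) < pos (el N a) ∨ pos (el N c) < pos (el N a)
    omega
  | down a b c =>
    obtain ⟨g1, g2, g3, g4, g5, -⟩ := hw
    have h5 : ¬ (pos (el N b) < pos (el N a) ∧ pos (el N c) < pos (el N a)) := fun h =>
      h4 _ _ _ (h1 _) (h2 _) (h1 _) (h2 _) (h1 _) (h2 _) (h3 _) (h3 _) (h3 _) h.1 h.2
    have h6 : pos (el N a) ≠ pos (el N b) := fun h => g4 (hinj a b g1 g2 h)
    have h7 : pos (el N a) ≠ pos (el N c) := fun h => g5 (hinj a c g1 g3 h)
    show pos (el N a) < pos (el N b) ∨ pos (el N a) < pos (el N c)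
    omega

/-- conversion of columns -/
def conv (N : ℕ) : Column → Option (Fin (N + 2) × Fin (N + 2)) :=
  Option.map (fun p => (el N p.1, el N p.2))

theorem conv_none (N : ℕ) : conv N none = none := rfl

theorem conv_some (N a b : ℕ) : conv N (some (a, b)) = some (el N a, el N b) := rfl

theorem conv_blk (N L : ℕ) : (blk L).map (conv N) = List.replicate L none := by
  simp [blk, conv]

theorem conv_gcols (N L : ℕ) (g : Gadget) :
    (gcols N L g).map (conv N) = (gz N g).cols ++ List.replicate L none := by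
  cases g <;> simp [gcols, gz, Zone.cols, conv_blk, conv_some]

theorem conv_tall (N L : ℕ) : (tall N L).map (conv N) =
    (tallZ N).flatMap (fun z => z.cols ++ List.replicate L none) := by
  unfold tall tallZ
  rw [List.map_append, List.flatMap_append, List.map_flatMap, List.map_flatMap,
    List.flatMap_map, List.flatMap_map]
  congr 1
  · congr 1
    funext e
    simp [Zone.cols, conv_blk, conv_some]
  · congr 1
    funext e
    simp [Zone.cols, conv_blk, conv_some]

theorem conv_cols (N L : ℕ) (gs : List Gadget) : (cols N L gs).map (conv N) =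
    (side N).map (conv N) ++ (Glob.zcols L (zonesOf N gs) ++ (side N).map (conv N)) := by
  unfold cols Glob.zcols zonesOf
  simp only [List.map_append, List.flatMap_append, conv_blk, conv_tall, List.append_assoc,
    List.map_flatMap, List.flatMap_assoc]
  congr 1
  congr 1
  congr 1
  congr 1
  funext g
  rw [conv_gcols]
  simp

end Pool.Agent.Helper64_Chan
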