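import Mathlib

/-!
# Lipschitz paths with costs
-/

namespace Pool.Agent.Helper64_Chan

/-- There is a path on the times `t, …, t₁` (unit steps in time, steps of size at most one in
space, staying in `[lo, hi]` after time `t`) which starts at `p` and has total cost `k` over the
times in `(t, t₁]`. -/
def Fwd (c : ℤ → ℤ → ℤ) (lo hi t₁ t p k : ℤ) : Prop :=
  ∃ q : ℤ → ℤ, q t = p ∧ (∀ t', t ≤ t' → t' < t₁ → q (t' + 1) ≤ q t' + 1 ∧ q t' ≤ q (t' + 1) + 1) ∧
    (∀ t', t < t' → t' ≤ t₁ → lo ≤ q t' ∧ q t' ≤ hi) ∧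
    ∑ t' ∈ Finset.Ioc t t₁, c t' (q t') = k

/-- The time-reversed version of `Fwd`. -/
def Bwd (c : ℤ → ℤ → ℤ) (lo hi t₀ t p k : ℤ) : Prop :=
  Fwd (fun a b => c (-a) b) lo hi (-t₀) (-t) p k

theorem Fwd.nil (c : ℤ → ℤ → ℤ) (lo hi : ℤ) {t₁ t : ℤ} (p : ℤ) (h : t₁ ≤ t) :
    Fwd c lo hi t₁ t p 0 := by
  refine ⟨fun _ => p, rfl, fun t' h1 h2 => by omega, fun t' h1 h2 => by omega, ?_⟩
  rw [Finset.Ioc_eq_empty (by omega)]
  simp

theorem Fwd.step {c : ℤ → ℤ → ℤ} {lo hi t₁ t p p' k : ℤ} (h : Fwd c lo hi t₁ (t + 1) p' k)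
    (ht : t < t₁) (h1 : p' ≤ p + 1) (h2 : p ≤ p' + 1) (h3 : lo ≤ p') (h4 : p' ≤ hi) :
    Fwd c lo hi t₁ t p (c (t + 1) p' + k) := by
  obtain ⟨q, hq, hl, hr, hs⟩ := h
  refine ⟨fun t' => if t' ≤ t then p else q t', by simp, ?_, ?_, ?_⟩
  · intro t' h5 h6
    beta_reduce
    rcases eq_or_lt_of_le h5 with h | h
    · subst h
      rw [if_neg (by omega : ¬ t + 1 ≤ t), if_pos le_rfl, hq]
      omega
    · rw [if_neg (by omega), if_neg (by omega)]
      exact hl t' (by omega) h6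
  · intro t' h5 h6
    beta_reduce
    rw [if_neg (by omega)]
    rcases eq_or_lt_of_le (show t + 1 ≤ t' by omega) with h | h
    · subst h; rw [hq]; exact ⟨h3, h4⟩
    · exact hr t' h h6
  · have e : Finset.Ioc t t₁ = insert (t + 1) (Finset.Ioc (t + 1) t₁) := by
      ext z; simp only [Finset.mem_Ioc, Finset.mem_insert]; omega
    beta_reduce
    rw [e, Finset.sum_insert (by simp), if_neg (by omega), hq, ← hs]
    congr 1
    apply Finset.sum_congr rfl
    intro z hz
    rw [Finset.mem_Ioc] at hz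
    rw [if_neg (by omega)]

theorem Bwd.nil (c : ℤ → ℤ → ℤ) (lo hi : ℤ) {t₀ t : ℤ} (p : ℤ) (h : t ≤ t₀) :
    Bwd c lo hi t₀ t p 0 := Fwd.nil _ _ _ _ (by omega)

theorem Bwd.step {c : ℤ → ℤ → ℤ} {lo hi t₀ t p p' k : ℤ} (h : Bwd c lo hi t₀ (t - 1) p' k)
    (ht : t₀ < t) (h1 : p' ≤ p + 1) (h2 : p ≤ p' + 1) (h3 : lo ≤ p') (h4 : p' ≤ hi) :
    Bwd c lo hi t₀ t p (c (t - 1) p' + k) := by
  unfold Bwd at h ⊢
  have e : -(t - 1) = -t + 1 := by ring
  rw [e] at h
  have := Fwd.step h (by omega) h1 h2 h3 h4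
  have e2 : -(-t + 1) = t - 1 := by ring
  rw [e2] at this
  exact this

/-- Reflect space. -/
theorem Fwd.neg {c : ℤ → ℤ → ℤ} {lo hi t₁ t p k : ℤ} (h : Fwd c lo hi t₁ t p k) :
    Fwd (fun a b => c a (-b)) (-hi) (-lo) t₁ t (-p) k := by
  obtain ⟨q, hq, hl, hr, hs⟩ := h
  refine ⟨fun z => -q z, by simp [hq], ?_, ?_, ?_⟩
  · intro t' h1 h2
    have := hl t' h1 h2
    dsimp only
    omega
  · intro t' h1 h2
    have := hr t' h1 h2
    dsimp only
    omega
  · simpa using hs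

/-- Shift time. -/
theorem Fwd.shift {c : ℤ → ℤ → ℤ} {lo hi t₁ t p k : ℤ} (a : ℤ)
    (h : Fwd (fun z => c (z + a)) lo hi t₁ t p k) : Fwd c lo hi (t₁ + a) (t + a) p k := by
  obtain ⟨q, hq, hl, hr, hs⟩ := h
  refine ⟨fun z => q (z - a), by simp [hq], ?_, ?_, ?_⟩
  · intro t' h1 h2
    have := hl (t' - a) (by omega) (by omega)
    have e : t' + 1 - a = t' - a + 1 := by ring
    dsimp only
    rw [e]
    exact this
  · intro t' h1 h2
    exact hr (t' - a) (by omega) (by omega)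
  · rw [← hs]
    symm
    apply Finset.sum_bij (fun z _ => z + a)
    · intro z hz
      simp only [Finset.mem_Ioc] at hz ⊢
      omega
    · intro z _ z' _ h
      simpa using h
    · intro z hz
      simp only [Finset.mem_Ioc] at hz
      exact ⟨z - a, by simp only [Finset.mem_Ioc]; omega, by ring⟩
    · intro z hz
      dsimp only
      rw [add_sub_cancel_right]

/-- Join a backward and a forward path. -/
theorem join {c : ℤ → ℤ → ℤ} {lo hi t₀ t₁ t p a b : ℤ} (h₀ : Bwd c lo hi t₀ t p a)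
    (h₁ : Fwd c lo hi t₁ t p b) (hlo : lo ≤ p) (hhi : p ≤ hi) (ht₀ : t₀ ≤ t) (ht₁ : t ≤ t₁) :
    ∃ q : ℤ → ℤ, q t = p ∧
      (∀ t', t₀ ≤ t' → t' < t₁ → q (t' + 1) ≤ q t' + 1 ∧ q t' ≤ q (t' + 1) + 1) ∧
      (∀ t', t₀ ≤ t' → t' ≤ t₁ → lo ≤ q t' ∧ q t' ≤ hi) ∧
      ∑ t' ∈ Finset.Icc t₀ t₁, c t' (q t') = a + c t p + b := by
  obtain ⟨q₀, hq₀, hl₀, hr₀, hs₀⟩ := h₀
  obtain ⟨q₁, hq₁, hl₁, hr₁, hs₁⟩ := h₁
  refine ⟨fun t' => if t' ≤ t then q₀ (-t') else q₁ t', by simp [hq₀], ?_, ?_, ?_⟩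
  · intro t' h1 h2
    beta_reduce
    by_cases h3 : t' + 1 ≤ t
    · rw [if_pos h3, if_pos (by omega)]
      have h4 := hl₀ (-(t' + 1)) (by omega) (by omega)
      have e : -(t' + 1) + 1 = -t' := by ring
      rw [e] at h4
      exact ⟨h4.2, h4.1⟩
    · rw [if_neg h3]
      by_cases h4 : t' ≤ t
      · have h5 : t' = t := by omega
        subst h5
        rw [if_pos h4, hq₀, ← hq₁]
        exact hl₁ t' le_rfl h2
      · rw [if_neg h4]
        exact hl₁ t' (by omega) h2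
  · intro t' h1 h2
    beta_reduce
    by_cases h3 : t' ≤ t
    · rw [if_pos h3]
      rcases eq_or_lt_of_le h3 with h | h
      · subst h; rw [hq₀]; exact ⟨hlo, hhi⟩
      · exact hr₀ (-t') (by omega) (by omega)
    · rw [if_neg h3]
      exact hr₁ t' (by omega) h2
  · have e : Finset.Icc t₀ t₁ = (Finset.Ico t₀ t ∪ {t}) ∪ Finset.Ioc t t₁ := by
      ext z
      simp only [Finset.mem_Icc, Finset.mem_union, Finset.mem_Ico, Finset.mem_singleton,
        Finset.mem_Ioc]
      omega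
    rw [e, Finset.sum_union, Finset.sum_union]
    · congr 1
      · congr 1
        · rw [← hs₀]
          apply Finset.sum_bij (fun z _ => -z)
          · intro z hz
            simp only [Finset.mem_Ico, Finset.mem_Ioc] at hz ⊢
            omega
          · intro z _ z' _ h
            simpa using h
          · intro z hz
            simp only [Finset.mem_Ioc] at hz
            exact ⟨-z, by simp only [Finset.mem_Ico]; omega, by ring⟩
          · intro z hz
            simp only [Finset.mem_Ico] at hz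
            beta_reduce
            rw [if_pos (by omega), neg_neg]
        · simp [hq₀]
      · rw [← hs₁]
        apply Finset.sum_congr rfl
        intro z hz
        rw [Finset.mem_Ioc] at hz
        beta_reduce
        rw [if_neg (by omega)]
    · rw [Finset.disjoint_left]
      intro z hz hz'
      simp only [Finset.mem_Ico, Finset.mem_singleton] at hz hz'
      omega
    · rw [Finset.disjoint_left]
      intro z hz hz'
      simp only [Finset.mem_Ico, Finset.mem_singleton, Finset.mem_union, Finset.mem_Ioc] at hz hz'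
      omega

end Pool.Agent.Helper64_Chan
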