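import Pool.Agent.Helper64_Chan.Region

/-!
# Cut sums and the absence of doubly used cells
-/

namespace Pool.Agent.Helper64_Chan

/-- indicator of a wall vertex -/
def isW {ι : Type} : Option (ι ⊕ ℤ) → ℤ
  | some (.inr _) => 1
  | _ => 0

/-- the wall at a vertex -/
def wallSet {ι : Type} : Option (ι ⊕ ℤ) → Finset ℤ
  | some (.inr z) => {z}
  | _ => ∅

open Classical in
/-- the passing net at a vertex -/
noncomputable def netSet {ι : Type} : Option (ι ⊕ ℤ) → Finset ι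
  | some (.inl i) => {i}
  | _ => ∅

theorem card_wallSet {ι : Type} (o : Option (ι ⊕ ℤ)) : ((wallSet o).card : ℤ) = isW o := by
  rcases o with _ | (i | z) <;> simp [wallSet, isW]

theorem card_netSet {ι : Type} (o : Option (ι ⊕ ℤ)) : ((netSet o).card : ℤ) ≤ 1 - isW o := by
  rcases o with _ | (i | z) <;> simp [netSet, isW]

theorem isW_nonneg {ι : Type} (o : Option (ι ⊕ ℤ)) : 0 ≤ isW o := by
  rcases o with _ | (i | z) <;> simp [isW]

theorem isW_le {ι : Type} (o : Option (ι ⊕ ℤ)) : isW o ≤ 1 := by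
  rcases o with _ | (i | z) <;> simp [isW]

theorem isW_negr {ι : Type} (o : Option (ι ⊕ ℤ)) : isW (o.map Region.negr) = isW o := by
  rcases o with _ | (i | z) <;> simp [isW, Region.negr]

namespace Region

variable {ι : Type} (R : Region ι)

open Classical in
/-- one minus the number of wall vertices of a cell, corrected in the boundary rows -/
noncomputable def psi (x y : ℤ) : ℤ :=
  if y = 0 ∨ y = R.w + 1 then (if R.Fr x then 1 else 0)
  else 1 - isW (R.own (x, y, false)) - isW (R.own (x, y, true))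

theorem psi_in {x y : ℤ} (h1 : 1 ≤ y) (h2 : y ≤ R.w) :
    R.psi x y = 1 - isW (R.own (x, y, false)) - isW (R.own (x, y, true)) := by
  unfold psi
  rw [if_neg (by omega)]

theorem psi_bot_nonneg (x : ℤ) : 0 ≤ R.psi x 0 := by
  unfold psi
  simp only [true_or, if_true]
  split_ifs <;> omega

theorem psi_top_nonneg (x : ℤ) : 0 ≤ R.psi x (R.w + 1) := by
  unfold psi
  simp only [or_true, if_true]
  split_ifs <;> omega

theorem psi_bot_free {x : ℤ} (h : R.Fr x) : R.psi x 0 = 1 := by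
  unfold psi
  simp [h]

theorem psi_top_free {x : ℤ} (h : R.Fr x) : R.psi x (R.w + 1) = 1 := by
  unfold psi
  simp [h]

theorem psi_le (x y : ℤ) : R.psi x y ≤ 1 := by
  unfold psi
  have h1 := isW_nonneg (R.own (x, y, false))
  have h2 := isW_nonneg (R.own (x, y, true))
  split_ifs <;> omega

theorem psi_f₁ {y : ℤ} (h1 : 1 ≤ y) (h2 : y ≤ R.w) : R.psi R.f₁ y = 0 := by
  rw [R.psi_in h1 h2]
  have h3 := R.wall₁ y h1 h2
  have h4 := R.col₁ y h1 h2
  cases hm : R.m₁ <;> rw [hm] at h3 h4 <;> simp only [Bool.not_true, Bool.not_false] at h3 <;>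
    rw [h3, h4] <;> simp [isW]

theorem psi_f₂ {y : ℤ} (h1 : 1 ≤ y) (h2 : y ≤ R.w) : R.psi R.f₂ y = 0 := by
  rw [R.psi_in h1 h2]
  have h3 := R.wall₂ y h1 h2
  have h4 := R.col₂ y h1 h2
  cases hm : R.m₂ <;> rw [hm] at h3 h4 <;> simp only [Bool.not_true, Bool.not_false] at h3 <;>
    rw [h3, h4] <;> simp [isW]

/-- the walls of a cell -/
def wcell (x y : ℤ) : Finset ℤ :=
  wallSet (R.own (x, y, false)) ∪ wallSet (R.own (x, y, true))

open Classical in
/-- the passing nets of a cell -/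
noncomputable def ncell (x y : ℤ) : Finset ι :=
  netSet (R.own (x, y, false)) ∪ netSet (R.own (x, y, true))

theorem mem_wcell {z x y : ℤ} {l : Bool} (h : R.Mem (.inr z) (x, y, l)) : z ∈ R.wcell x y := by
  unfold wcell
  have := h.2.2.2.2
  rw [Finset.mem_union]
  cases l
  · left; rw [this]; simp [wallSet]
  · right; rw [this]; simp [wallSet]

theorem mem_ncell {i : ι} {x y : ℤ} {l : Bool} (h : R.Mem (.inl i) (x, y, l)) :
    i ∈ R.ncell x y := by
  classical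
  unfold ncell
  have := h.2.2.2.2
  rw [Finset.mem_union]
  cases l
  · left; rw [this]; simp [netSet]
  · right; rw [this]; simp [netSet]

theorem card_wcell {x y : ℤ} (h1 : R.f₁ ≤ x) (h2 : x ≤ R.f₂) :
    ((R.wcell x y).card : ℤ) ≤ 1 - R.psi x y := by
  by_cases hy : y = 0 ∨ y = R.w + 1
  · unfold psi
    rw [if_pos hy]
    split_ifs with hx
    · have e : R.wcell x y = ∅ := by
        unfold wcell
        rcases hy with rfl | rfl
        · rw [R.bot_free x _ hx.1 hx.2, R.bot_free x _ hx.1 hx.2]; simp [wallSet]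
        · rw [R.top_free x _ hx.1 hx.2, R.top_free x _ hx.1 hx.2]; simp [wallSet]
      rw [e]; simp
    · have e : R.wcell x y = {x} := by
        unfold wcell
        rcases hy with rfl | rfl
        · rw [R.bot_wall x _ h1 h2 hx, R.bot_wall x _ h1 h2 hx]; simp [wallSet]
        · rw [R.top_wall x _ h1 h2 hx, R.top_wall x _ h1 h2 hx]; simp [wallSet]
      rw [e]; simp
  · unfold psi
    rw [if_neg hy]
    have h := Finset.card_union_le (wallSet (R.own (x, y, false))) (wallSet (R.own (x, y, true)))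
    have h3 := card_wallSet (R.own (x, y, false))
    have h4 := card_wallSet (R.own (x, y, true))
    have : ((R.wcell x y).card : ℤ) ≤ isW (R.own (x, y, false)) + isW (R.own (x, y, true)) := by
      rw [← h3, ← h4]; exact_mod_cast h
    omega

theorem card_ncell {x y : ℤ} (h1 : 1 ≤ y) (h2 : y ≤ R.w) :
    ((R.ncell x y).card : ℤ) ≤ 1 + R.psi x y := by
  classical
  rw [R.psi_in h1 h2]
  have h := Finset.card_union_le (netSet (R.own (x, y, false))) (netSet (R.own (x, y, true)))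
  have h3 := card_netSet (R.own (x, y, false))
  have h4 := card_netSet (R.own (x, y, true))
  have : ((R.ncell x y).card : ℤ) ≤
      ((netSet (R.own (x, y, false))).card : ℤ) + ((netSet (R.own (x, y, true))).card : ℤ) := by
    unfold ncell; exact_mod_cast h
  omega

theorem LR_sum {L : ℤ → ℤ} (hL : R.LRcut L) :
    ∑ x ∈ Finset.Icc R.f₁ R.f₂, R.psi x (L x) ≤ R.s := by
  have h1 : (Finset.Icc R.f₁ R.f₂ \ Finset.Ico R.g (R.g + R.s)) ⊆
      (Finset.Icc R.f₁ R.f₂).biUnion (fun x => R.wcell x (L x)) := by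
    intro z hz
    simp only [Finset.mem_sdiff, Finset.mem_Icc, Finset.mem_Ico] at hz
    obtain ⟨x, l, h⟩ := R.LR_hit hL hz.1.1 hz.1.2 hz.2
    rw [Finset.mem_biUnion]
    exact ⟨x, Finset.mem_Icc.2 ⟨h.1, h.2.1⟩, R.mem_wcell h⟩
  have h2 := (Finset.card_le_card h1).trans Finset.card_biUnion_le
  have h3 : Finset.Ico R.g (R.g + R.s) ⊆ Finset.Icc R.f₁ R.f₂ := by
    intro z hz
    simp only [Finset.mem_Icc, Finset.mem_Ico] at hz ⊢
    have := R.hf₁; have := R.hf₂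
    omega
  rw [Finset.card_sdiff_of_subset h3] at h2
  have h4 : ((∑ x ∈ Finset.Icc R.f₁ R.f₂, (R.wcell x (L x)).card : ℕ) : ℤ) ≤
      ∑ x ∈ Finset.Icc R.f₁ R.f₂, (1 - R.psi x (L x)) := by
    push_cast
    apply Finset.sum_le_sum
    intro x hx
    rw [Finset.mem_Icc] at hx
    exact R.card_wcell hx.1 hx.2
  rw [Finset.sum_sub_distrib] at h4
  simp only [Finset.sum_const, Int.card_Icc, Int.card_Ico, nsmul_eq_mul, mul_one] at h2 h4
  have := R.hf₁; have := R.hf₂; have := R.hs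
  omega

theorem TB_sum {T : ℤ → ℤ} (hT : R.TBcut T) :
    0 ≤ ∑ y ∈ Finset.Icc 1 R.w, R.psi (T y) y := by
  classical
  have h1 : (Finset.Icc 1 R.w).image R.p₁ ⊆
      (Finset.Icc 1 R.w).biUnion (fun y => R.ncell (T y) y) := by
    intro i _
    obtain ⟨y, l, h3, h4, h5⟩ := R.TB_hit hT i
    rw [Finset.mem_biUnion]
    exact ⟨y, Finset.mem_Icc.2 ⟨h3, h4⟩, R.mem_ncell h5⟩
  have h2 := (Finset.card_le_card h1).trans Finset.card_biUnion_le
  rw [Finset.card_image_of_injOn (by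
    intro y hy y' hy' h
    simp only [Finset.coe_Icc, Set.mem_Icc] at hy hy'
    exact R.inj₁ y y' hy.1 hy.2 hy'.1 hy'.2 h)] at h2
  have h4 : ((∑ y ∈ Finset.Icc 1 R.w, (R.ncell (T y) y).card : ℕ) : ℤ) ≤
      ∑ y ∈ Finset.Icc 1 R.w, (1 + R.psi (T y) y) := by
    push_cast
    apply Finset.sum_le_sum
    intro y hy
    rw [Finset.mem_Icc] at hy
    exact R.card_ncell hy.1 hy.2
  rw [Finset.sum_add_distrib] at h4
  simp only [Finset.sum_const, Int.card_Icc, nsmul_eq_mul, mul_one] at h2 h4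
  have := R.hw
  omega

theorem hflip_psi (x y : ℤ) : R.hflip.psi x y = R.psi (-x) y := by
  by_cases h : y = 0 ∨ y = R.w + 1
  · unfold psi
    rw [if_pos h, if_pos (show y = 0 ∨ y = R.hflip.w + 1 from h)]
    by_cases h2 : R.Fr (-x)
    · rw [if_pos h2, if_pos (R.hflip_Fr.2 h2)]
    · rw [if_neg h2, if_neg (fun h3 => h2 (R.hflip_Fr.1 h3))]
  · unfold psi
    rw [if_neg h, if_neg (show ¬ (y = 0 ∨ y = R.hflip.w + 1) from h)]
    simp only [hflip, isW_negr]

theorem vflip_psi (x y : ℤ) : R.vflip.psi x y = R.psi x (R.w + 1 - y) := by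
  unfold psi
  by_cases h : y = 0 ∨ y = R.w + 1
  · have h' : R.w + 1 - y = 0 ∨ R.w + 1 - y = R.w + 1 := by omega
    rw [if_pos h', if_pos (show y = 0 ∨ y = R.vflip.w + 1 from h)]
    rfl
  · have h' : ¬ (R.w + 1 - y = 0 ∨ R.w + 1 - y = R.w + 1) := by omega
    rw [if_neg h', if_neg (show ¬ (y = 0 ∨ y = R.vflip.w + 1) from h)]
    rfl

/-- joining LR paths -/
theorem LR_join {x y a b : ℤ} (h₀ : Bwd R.psi 0 (R.w + 1) R.f₁ x y a)
    (h₁ : Fwd R.psi 0 (R.w + 1) R.f₂ x y b) (hx : R.f₁ ≤ x) (hx' : x ≤ R.f₂) (hy : 0 ≤ y)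
    (hy' : y ≤ R.w + 1) : a + R.psi x y + b ≤ R.s := by
  obtain ⟨q, -, h2, h3, h4⟩ := join h₀ h₁ hy hy' hx hx'
  rw [← h4]
  exact R.LR_sum ⟨h2, h3⟩

theorem TB_join {x y a b : ℤ} (h₀ : Bwd (fun y x => R.psi x y) R.f₁ R.f₂ 1 y x a)
    (h₁ : Fwd (fun y x => R.psi x y) R.f₁ R.f₂ R.w y x b) (hx : R.f₁ ≤ x) (hx' : x ≤ R.f₂)
    (hy : 1 ≤ y) (hy' : y ≤ R.w) : 0 ≤ a + R.psi x y + b := by
  obtain ⟨q, -, h2, h3, h4⟩ := join h₀ h₁ hx hx' hy hy'
  have h5 := R.TB_sum (T := q) ⟨h2, h3⟩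
  rw [h4] at h5
  exact h5

theorem up_f₂ : ∀ (n : ℕ) (y : ℤ), 0 ≤ y → R.w - y ≤ n →
    Fwd (fun y x => R.psi x y) R.f₁ R.f₂ R.w y R.f₂ 0
  | 0, y, _, h => Fwd.nil _ _ _ _ (by simpa using h)
  | n + 1, y, h0, h => by
    by_cases hy : R.w ≤ y
    · exact Fwd.nil _ _ _ _ hy
    · have ih := up_f₂ n (y + 1) (by omega) (by push_cast at h; omega)
      have h1 := Fwd.step (p := R.f₂) ih (by omega) (by omega) (by omega)
        (by have := R.hf₁; have := R.hf₂; have := R.hs; omega) le_rfl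
      rw [R.psi_f₂ (by omega) (by omega)] at h1
      exact h1

theorem right_top : ∀ (n : ℕ) (x y : ℤ), R.w ≤ y → y ≤ R.w + 1 → R.f₂ - x ≤ n →
    ∃ m, 0 ≤ m ∧ Fwd R.psi 0 (R.w + 1) R.f₂ x y m
  | 0, x, y, _, _, h => ⟨0, le_rfl, Fwd.nil _ _ _ _ (by simpa using h)⟩
  | n + 1, x, y, h0, h1, h => by
    by_cases hx : R.f₂ ≤ x
    · exact ⟨0, le_rfl, Fwd.nil _ _ _ _ hx⟩
    · have hw := R.hw
      obtain ⟨m, hm, h2⟩ := right_top n (x + 1) (R.w + 1) (by omega) le_rfl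
        (by push_cast at h; omega)
      refine ⟨_, ?_, Fwd.step (p := y) h2 (by omega) (by omega) (by omega) (by omega) le_rfl⟩
      have := R.psi_top_nonneg (x + 1)
      omega

/-- diagonals going up to the right -/
theorem diag_right : ∀ (n : ℕ) (x y : ℤ), 0 ≤ y → y ≤ R.w + 1 → R.f₁ ≤ x → x ≤ R.f₂ →
    R.w - y ≤ n → ∃ δ, (∃ k, k ≤ δ ∧ Fwd (fun y x => R.psi x y) R.f₁ R.f₂ R.w y x k) ∧
      (∃ m, δ ≤ m ∧ Fwd R.psi 0 (R.w + 1) R.f₂ x y m)
  | 0, x, y, h1, h2, _, _, h => by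
    have h : R.w ≤ y := by simpa using h
    obtain ⟨m, hm, h3⟩ := R.right_top (R.f₂ - x).toNat x y h h2 (by omega)
    exact ⟨0, ⟨0, le_rfl, Fwd.nil _ _ _ _ h⟩, ⟨m, hm, h3⟩⟩
  | n + 1, x, y, h1, h2, h3, h4, h => by
    by_cases hy : R.w ≤ y
    · obtain ⟨m, hm, h3⟩ := R.right_top (R.f₂ - x).toNat x y hy h2 (by omega)
      exact ⟨0, ⟨0, le_rfl, Fwd.nil _ _ _ _ hy⟩, ⟨m, hm, h3⟩⟩
    by_cases hx : x = R.f₂
    · subst hx
      exact ⟨0, ⟨0, le_rfl, R.up_f₂ (R.w - y).toNat y h1 (by omega)⟩,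
        ⟨0, le_rfl, Fwd.nil _ _ _ _ le_rfl⟩⟩
    · obtain ⟨δ, ⟨k, hk, h5⟩, ⟨m, hm, h6⟩⟩ := diag_right n (x + 1) (y + 1) (by omega) (by omega)
        (by omega) (by omega) (by push_cast at h; omega)
      refine ⟨R.psi (x + 1) (y + 1) + δ, ⟨_, ?_, Fwd.step (p := x) h5 (by omega) (by omega)
        (by omega) (by omega) (by omega)⟩, ⟨_, ?_, Fwd.step (p := y) h6 (by omega) (by omega)
        (by omega) (by omega) (by omega)⟩⟩
      · omega
      · omega

/-- diagonals going up to the left -/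
theorem diag_left (x y : ℤ) (h1 : 0 ≤ y) (h2 : y ≤ R.w + 1) (h3 : R.f₁ ≤ x) (h4 : x ≤ R.f₂) :
    ∃ δ, (∃ k, k ≤ δ ∧ Fwd (fun y x => R.psi x y) R.f₁ R.f₂ R.w y x k) ∧
      (∃ m, δ ≤ m ∧ Bwd R.psi 0 (R.w + 1) R.f₁ x y m) := by
  obtain ⟨δ, ⟨k, hk, h5⟩, ⟨m, hm, h6⟩⟩ := R.hflip.diag_right (R.w - y).toNat (-x) y h1 h2
    (by simp only [hflip]; omega) (by simp only [hflip]; omega) (by simp only [hflip]; omega)
  refine ⟨δ, ⟨k, hk, ?_⟩, ⟨m, hm, ?_⟩⟩
  · have h7 := h5.neg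
    simp only [hflip_psi, neg_neg] at h7
    simpa only [hflip, neg_neg] using h7
  · have e : (fun a b => R.psi (-a) b) = R.hflip.psi := by
      funext a b; rw [hflip_psi]
    unfold Bwd
    rw [e]
    exact h6

theorem up_nonpos : ∀ (n : ℕ) (x y : ℤ), 0 ≤ y → y ≤ R.w → R.f₁ ≤ x → x ≤ R.f₂ →
    R.w - y ≤ n → ∃ k, k ≤ 0 ∧ Fwd (fun y x => R.psi x y) R.f₁ R.f₂ R.w y x k
  | 0, x, y, _, _, _, _, h => ⟨0, le_rfl, Fwd.nil _ _ _ _ (by simpa using h)⟩
  | n + 1, x, y, h1, h2, h3, h4, h => by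
    by_cases hy : R.w ≤ y
    · exact ⟨0, le_rfl, Fwd.nil _ _ _ _ hy⟩
    have ih : ∀ x', R.f₁ ≤ x' → x' ≤ R.f₂ → ∃ k, k ≤ 0 ∧
        Fwd (fun y x => R.psi x y) R.f₁ R.f₂ R.w (y + 1) x' k := fun x' h5 h6 =>
      up_nonpos n x' (y + 1) (by omega) (by omega) h5 h6 (by push_cast at h; omega)
    have key : ∀ x', R.f₁ ≤ x' → x' ≤ R.f₂ → x - 1 ≤ x' → x' ≤ x + 1 → R.psi x' (y + 1) ≤ 0 →
        ∃ k, k ≤ 0 ∧ Fwd (fun y x => R.psi x y) R.f₁ R.f₂ R.w y x k := by
      intro x' h5 h6 h7 h8 h9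
      obtain ⟨k, hk, hf⟩ := ih x' h5 h6
      refine ⟨_, ?_, Fwd.step (p := x) hf (by omega) (by omega) (by omega) h5 h6⟩
      omega
    by_cases c0 : R.psi x (y + 1) ≤ 0
    · exact key x h3 h4 (by omega) (by omega) c0
    have e1 : x ≠ R.f₁ := by
      rintro rfl
      exact c0 (R.psi_f₁ (by omega) (by omega)).le
    have e2 : x ≠ R.f₂ := by
      rintro rfl
      exact c0 (R.psi_f₂ (by omega) (by omega)).le
    by_cases c1 : R.psi (x - 1) (y + 1) ≤ 0
    · exact key (x - 1) (by omega) (by omega) (by omega) (by omega) c1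
    by_cases c2 : R.psi (x + 1) (y + 1) ≤ 0
    · exact key (x + 1) (by omega) (by omega) (by omega) (by omega) c2
    obtain ⟨δ, ⟨k, hk, h5⟩, ⟨m, hm, h6⟩⟩ := R.diag_left (x - 1) (y + 1) (by omega) (by omega)
      (by omega) (by omega)
    obtain ⟨δ', ⟨k', hk', h5'⟩, ⟨m', hm', h6'⟩⟩ := R.diag_right (R.w - y).toNat (x + 1) (y + 1)
      (by omega) (by omega) (by omega) (by omega) (by omega)
    have a1 := Bwd.step (p := y + 1) (t := x) h6 (by omega) (by omega) (by omega) (by omega)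
      (by omega)
    have a2 := Fwd.step (p := y + 1) h6' (by omega) (by omega) (by omega) (by omega) (by omega)
    have a3 := R.LR_join a1 a2 h3 h4 (by omega) (by omega)
    have hs := R.hs
    have p0 := R.psi_le x (y + 1)
    have p1 := R.psi_le (x - 1) (y + 1)
    have p2 := R.psi_le (x + 1) (y + 1)
    rcases (show k ≤ -1 ∨ k' ≤ -1 by omega) with hh | hh
    · refine ⟨_, ?_, Fwd.step (p := x) h5 (by omega) (by omega) (by omega) (by omega) (by omega)⟩
      omega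
    · refine ⟨_, ?_, Fwd.step (p := x) h5' (by omega) (by omega) (by omega) (by omega)
        (by omega)⟩
      omega

theorem down_nonpos (x y : ℤ) (h1 : 1 ≤ y) (h2 : y ≤ R.w + 1) (h3 : R.f₁ ≤ x)
    (h4 : x ≤ R.f₂) : ∃ k, k ≤ 0 ∧ Bwd (fun y x => R.psi x y) R.f₁ R.f₂ 1 y x k := by
  obtain ⟨k, hk, h⟩ := R.vflip.up_nonpos R.w.toNat x (R.w + 1 - y) (by omega)
    (by simp only [vflip]; omega) h3 h4 (by simp only [vflip]; omega)
  refine ⟨k, hk, ?_⟩
  simp only [vflip_psi] at h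
  simp only [vflip] at h
  unfold Bwd
  have h5 := Fwd.shift (c := fun a b => R.psi b (-a)) (-(R.w + 1)) (t₁ := R.w)
    (t := R.w + 1 - y) (lo := R.f₁) (hi := R.f₂) (p := x) (k := k) (by
      have e : (fun z : ℤ => (fun a b => R.psi b (-a)) (z + -(R.w + 1))) =
          (fun y x => R.psi x (R.w + 1 - y)) := by
        funext z b
        have : -(z + -(R.w + 1)) = R.w + 1 - z := by ring
        dsimp only
        rw [this]
      rw [e]
      exact h)
  have e1 : R.w + -(R.w + 1) = -1 := by ring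
  have e2 : R.w + 1 - y + -(R.w + 1) = -y := by ring
  rw [e1, e2] at h5
  exact h5

/-- No cell contains two wall vertices. -/
theorem psi_nonneg {x y : ℤ} (h1 : 0 ≤ y) (h2 : y ≤ R.w + 1) (h3 : R.f₁ ≤ x)
    (h4 : x ≤ R.f₂) : 0 ≤ R.psi x y := by
  by_cases c1 : y = 0
  · subst c1; exact R.psi_bot_nonneg x
  by_cases c2 : y = R.w + 1
  · subst c2; exact R.psi_top_nonneg x
  obtain ⟨k, hk, h5⟩ := R.up_nonpos R.w.toNat x y h1 (by omega) h3 h4 (by omega)
  obtain ⟨k', hk', h6⟩ := R.down_nonpos x y (by omega) h2 h3 h4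
  have := R.TB_join h6 h5 h3 h4 (by omega) (by omega)
  omega

end Region

end Pool.Agent.Helper64_Chan
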