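import Pool.Agent.Helper64_Chan.Paths

/-!
# Regions of a channel layout between two rigid columns
-/

namespace Pool.Agent.Helper64_Chan

/-- Vertices of the grid: column, track, layer. -/
abbrev Vx : Type := ℤ × ℤ × Bool

/-- Unit steps in the cubic grid. -/
def Nb (u v : Vx) : Prop :=
  (v.1 = u.1 ∧ v.2.1 = u.2.1 ∧ v.2.2 = !u.2.2) ∨
  (v.2.2 = u.2.2 ∧ v.1 = u.1 ∧ (v.2.1 = u.2.1 + 1 ∨ v.2.1 = u.2.1 - 1)) ∨
  (v.2.2 = u.2.2 ∧ v.2.1 = u.2.1 ∧ (v.1 = u.1 + 1 ∨ v.1 = u.1 - 1))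

theorem cross_rtg {r : Vx → Vx → Prop} {u v : Vx} (h : Relation.ReflTransGen r u v)
    (A : Vx → Prop) (hu : A u) (hv : ¬ A v) : ∃ a b, Relation.ReflTransGen r u a ∧ r a b ∧
      A a ∧ ¬ A b := by
  induction h with
  | refl => exact absurd hu hv
  | @tail b c hab hbc ih =>
    by_cases hb : A b
    · exact ⟨b, c, hab, hbc, hb, hv⟩
    · exact ih hb

theorem rtg_map {α β : Type} {r : α → α → Prop} {p : β → β → Prop} (f : α → β)
    (h : ∀ a b, r a b → p (f a) (f b)) {a b : α} (hab : Relation.ReflTransGen r a b) :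
    Relation.ReflTransGen p (f a) (f b) := by
  induction hab with
  | refl => exact Relation.ReflTransGen.refl
  | tail _ h2 ih => exact ih.tail (h _ _ h2)

/-- A part of a layout of width `w`, between the two columns `f₁ < f₂` in which the passing nets
(indexed by `ι`) each have one vertex and run on one layer, while the other layer is used by a
straight net.  The free columns are `g, …, g + s - 1`; all other columns `x` carry a net with
name `x` having its terminals at both ends of column `x`. -/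
structure Region (ι : Type) where
  w : ℤ
  f₁ : ℤ
  f₂ : ℤ
  g : ℤ
  s : ℤ
  own : Vx → Option (ι ⊕ ℤ)
  tp : ℤ → ι
  bt : ℤ → ι
  p₁ : ℤ → ι
  p₂ : ℤ → ι
  m₁ : Bool
  m₂ : Bool
  hw : 1 ≤ w
  hs : s = 1 ∨ s = 2
  hf₁ : f₁ < g
  hf₂ : g + s ≤ f₂
  top_wall : ∀ x l, f₁ ≤ x → x ≤ f₂ → ¬ (g ≤ x ∧ x < g + s) → own (x, w + 1, l) = some (.inr x)
  bot_wall : ∀ x l, f₁ ≤ x → x ≤ f₂ → ¬ (g ≤ x ∧ x < g + s) → own (x, 0, l) = some (.inr x)
  top_free : ∀ x l, g ≤ x → x < g + s → own (x, w + 1, l) = some (.inl (tp x))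
  bot_free : ∀ x l, g ≤ x → x < g + s → own (x, 0, l) = some (.inl (bt x))
  tp_ne : ∀ x, g ≤ x → x + 1 < g + s → tp x ≠ tp (x + 1)
  bt_ne : ∀ x, g ≤ x → x + 1 < g + s → bt x ≠ bt (x + 1)
  inj₁ : ∀ y y', 1 ≤ y → y ≤ w → 1 ≤ y' → y' ≤ w → p₁ y = p₁ y' → y = y'
  inj₂ : ∀ y y', 1 ≤ y → y ≤ w → 1 ≤ y' → y' ≤ w → p₂ y = p₂ y' → y = y'
  surj₁ : ∀ i, ∃ y, 1 ≤ y ∧ y ≤ w ∧ p₁ y = i
  surj₂ : ∀ i, ∃ y, 1 ≤ y ∧ y ≤ w ∧ p₂ y = i
  wall₁ : ∀ y, 1 ≤ y → y ≤ w → own (f₁, y, !m₁) = some (.inr f₁)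
  wall₂ : ∀ y, 1 ≤ y → y ≤ w → own (f₂, y, !m₂) = some (.inr f₂)
  col₁ : ∀ y, 1 ≤ y → y ≤ w → own (f₁, y, m₁) = some (.inl (p₁ y))
  col₂ : ∀ y, 1 ≤ y → y ≤ w → own (f₂, y, m₂) = some (.inl (p₂ y))
  wall_mem : ∀ x y l z, f₁ ≤ x → x ≤ f₂ → 0 ≤ y → y ≤ w + 1 → own (x, y, l) = some (.inr z) →
    f₁ ≤ z ∧ z ≤ f₂ ∧ ¬ (g ≤ z ∧ z < g + s)
  conn : ∀ o (u v : Vx), (f₁ ≤ u.1 ∧ u.1 ≤ f₂ ∧ 0 ≤ u.2.1 ∧ u.2.1 ≤ w + 1 ∧ own u = some o) →
    (f₁ ≤ v.1 ∧ v.1 ≤ f₂ ∧ 0 ≤ v.2.1 ∧ v.2.1 ≤ w + 1 ∧ own v = some o) →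
    Relation.ReflTransGen (fun a b => Nb a b ∧
      (f₁ ≤ b.1 ∧ b.1 ≤ f₂ ∧ 0 ≤ b.2.1 ∧ b.2.1 ≤ w + 1 ∧ own b = some o)) u v

namespace Region

variable {ι : Type} (R : Region ι)

/-- membership of a vertex in the part of a net inside the region -/
def Mem (o : ι ⊕ ℤ) (u : Vx) : Prop :=
  R.f₁ ≤ u.1 ∧ u.1 ≤ R.f₂ ∧ 0 ≤ u.2.1 ∧ u.2.1 ≤ R.w + 1 ∧ R.own u = some o

theorem Mem.eq {R : Region ι} {o o' : ι ⊕ ℤ} {u : Vx} (h : R.Mem o u) (h' : R.Mem o' u) :
    o = o' := by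
  have h1 := h.2.2.2.2
  have h2 := h'.2.2.2.2
  rw [h1] at h2
  exact Option.some.inj h2

theorem cross {o : ι ⊕ ℤ} {u v : Vx} (hu : R.Mem o u) (hv : R.Mem o v) (A : Vx → Prop)
    (hAu : A u) (hAv : ¬ A v) :
    ∃ a b, R.Mem o a ∧ R.Mem o b ∧ Nb a b ∧ A a ∧ ¬ A b := by
  obtain ⟨a, b, h1, h2, h3, h4⟩ := cross_rtg (R.conn o u v hu hv) A hAu hAv
  refine ⟨a, b, ?_, h2.2, h2.1, h3, h4⟩
  rcases Relation.ReflTransGen.cases_tail h1 with h | ⟨c, -, hc⟩
  · rw [h]; exact hu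
  · exact hc.2

/-- free columns -/
def Fr (x : ℤ) : Prop := R.g ≤ x ∧ x < R.g + R.s

theorem mem_p₁ {y : ℤ} (h1 : 1 ≤ y) (h2 : y ≤ R.w) : R.Mem (.inl (R.p₁ y)) (R.f₁, y, R.m₁) :=
  ⟨le_rfl, by have := R.hf₁; have := R.hf₂; have := R.hs; dsimp only; omega,
    by dsimp only; omega, by dsimp only; omega, R.col₁ y h1 h2⟩

theorem mem_p₂ {y : ℤ} (h1 : 1 ≤ y) (h2 : y ≤ R.w) : R.Mem (.inl (R.p₂ y)) (R.f₂, y, R.m₂) :=
  ⟨by have := R.hf₁; have := R.hf₂; have := R.hs; dsimp only; omega, le_rfl,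
    by dsimp only; omega, by dsimp only; omega, R.col₂ y h1 h2⟩

theorem mem_top {x : ℤ} (h1 : R.f₁ ≤ x) (h2 : x ≤ R.f₂) (h : ¬ R.Fr x) (l : Bool) :
    R.Mem (.inr x) (x, R.w + 1, l) :=
  ⟨h1, h2, by have := R.hw; dsimp only; omega, le_rfl, R.top_wall x l h1 h2 h⟩

theorem mem_bot {x : ℤ} (h1 : R.f₁ ≤ x) (h2 : x ≤ R.f₂) (h : ¬ R.Fr x) (l : Bool) :
    R.Mem (.inr x) (x, 0, l) :=
  ⟨h1, h2, le_rfl, by have := R.hw; dsimp only; omega, R.bot_wall x l h1 h2 h⟩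

theorem mem_tp {x : ℤ} (h : R.Fr x) (l : Bool) : R.Mem (.inl (R.tp x)) (x, R.w + 1, l) :=
  ⟨by have := R.hf₁; have := h.1; dsimp only; omega, by
    have := R.hf₂; have := h.2; dsimp only; omega, by have := R.hw; dsimp only; omega, le_rfl,
    R.top_free x l h.1 h.2⟩

theorem mem_bt {x : ℤ} (h : R.Fr x) (l : Bool) : R.Mem (.inl (R.bt x)) (x, 0, l) :=
  ⟨by have := R.hf₁; have := h.1; dsimp only; omega, by
    have := R.hf₂; have := h.2; dsimp only; omega, le_rfl, by have := R.hw; dsimp only; omega,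
    R.bot_free x l h.1 h.2⟩

/-- If a passing net owns a boundary vertex, it is a terminal in a free column. -/
theorem of_mem_bot {i : ι} {x : ℤ} {l : Bool} (h : R.Mem (.inl i) (x, 0, l)) :
    R.Fr x ∧ R.bt x = i := by
  by_cases hx : R.Fr x
  · refine ⟨hx, ?_⟩
    have := (R.mem_bt hx l).eq h
    exact Sum.inl.inj this
  · have := (R.mem_bot h.1 h.2.1 hx l).eq h
    cases this

theorem of_mem_top {i : ι} {x : ℤ} {l : Bool} (h : R.Mem (.inl i) (x, R.w + 1, l)) :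
    R.Fr x ∧ R.tp x = i := by
  by_cases hx : R.Fr x
  · refine ⟨hx, ?_⟩
    have := (R.mem_tp hx l).eq h
    exact Sum.inl.inj this
  · have := (R.mem_top h.1 h.2.1 hx l).eq h
    cases this

theorem wall_of_mem_bot {z : ℤ} {x : ℤ} {l : Bool} (h : R.Mem (.inr z) (x, 0, l)) :
    ¬ R.Fr x ∧ x = z := by
  by_cases hx : R.Fr x
  · have := (R.mem_bt hx l).eq h
    cases this
  · refine ⟨hx, ?_⟩
    have := (R.mem_bot h.1 h.2.1 hx l).eq h
    exact Sum.inr.inj this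

theorem wall_of_mem_top {z : ℤ} {x : ℤ} {l : Bool} (h : R.Mem (.inr z) (x, R.w + 1, l)) :
    ¬ R.Fr x ∧ x = z := by
  by_cases hx : R.Fr x
  · have := (R.mem_tp hx l).eq h
    cases this
  · refine ⟨hx, ?_⟩
    have := (R.mem_top h.1 h.2.1 hx l).eq h
    exact Sum.inr.inj this

/-- Two horizontally adjacent boundary vertices never belong to the same net. -/
theorem bot_adj {i : ι} {x : ℤ} {l l' : Bool} (h : R.Mem (.inl i) (x, 0, l))
    (h' : R.Mem (.inl i) (x + 1, 0, l')) : False := by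
  obtain ⟨h1, h2⟩ := R.of_mem_bot h
  obtain ⟨h3, h4⟩ := R.of_mem_bot h'
  exact R.bt_ne x h1.1 h3.2 (h2.trans h4.symm)

theorem top_adj {i : ι} {x : ℤ} {l l' : Bool} (h : R.Mem (.inl i) (x, R.w + 1, l))
    (h' : R.Mem (.inl i) (x + 1, R.w + 1, l')) : False := by
  obtain ⟨h1, h2⟩ := R.of_mem_top h
  obtain ⟨h3, h4⟩ := R.of_mem_top h'
  exact R.tp_ne x h1.1 h3.2 (h2.trans h4.symm)

/-- A Lipschitz cut from left to right. -/
def LRcut (L : ℤ → ℤ) : Prop :=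
  (∀ x, R.f₁ ≤ x → x < R.f₂ → L (x + 1) ≤ L x + 1 ∧ L x ≤ L (x + 1) + 1) ∧
  (∀ x, R.f₁ ≤ x → x ≤ R.f₂ → 0 ≤ L x ∧ L x ≤ R.w + 1)

theorem LR_hit {L : ℤ → ℤ} (hL : R.LRcut L) {z : ℤ} (h1 : R.f₁ ≤ z) (h2 : z ≤ R.f₂)
    (hz : ¬ R.Fr z) : ∃ x l, R.Mem (.inr z) (x, L x, l) := by
  have hb := hL.2 z h1 h2
  rcases eq_or_lt_of_le hb.1 with h | h
  · exact ⟨z, false, by rw [← h]; exact R.mem_bot h1 h2 hz false⟩
  obtain ⟨⟨x, y, l⟩, ⟨x', y', l'⟩, ha, hb', hn, hA, hB⟩ := R.cross (R.mem_bot h1 h2 hz false)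
    (R.mem_top h1 h2 hz false) (fun v => v.2.1 < L v.1) (by simpa using h)
    (by dsimp only; omega)
  simp only [not_lt] at hA hB
  rcases hn with ⟨e1, e2, -⟩ | ⟨e1, e2, e3⟩ | ⟨e1, e2, e3⟩
  · simp only at e1 e2; subst e1 e2; omega
  · simp only at e1 e2 e3; subst e1 e2
    refine ⟨x', l', ?_⟩
    have : y' = L x' := by omega
    rw [← this]; exact hb'
  · simp only at e1 e2 e3; subst e1 e2
    refine ⟨x', l', ?_⟩
    have h3 := ha.1; have h4 := ha.2.1; have h5 := hb'.1; have h6 := hb'.2.1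
    simp only at h3 h4 h5 h6
    have : y' = L x' := by
      rcases e3 with rfl | rfl
      · have := hL.1 x h3 (by omega); omega
      · have := hL.1 (x - 1) h5 (by omega)
        rw [sub_add_cancel] at this; omega
    rw [← this]; exact hb'

/-- A Lipschitz cut from bottom to top (only the rows `1, …, w` matter). -/
def TBcut (T : ℤ → ℤ) : Prop :=
  (∀ y, 1 ≤ y → y < R.w → T (y + 1) ≤ T y + 1 ∧ T y ≤ T (y + 1) + 1) ∧
  (∀ y, 1 ≤ y → y ≤ R.w → R.f₁ ≤ T y ∧ T y ≤ R.f₂)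

/-- extension of a cut to the boundary rows -/
def ext (T : ℤ → ℤ) (y : ℤ) : ℤ := if y = 0 then T 1 else if y = R.w + 1 then T R.w else T y

theorem ext_of {T : ℤ → ℤ} {y : ℤ} (h1 : 1 ≤ y) (h2 : y ≤ R.w) : R.ext T y = T y := by
  unfold ext
  rw [if_neg (by omega), if_neg (by omega)]

theorem ext_step {T : ℤ → ℤ} (hT : R.TBcut T) {y : ℤ} (h1 : 0 ≤ y) (h2 : y ≤ R.w) :
    R.ext T (y + 1) ≤ R.ext T y + 1 ∧ R.ext T y ≤ R.ext T (y + 1) + 1 := by
  have hw := R.hw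
  unfold ext
  rcases eq_or_lt_of_le h1 with rfl | h1
  · rw [if_neg (by omega : ¬ (0 + 1 : ℤ) = 0), if_neg (by omega : ¬ (0 + 1 : ℤ) = R.w + 1),
      if_pos rfl]
    norm_num
  · rcases eq_or_lt_of_le h2 with rfl | h2
    · rw [if_neg (by omega : ¬ (R.w + 1 : ℤ) = 0), if_pos rfl, if_neg (by omega),
        if_neg (by omega)]
      omega
    · rw [if_neg (by omega : ¬ (y + 1 : ℤ) = 0), if_neg (by omega : ¬ (y + 1 : ℤ) = R.w + 1),
        if_neg (by omega), if_neg (by omega)]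
      exact hT.1 y (by omega) h2

theorem ext_zero (T : ℤ → ℤ) : R.ext T 0 = T 1 := by simp [ext]

theorem ext_top (T : ℤ → ℤ) : R.ext T (R.w + 1) = T R.w := by
  have := R.hw
  unfold ext
  rw [if_neg (by omega), if_pos rfl]

/-- Exit lemma: a passing net leaves a cut to the right. -/
theorem exit' {T : ℤ → ℤ} (hT : R.TBcut T) (i : ι)
    (hTr : ∀ y, 1 ≤ y → y ≤ R.w → R.p₂ y = i → T y < R.f₂) :
    ∃ y l, 1 ≤ y ∧ y ≤ R.w ∧ R.Mem (.inl i) (T y, y, l) ∧
      (R.Mem (.inl i) (T y + 1, y, l) ∨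
        (y + 1 ≤ R.w ∧ T (y + 1) = T y - 1 ∧ R.Mem (.inl i) (T y, y + 1, l)) ∨
        (1 ≤ y - 1 ∧ T (y - 1) = T y - 1 ∧ R.Mem (.inl i) (T y, y - 1, l))) := by
  obtain ⟨y₁, h1, h2, rfl⟩ := R.surj₁ i
  obtain ⟨y₂, h3, h4, h5⟩ := R.surj₂ (R.p₁ y₁)
  have hm := R.mem_p₂ h3 h4
  rw [h5] at hm
  have hw := R.hw
  have e0 := R.ext_zero T
  have e1 := R.ext_of (T := T) le_rfl hw
  have e2 := R.ext_of (T := T) hw le_rfl
  have e3 := R.ext_top T
  obtain ⟨⟨x, y, l⟩, ⟨x', y', l'⟩, ha, hb', hn, hA, hB⟩ := R.cross (R.mem_p₁ h1 h2)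
    hm (fun v => v.1 ≤ R.ext T v.2.1) (by
      dsimp only
      rw [R.ext_of h1 h2]
      exact (hT.2 y₁ h1 h2).1) (by
      dsimp only
      rw [R.ext_of h3 h4, not_le]
      exact hTr y₂ h3 h4 h5)
  simp only [not_le] at hA hB
  have b1 := ha.2.2.1; have b2 := ha.2.2.2.1; have b3 := hb'.2.2.1; have b4 := hb'.2.2.2.1
  simp only at b1 b2 b3 b4
  rcases hn with ⟨e1, e2, -⟩ | ⟨e1, e2, e3⟩ | ⟨e1, e2, e3⟩
  · simp only at e1 e2; subst e1 e2; omega
  · -- vertical step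
    simp only at e1 e2 e3; subst e1 e2
    rcases e3 with rfl | rfl
    · have h6 := R.ext_step hT (y := y) b1 (by omega)
      have h7 : x' = R.ext T y := by omega
      have h8 : R.ext T (y + 1) = R.ext T y - 1 := by omega
      have h9 : 1 ≤ y := by
        by_contra hc
        have : y = 0 := by omega
        subst this
        rw [zero_add] at h8
        omega
      have h10 : y + 1 ≤ R.w := by
        by_contra hc
        have : y = R.w := by omega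
        subst this
        omega
      rw [R.ext_of h9 (by omega)] at h7 h8
      rw [R.ext_of (by omega) h10] at h8
      subst h7
      exact ⟨y, l', h9, by omega, ha, Or.inr (Or.inl ⟨h10, h8, hb'⟩)⟩
    · have h6 := R.ext_step hT (y := y - 1) b3 (by omega)
      rw [sub_add_cancel] at h6
      have h7 : x' = R.ext T y := by omega
      have h8 : R.ext T (y - 1) = R.ext T y - 1 := by omega
      have h9 : y ≤ R.w := by
        by_contra hc
        have : y = R.w + 1 := by omega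
        subst this
        rw [add_sub_cancel_right] at h8
        omega
      have h10 : 1 ≤ y - 1 := by
        by_contra hc
        have : y = 1 := by omega
        subst this
        rw [sub_self] at h8
        omega
      rw [R.ext_of (by omega) h9] at h7 h8
      rw [R.ext_of h10 (by omega)] at h8
      subst h7
      exact ⟨y, l', by omega, h9, ha, Or.inr (Or.inr ⟨h10, h8, hb'⟩)⟩
  · simp only at e1 e2 e3; subst e1 e2
    have h7 : x' = x + 1 := by omega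
    have h8 : x = R.ext T y' := by omega
    subst h7
    have h9 : 1 ≤ y' := by
      by_contra hc
      have : y' = 0 := by omega
      subst this
      exact R.bot_adj ha hb'
    have h10 : y' ≤ R.w := by
      by_contra hc
      have : y' = R.w + 1 := by omega
      subst this
      exact R.top_adj ha hb'
    rw [R.ext_of h9 h10] at h8
    subst h8
    exact ⟨y', l', h9, h10, ha, Or.inl hb'⟩

/-- Every passing net meets every bottom-to-top cut. -/
theorem TB_hit {T : ℤ → ℤ} (hT : R.TBcut T) (i : ι) :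
    ∃ y l, 1 ≤ y ∧ y ≤ R.w ∧ R.Mem (.inl i) (T y, y, l) := by
  obtain ⟨y₂, h3, h4, rfl⟩ := R.surj₂ i
  by_cases h : T y₂ = R.f₂
  · exact ⟨y₂, R.m₂, h3, h4, by rw [h]; exact R.mem_p₂ h3 h4⟩
  · obtain ⟨y, l, h5, h6, h7, -⟩ := R.exit' hT (R.p₂ y₂) (by
      intro y h5 h6 h7
      have := R.inj₂ y y₂ h5 h6 h3 h4 h7
      subst this
      have := (hT.2 y h5 h6).2
      omega)
    exact ⟨y, l, h5, h6, h7⟩

/-! ### Symmetries -/

theorem nb_hflip {a b : Vx} (h : Nb a b) : Nb (-a.1, a.2) (-b.1, b.2) := by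
  rcases h with ⟨e1, e2, e3⟩ | ⟨e1, e2, e3⟩ | ⟨e1, e2, e3⟩
  · exact Or.inl ⟨by simp only; rw [e1], e2, e3⟩
  · exact Or.inr (Or.inl ⟨e1, by simp only; rw [e2], e3⟩)
  · exact Or.inr (Or.inr ⟨e1, e2, by simp only; omega⟩)

theorem nb_vflip {a b : Vx} (w : ℤ) (h : Nb a b) :
    Nb (a.1, w + 1 - a.2.1, a.2.2) (b.1, w + 1 - b.2.1, b.2.2) := by
  rcases h with ⟨e1, e2, e3⟩ | ⟨e1, e2, e3⟩ | ⟨e1, e2, e3⟩
  · exact Or.inl ⟨e1, by simp only; rw [e2], e3⟩
  · exact Or.inr (Or.inl ⟨e1, e2, by simp only; omega⟩)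
  · exact Or.inr (Or.inr ⟨e1, by simp only; rw [e2], e3⟩)

/-- reflection of names of nets -/
def negr : ι ⊕ ℤ → ι ⊕ ℤ := Sum.map id (fun z => -z)

theorem negr_negr (o : ι ⊕ ℤ) : negr (negr o) = o := by
  rcases o with i | z <;> simp [negr]

theorem map_negr_eq {o : Option (ι ⊕ ℤ)} {o' : ι ⊕ ℤ} :
    o.map negr = some o' ↔ o = some (negr o') := by
  constructor
  · intro h
    rcases o with _ | o
    · cases h
    · simp only [Option.map_some, Option.some.injEq] at h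
      rw [← h, negr_negr]
  · intro h
    rw [h, Option.map_some, negr_negr]

/-- left-right mirror image -/
def hflip : Region ι where
  w := R.w
  f₁ := -R.f₂
  f₂ := -R.f₁
  g := 1 - R.g - R.s
  s := R.s
  own := fun v => (R.own (-v.1, v.2)).map negr
  tp := fun x => R.tp (-x)
  bt := fun x => R.bt (-x)
  p₁ := R.p₂
  p₂ := R.p₁
  m₁ := R.m₂
  m₂ := R.m₁
  hw := R.hw
  hs := R.hs
  hf₁ := by have := R.hf₂; omega
  hf₂ := by have := R.hf₁; omega
  top_wall := by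
    intro x l h1 h2 h3
    rw [map_negr_eq]
    exact R.top_wall (-x) l (by omega) (by omega) (by omega)
  bot_wall := by
    intro x l h1 h2 h3
    rw [map_negr_eq]
    exact R.bot_wall (-x) l (by omega) (by omega) (by omega)
  top_free := by
    intro x l h1 h2
    rw [map_negr_eq]
    exact R.top_free (-x) l (by omega) (by omega)
  bot_free := by
    intro x l h1 h2
    rw [map_negr_eq]
    exact R.bot_free (-x) l (by omega) (by omega)
  tp_ne := by
    intro x h1 h2 h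
    have := R.tp_ne (-(x + 1)) (by omega) (by omega)
    have e : -(x + 1) + 1 = -x := by ring
    rw [e] at this
    exact this h.symm
  bt_ne := by
    intro x h1 h2 h
    have := R.bt_ne (-(x + 1)) (by omega) (by omega)
    have e : -(x + 1) + 1 = -x := by ring
    rw [e] at this
    exact this h.symm
  inj₁ := R.inj₂
  inj₂ := R.inj₁
  surj₁ := R.surj₂
  surj₂ := R.surj₁
  wall₁ := by
    intro y h1 h2
    rw [map_negr_eq]
    simp only [neg_neg]
    rw [R.wall₂ y h1 h2]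
    simp [negr]
  wall₂ := by
    intro y h1 h2
    rw [map_negr_eq]
    simp only [neg_neg]
    rw [R.wall₁ y h1 h2]
    simp [negr]
  col₁ := by
    intro y h1 h2
    rw [map_negr_eq]
    simp only [neg_neg]
    rw [R.col₂ y h1 h2]
    simp [negr]
  col₂ := by
    intro y h1 h2
    rw [map_negr_eq]
    simp only [neg_neg]
    rw [R.col₁ y h1 h2]
    simp [negr]
  wall_mem := by
    intro x y l z h1 h2 h3 h4 h5
    rw [map_negr_eq] at h5
    have := R.wall_mem (-x) y l (-z) (by omega) (by omega) h3 h4 h5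
    omega
  conn := by
    intro o u v hu hv
    have h := R.conn (negr o) (-u.1, u.2) (-v.1, v.2)
      ⟨by have := hu.2.1; dsimp only; omega, by have := hu.1; dsimp only; omega, hu.2.2.1,
        hu.2.2.2.1, map_negr_eq.1 hu.2.2.2.2⟩
      ⟨by have := hv.2.1; dsimp only; omega, by have := hv.1; dsimp only; omega, hv.2.2.1,
        hv.2.2.2.1, map_negr_eq.1 hv.2.2.2.2⟩
    have h2 := rtg_map (p := fun a b => Nb a b ∧ (-R.f₂ ≤ b.1 ∧
        b.1 ≤ -R.f₁ ∧ 0 ≤ b.2.1 ∧ b.2.1 ≤ R.w + 1 ∧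
        (R.own (-b.1, b.2)).map negr = some o)) (fun v : Vx => ((-v.1, v.2) : Vx)) (by
      intro a b hab
      refine ⟨nb_hflip hab.1, ?_, ?_, hab.2.2.2.1, hab.2.2.2.2.1, ?_⟩
      · have := hab.2.2.1; dsimp only; omega
      · have := hab.2.1; dsimp only; omega
      · rw [map_negr_eq]
        simp only [neg_neg]
        exact hab.2.2.2.2.2) h
    simp only [neg_neg] at h2
    exact h2

/-- up-down mirror image -/
def vflip : Region ι where
  w := R.w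
  f₁ := R.f₁
  f₂ := R.f₂
  g := R.g
  s := R.s
  own := fun v => R.own (v.1, R.w + 1 - v.2.1, v.2.2)
  tp := R.bt
  bt := R.tp
  p₁ := fun y => R.p₁ (R.w + 1 - y)
  p₂ := fun y => R.p₂ (R.w + 1 - y)
  m₁ := R.m₁
  m₂ := R.m₂
  hw := R.hw
  hs := R.hs
  hf₁ := R.hf₁
  hf₂ := R.hf₂
  top_wall := by
    intro x l h1 h2 h3
    simp only [sub_self]
    exact R.bot_wall x l h1 h2 h3
  bot_wall := by
    intro x l h1 h2 h3
    simp only [sub_zero]
    exact R.top_wall x l h1 h2 h3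
  top_free := by
    intro x l h1 h2
    simp only [sub_self]
    exact R.bot_free x l h1 h2
  bot_free := by
    intro x l h1 h2
    simp only [sub_zero]
    exact R.top_free x l h1 h2
  tp_ne := R.bt_ne
  bt_ne := R.tp_ne
  inj₁ := by
    intro y y' h1 h2 h3 h4 h5
    have := R.inj₁ _ _ (by omega) (by omega) (by omega) (by omega) h5
    omega
  inj₂ := by
    intro y y' h1 h2 h3 h4 h5
    have := R.inj₂ _ _ (by omega) (by omega) (by omega) (by omega) h5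
    omega
  surj₁ := by
    intro i
    obtain ⟨y, h1, h2, h3⟩ := R.surj₁ i
    exact ⟨R.w + 1 - y, by omega, by omega, by rw [sub_sub_cancel]; exact h3⟩
  surj₂ := by
    intro i
    obtain ⟨y, h1, h2, h3⟩ := R.surj₂ i
    exact ⟨R.w + 1 - y, by omega, by omega, by rw [sub_sub_cancel]; exact h3⟩
  wall₁ := fun y h1 h2 => R.wall₁ (R.w + 1 - y) (by omega) (by omega)
  wall₂ := fun y h1 h2 => R.wall₂ (R.w + 1 - y) (by omega) (by omega)
  col₁ := fun y h1 h2 => R.col₁ (R.w + 1 - y) (by omega) (by omega)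
  col₂ := fun y h1 h2 => R.col₂ (R.w + 1 - y) (by omega) (by omega)
  wall_mem := by
    intro x y l z h1 h2 h3 h4 h5
    exact R.wall_mem x (R.w + 1 - y) l z h1 h2 (by omega) (by omega) h5
  conn := by
    intro o u v hu hv
    have h := R.conn o (u.1, R.w + 1 - u.2.1, u.2.2) (v.1, R.w + 1 - v.2.1, v.2.2)
      ⟨hu.1, hu.2.1, by have := hu.2.2.2.1; dsimp only; omega,
        by have := hu.2.2.1; dsimp only; omega, hu.2.2.2.2⟩
      ⟨hv.1, hv.2.1, by have := hv.2.2.2.1; dsimp only; omega,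
        by have := hv.2.2.1; dsimp only; omega, hv.2.2.2.2⟩
    have h2 := rtg_map (p := fun a b => Nb a b ∧ (R.f₁ ≤ b.1 ∧
        b.1 ≤ R.f₂ ∧ 0 ≤ b.2.1 ∧ b.2.1 ≤ R.w + 1 ∧
        (R.own (b.1, R.w + 1 - b.2.1, b.2.2)) = some o))
      (fun v : Vx => ((v.1, R.w + 1 - v.2.1, v.2.2) : Vx)) (by
      intro a b hab
      refine ⟨nb_vflip R.w hab.1, hab.2.1, hab.2.2.1, ?_, ?_, ?_⟩
      · have := hab.2.2.2.2.1; dsimp only; omega
      · have := hab.2.2.2.1; dsimp only; omega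
      · simp only [sub_sub_cancel]
        exact hab.2.2.2.2.2) h
    simp only [sub_sub_cancel] at h2
    exact h2

theorem hflip_mem {o : ι ⊕ ℤ} {x y : ℤ} {l : Bool} :
    R.hflip.Mem o (x, y, l) ↔ R.Mem (negr o) (-x, y, l) := by
  unfold Mem
  simp only [hflip, map_negr_eq]
  constructor
  · rintro ⟨h1, h2, h3, h4, h5⟩
    exact ⟨by omega, by omega, h3, h4, h5⟩
  · rintro ⟨h1, h2, h3, h4, h5⟩
    exact ⟨by omega, by omega, h3, h4, h5⟩

theorem vflip_mem {o : ι ⊕ ℤ} {x y : ℤ} {l : Bool} :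
    R.vflip.Mem o (x, y, l) ↔ R.Mem o (x, R.w + 1 - y, l) := by
  unfold Mem
  simp only [vflip]
  constructor
  · rintro ⟨h1, h2, h3, h4, h5⟩
    exact ⟨h1, h2, by omega, by omega, h5⟩
  · rintro ⟨h1, h2, h3, h4, h5⟩
    exact ⟨h1, h2, by omega, by omega, h5⟩

theorem hflip_Fr {x : ℤ} : R.hflip.Fr x ↔ R.Fr (-x) := by
  unfold Fr
  simp only [hflip]
  omega

theorem vflip_Fr {x : ℤ} : R.vflip.Fr x ↔ R.Fr x := Iff.rfl

/-- Entry lemma: a passing net enters a cut from the left. -/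
theorem entry' {T : ℤ → ℤ} (hT : R.TBcut T) (i : ι)
    (hTr : ∀ y, 1 ≤ y → y ≤ R.w → R.p₁ y = i → R.f₁ < T y) :
    ∃ y l, 1 ≤ y ∧ y ≤ R.w ∧ R.Mem (.inl i) (T y, y, l) ∧
      (R.Mem (.inl i) (T y - 1, y, l) ∨
        (y + 1 ≤ R.w ∧ T (y + 1) = T y + 1 ∧ R.Mem (.inl i) (T y, y + 1, l)) ∨
        (1 ≤ y - 1 ∧ T (y - 1) = T y + 1 ∧ R.Mem (.inl i) (T y, y - 1, l))) := by
  obtain ⟨y, l, h1, h2, h3, h4⟩ := R.hflip.exit' (T := fun y => -T y) (by
      constructor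
      · intro y h1 h2
        have := hT.1 y h1 h2
        dsimp only
        omega
      · intro y h1 h2
        have := hT.2 y h1 h2
        simp only [hflip]
        omega) i (by
      intro y h1 h2 h3
      have := hTr y h1 h2 h3
      simp only [hflip]
      omega)
  simp only [hflip_mem, neg_neg, neg_add] at h3 h4
  refine ⟨y, l, h1, h2, h3, ?_⟩
  rcases h4 with h4 | ⟨h4, h5, h6⟩ | ⟨h4, h5, h6⟩
  · exact Or.inl h4
  · exact Or.inr (Or.inl ⟨h4, by omega, h6⟩)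
  · exact Or.inr (Or.inr ⟨h4, by omega, h6⟩)

end Region

end Pool.Agent.Helper64_Chan
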