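import Pool.Agent.Helper64_Chan.Crossing

/-!
# The conclusions about regions
-/

namespace Pool.Agent.Helper64_Chan

namespace Region

variable {ι : Type} (R : Region ι)

theorem use_top (hm : R.m₂ = R.m₁) {x yi y : ℤ} (hx : R.Fr x) (h1 : 1 ≤ yi)
    (h3 : R.p₁ yi = R.tp x) (h4 : yi ≤ y) (h5 : y < R.w) :
    ∃ x', R.Mem (.inl (R.tp x)) (x', y, !R.m₁) := by
  have hs := R.mem_p₁ h1 (by omega)
  rw [h3] at hs
  obtain ⟨⟨a, t, l⟩, ⟨a', t', l'⟩, ha, hb, hn, hA, hB⟩ := R.cross hs (R.mem_tp hx false)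
    (fun v => v.2.1 ≤ y) h4 (by dsimp only; omega)
  dsimp only at hA hB
  rcases hn with ⟨e1, e2, e3⟩ | ⟨e1, e2, e3⟩ | ⟨e1, e2, e3⟩ <;> simp only at e1 e2 e3
  · omega
  · subst e1 e2
    have : t = y := by omega
    subst this
    have : t' = t + 1 := by omega
    subst this
    refine ⟨a', ?_⟩
    by_cases hl : l' = R.m₁
    · exfalso
      subst hl
      have h6 := Sum.inl.inj (ha.eq (R.straight' hm ha.1 ha.2.1 (by omega) (by omega)))
      have h7 := Sum.inl.inj (hb.eq (R.straight' hm ha.1 ha.2.1 (by omega) (by omega)))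
      have := R.inj₁ _ _ (by omega) (by omega) (by omega) (by omega) (h6.symm.trans h7)
      omega
    · rw [bool_eq_not_of_ne hl] at ha
      exact ha
  · omega

theorem use_bot (hm : R.m₂ = R.m₁) {x yi y : ℤ} (hx : R.Fr x) (h2 : yi ≤ R.w)
    (h3 : R.p₁ yi = R.bt x) (h4 : y < yi) (h5 : 1 ≤ y) :
    ∃ x', R.Mem (.inl (R.bt x)) (x', y, !R.m₁) := by
  have hs := R.mem_p₁ (y := yi) (by omega) h2
  rw [h3] at hs
  obtain ⟨⟨a, t, l⟩, ⟨a', t', l'⟩, ha, hb, hn, hA, hB⟩ := R.cross hs (R.mem_bt hx false)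
    (fun v => y < v.2.1) h4 (by dsimp only; omega)
  dsimp only at hA hB
  rcases hn with ⟨e1, e2, e3⟩ | ⟨e1, e2, e3⟩ | ⟨e1, e2, e3⟩ <;> simp only at e1 e2 e3
  · omega
  · subst e1 e2
    have : t' = y := by omega
    subst this
    refine ⟨a', ?_⟩
    by_cases hl : l' = R.m₁
    · exfalso
      subst hl
      have h6 := Sum.inl.inj (hb.eq (R.straight' hm ha.1 ha.2.1 (by omega) (by omega)))
      rw [← h3] at h6
      have := R.inj₁ _ _ (by omega) h2 (by omega) (by omega) h6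
      omega
    · rw [bool_eq_not_of_ne hl] at hb
      exact hb
  · omega

/-- A net on the layer `!m₁` gives a cell without wall. -/
theorem psi_of_other (hm : R.m₂ = R.m₁) {i : ι} {x y : ℤ} (h1 : 1 ≤ y) (h2 : y ≤ R.w)
    (h : R.Mem (.inl i) (x, y, !R.m₁)) : R.psi x y = 1 :=
  R.psi_one_of_nets (R.straight' hm h.1 h.2.1 h1 h2) h h1 h2

theorem bool_cases (R : Region ι) : R.m₂ = R.m₁ ∨ R.m₂ = !R.m₁ := by
  cases R.m₁ <;> cases R.m₂ <;> simp

/-- Conclusion for one free column. -/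
theorem order1 (hs : R.s = 1) : (∀ y, 1 ≤ y → y ≤ R.w → R.p₁ y = R.p₂ y) ∧
    ∀ ya yb, 1 ≤ ya → ya ≤ R.w → 1 ≤ yb → yb ≤ R.w → R.p₁ ya = R.tp R.g →
      R.p₁ yb = R.bt R.g → ya < yb → False := by
  have hw := R.hw
  have hFr : R.Fr R.g := ⟨le_rfl, by omega⟩
  rcases R.bool_cases with hm | hm
  · refine ⟨fun y h1 h2 => ?_, ?_⟩
    · have h3 := R.straight' hm (x := R.f₂) (by have := R.hf₁; have := R.hf₂; omega) le_rfl h1 h2
      rw [← hm] at h3
      exact Sum.inl.inj (h3.eq (R.mem_p₂ h1 h2))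
    · intro ya yb h1 h2 h3 h4 h5 h6 h7
      obtain ⟨xa, ha⟩ := R.use_top hm hFr h1 h5 le_rfl (by omega)
      obtain ⟨xb, hb⟩ := R.use_bot hm hFr h4 h6 h7 h1
      have hne : xa ≠ xb := by
        rintro rfl
        have h8 := Sum.inl.inj (ha.eq hb)
        rw [← h5, ← h6] at h8
        have := R.inj₁ _ _ h1 h2 h3 h4 h8
        omega
      have := R.row_count (y := ya) (by omega) (by omega) {xa, xb} (by
        intro z hz
        simp only [Finset.mem_insert, Finset.mem_singleton] at hz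
        rcases hz with rfl | rfl
        · exact ⟨ha.1, ha.2.1, R.psi_of_other hm h1 h2 ha⟩
        · exact ⟨hb.1, hb.2.1, R.psi_of_other hm h1 h2 hb⟩)
      rw [Finset.card_pair hne] at this
      push_cast at this
      omega
  · obtain ⟨h1, h2, h3⟩ := R.flip1 hs hm
    refine ⟨h1, ?_⟩
    intro ya yb h4 h5 h6 h7 h8 h9 h10
    have := R.inj₁ _ _ h4 h5 hw le_rfl (h8.trans h2)
    have := R.inj₁ _ _ h6 h7 le_rfl hw (h9.trans h3)
    omega

/-- Conclusion for a gadget whose free columns do not contain the lowest net at the bottom. -/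
theorem order2 {E : ι} (h1 : R.p₁ 1 = E) (h2 : R.p₂ 1 = E) (hE : ∀ x, R.Fr x → R.bt x ≠ E) :
    (∀ y, 1 ≤ y → y ≤ R.w → R.p₁ y = R.p₂ y) ∧
    ∀ x, R.Fr x → R.s = 2 → ∀ ya yb yc, 1 ≤ ya → ya ≤ R.w → 1 ≤ yb → yb ≤ R.w → 1 ≤ yc →
      yc ≤ R.w → R.p₁ ya = R.tp x → R.p₁ yb = R.bt R.g → R.p₁ yc = R.bt (R.g + 1) →
      ya < yb → ya < yc → False := by
  have hw := R.hw
  rcases R.bool_cases with hm | hm
  · refine ⟨fun y h1 h2 => ?_, ?_⟩
    · have h3 := R.straight' hm (x := R.f₂) (by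
        have := R.hf₁; have := R.hf₂; have := R.hs; omega) le_rfl h1 h2
      rw [← hm] at h3
      exact Sum.inl.inj (h3.eq (R.mem_p₂ h1 h2))
    · intro x hx hs ya yb yc h3 h4 h5 h6 h7 h8 h9 h10 h11 h12 h13
      have hFr : R.Fr R.g := ⟨le_rfl, by omega⟩
      have hFr1 : R.Fr (R.g + 1) := ⟨by omega, by omega⟩
      obtain ⟨xa, ha⟩ := R.use_top hm hx h3 h9 le_rfl (by omega)
      obtain ⟨xb, hb⟩ := R.use_bot hm hFr h6 h10 h12 h3
      obtain ⟨xc, hc⟩ := R.use_bot hm hFr1 h8 h11 h13 h3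
      have hab : xa ≠ xb := by
        rintro rfl
        have h8 := Sum.inl.inj (ha.eq hb)
        rw [← h9, ← h10] at h8
        have := R.inj₁ _ _ h3 h4 h5 h6 h8
        omega
      have hac : xa ≠ xc := by
        rintro rfl
        have h8' := Sum.inl.inj (ha.eq hc)
        rw [← h9, ← h11] at h8'
        have := R.inj₁ _ _ h3 h4 h7 h8 h8'
        omega
      have hbc : xb ≠ xc := by
        rintro rfl
        exact R.bt_ne R.g le_rfl (by omega) (Sum.inl.inj (hb.eq hc))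
      exact three_cells R h3 h4 ha.1 ha.2.1 hb.1 hb.2.1 hc.1 hc.2.1 hab hac hbc
        (R.psi_of_other hm h3 h4 ha) (R.psi_of_other hm h3 h4 hb) (R.psi_of_other hm h3 h4 hc)
  · exact (R.flip2 hm h1 h2 hE).elim

/-- Conclusion for a gadget whose free columns do not contain the highest net at the top. -/
theorem order3 {E : ι} (h1 : R.p₁ R.w = E) (h2 : R.p₂ R.w = E)
    (hE : ∀ x, R.Fr x → R.tp x ≠ E) :
    (∀ y, 1 ≤ y → y ≤ R.w → R.p₁ y = R.p₂ y) ∧
    ∀ x, R.Fr x → R.s = 2 → ∀ ya yb yc, 1 ≤ ya → ya ≤ R.w → 1 ≤ yb → yb ≤ R.w → 1 ≤ yc →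
      yc ≤ R.w → R.p₁ ya = R.bt x → R.p₁ yb = R.tp R.g → R.p₁ yc = R.tp (R.g + 1) →
      yb < ya → yc < ya → False := by
  have hw := R.hw
  have e1 : R.vflip.p₁ 1 = E := by
    simp only [vflip]; rw [add_sub_cancel_right]; exact h1
  have e2 : R.vflip.p₂ 1 = E := by
    simp only [vflip]; rw [add_sub_cancel_right]; exact h2
  obtain ⟨h3, h4⟩ := R.vflip.order2 e1 e2 hE
  refine ⟨?_, ?_⟩
  · intro y h5 h6
    have h7 := h3 (R.w + 1 - y) (by omega) (by simp only [vflip]; omega)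
    simp only [vflip, sub_sub_cancel] at h7
    exact h7
  · intro x hx hs ya yb yc h5 h6 h7 h8 h9 h10 h11 h12 h13 h14 h15
    refine h4 x hx hs (R.w + 1 - ya) (R.w + 1 - yb) (R.w + 1 - yc) (by omega)
      (by simp only [vflip]; omega) (by omega) (by simp only [vflip]; omega) (by omega)
      (by simp only [vflip]; omega) ?_ ?_ ?_ (by omega) (by omega)
    · simp only [vflip, sub_sub_cancel]; exact h11
    · simp only [vflip, sub_sub_cancel]; exact h12
    · simp only [vflip, sub_sub_cancel]; exact h13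

end Region

end Pool.Agent.Helper64_Chan
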