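import Pool.Agent.Helper64_Chan.Links

/-!
# Shapes of columns and the sets of grid points of the nets
-/

namespace Pool.Agent.Helper64_Chan

variable {S : Set (ℕ × ℕ × ℕ)}

/-- two points near a vertical segment on layer `0` are linked -/
theorem Lk.seg {x y1 y2 : ℕ} (h : ∀ z, y1 ≤ z → z ≤ y2 → (x, z, 0) ∈ S) {y y' l l' : ℕ}
    (h1 : y1 ≤ y) (h2 : y ≤ y2) (h1' : y1 ≤ y') (h2' : y' ≤ y2) (hl : l ≤ 1) (hl' : l' ≤ 1)
    (hv : (x, y, l) ∈ S) (hv' : (x, y', l') ∈ S) : Lk S (x, y, l) (x, y', l') := by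
  have key : ∀ z k, y1 ≤ z → z ≤ y2 → k ≤ 1 → (x, z, k) ∈ S → Lk S (x, y1, 0) (x, z, k) := by
    intro z k h3 h4 h5 h6
    have h7 : Lk S (x, y1, 0) (x, z, 0) :=
      Lk.vert x 0 y1 z h3 (fun u hu hu' => h u hu (by omega))
    rcases (show k = 0 ∨ k = 1 by omega) with rfl | rfl
    · exact h7
    · exact h7.trans (Lk.layer (h z h3 h4) h6)
  exact (key y l h1 h2 hl hv).symm.trans (key y' l' h1' h2' hl' hv')

/-- shapes of columns in the layout -/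
inductive Shape
  | idn
  | one (a b : ℕ)
  | upL (a b : ℕ)
  | upR (a c : ℕ)
  | dnL (b a : ℕ)
  | dnR (c a : ℕ)

/-- the column of a shape -/
def Shape.col (N : ℕ) : Shape → Column
  | .idn => none
  | .one a b => some (a, b)
  | .upL a b => some (a, b)
  | .upR _ c => some (N, c)
  | .dnL b a => some (b, a)
  | .dnR c _ => some (c, N + 1)

/-- admissible positions: the net `N` is at the top, the net `N + 1` at the bottom -/
structure Pos (N : ℕ) (pos : ℕ → ℕ) : Prop where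
  top : pos N = N + 2
  bot : pos (N + 1) = 1
  mid : ∀ e, e < N → 2 ≤ pos e ∧ pos e ≤ N + 1
  inj : ∀ a b, a < N + 2 → b < N + 2 → a ≠ b → pos a ≠ pos b

theorem Pos.bd {N : ℕ} {pos : ℕ → ℕ} (hp : Pos N pos) {e : ℕ} (he : e < N + 2) :
    1 ≤ pos e ∧ pos e ≤ N + 2 := by
  rcases (show e < N ∨ e = N ∨ e = N + 1 by omega) with h | rfl | rfl
  · have := hp.mid e h; omega
  · rw [hp.top]; omega
  · rw [hp.bot]; omega

/-- the shape fits with the positions -/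
def Shape.Ok (N : ℕ) (pos : ℕ → ℕ) : Shape → Prop
  | .idn => True
  | .one a b => a < N + 2 ∧ b < N + 2 ∧ pos b ≤ pos a
  | .upL a b => a < N ∧ b < N ∧ a ≠ b
  | .upR a c => a < N ∧ c < N ∧ pos c < pos a
  | .dnL b a => a < N ∧ b < N ∧ a ≠ b
  | .dnR c a => a < N ∧ c < N ∧ pos a < pos c

/-- the net `e` uses the point in row `y` on layer `l` (besides its row on layer `1`) -/
def Own (N : ℕ) (pos : ℕ → ℕ) (e y l : ℕ) : Shape → Prop
  | .idn => False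
  | .one a b => (e = a ∧ pos a ≤ y ∧ (l = 0 ∨ y = N + 3)) ∨ (e = b ∧ y ≤ pos b ∧ (l = 0 ∨ y = 0))
  | .upL a b => (e = a ∧ N + 2 ≤ y ∧ (l = 0 ∨ y = N + 3)) ∨ (e = b ∧ y ≤ pos b ∧ (l = 0 ∨ y = 0))
  | .upR a c => (e = N ∧ y = N + 3) ∨ (e = a ∧ l = 0 ∧ pos a ≤ y ∧ y ≤ N + 2) ∨
      (e = c ∧ y ≤ pos c ∧ (l = 0 ∨ y = 0))
  | .dnL b a => (e = b ∧ pos b ≤ y ∧ (l = 0 ∨ y = N + 3)) ∨ (e = a ∧ y ≤ 1 ∧ (l = 0 ∨ y = 0))
  | .dnR c a => (e = c ∧ pos c ≤ y ∧ (l = 0 ∨ y = N + 3)) ∨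
      (e = a ∧ l = 0 ∧ 1 ≤ y ∧ y ≤ pos a) ∨ (e = N + 1 ∧ y = 0)

theorem own_disj {N : ℕ} {pos : ℕ → ℕ} (hp : Pos N pos) {s : Shape} (hs : s.Ok N pos)
    {e e' : ℕ} (he : e < N + 2) (he' : e' < N + 2) (hne : e ≠ e') {y l : ℕ}
    (h : (l = 1 ∧ y = pos e) ∨ Own N pos e y l s)
    (h' : (l = 1 ∧ y = pos e') ∨ Own N pos e' y l s) : False := by
  have h1 := hp.inj e e' he he' hne
  have h2 := hp.bd he
  have h3 := hp.bd he'
  have h4 := hp.top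
  have h5 := hp.bot
  cases s with
  | idn => simp only [Own, or_false] at h h'; omega
  | one a b =>
    obtain ⟨g1, g2, g3⟩ := hs
    simp only [Own] at h h'
    rcases h with h | ⟨rfl, h⟩ | ⟨rfl, h⟩ <;> rcases h' with h' | ⟨rfl, h'⟩ | ⟨rfl, h'⟩ <;> omega
  | upL a b =>
    obtain ⟨g1, g2, g3⟩ := hs
    have g4 := hp.mid a g1
    have g5 := hp.mid b g2
    simp only [Own] at h h'
    rcases h with h | ⟨rfl, h⟩ | ⟨rfl, h⟩ <;> rcases h' with h' | ⟨rfl, h'⟩ | ⟨rfl, h'⟩ <;> omega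
  | upR a c =>
    obtain ⟨g1, g2, g3⟩ := hs
    have g4 := hp.mid a g1
    have g5 := hp.mid c g2
    simp only [Own] at h h'
    rcases h with h | ⟨rfl, h⟩ | ⟨rfl, h⟩ | ⟨rfl, h⟩ <;>
      rcases h' with h' | ⟨rfl, h'⟩ | ⟨rfl, h'⟩ | ⟨rfl, h'⟩ <;> omega
  | dnL b a =>
    obtain ⟨g1, g2, g3⟩ := hs
    have g4 := hp.mid a g1
    have g5 := hp.mid b g2
    simp only [Own] at h h'
    rcases h with h | ⟨rfl, h⟩ | ⟨rfl, h⟩ <;> rcases h' with h' | ⟨rfl, h'⟩ | ⟨rfl, h'⟩ <;> omega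
  | dnR c a =>
    obtain ⟨g1, g2, g3⟩ := hs
    have g4 := hp.mid a g1
    have g5 := hp.mid c g2
    simp only [Own] at h h'
    rcases h with h | ⟨rfl, h⟩ | ⟨rfl, h⟩ | ⟨rfl, h⟩ <;>
      rcases h' with h' | ⟨rfl, h'⟩ | ⟨rfl, h'⟩ | ⟨rfl, h'⟩ <;> omega

/-- the shape at column `x` -/
def shp (ss : List Shape) (x : ℕ) : Shape := (ss[x - 1]?).getD .idn

/-- the points of the net `e` -/
def elSet (N : ℕ) (pos : ℕ → ℕ) (ss : List Shape) (e : ℕ) : Set (ℕ × ℕ × ℕ) :=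
  {v | (1 ≤ v.1 ∧ v.1 ≤ ss.length) ∧ v.2.1 ≤ N + 3 ∧ v.2.2 ≤ 1 ∧
    ((v.2.2 = 1 ∧ v.2.1 = pos e) ∨ Own N pos e v.2.1 v.2.2 (shp ss v.1))}

/-- the points of the net of a column with its own net -/
def idSet (N x : ℕ) : Set (ℕ × ℕ × ℕ) :=
  {v | v.1 = x ∧ v.2.1 ≤ N + 3 ∧ v.2.2 ≤ 1 ∧ (v.2.2 = 0 ∨ v.2.1 = 0 ∨ v.2.1 = N + 3)}

/-- neighbouring shapes fit -/
def Fits (ss : List Shape) : Prop :=
  ∀ x, 1 ≤ x → x ≤ ss.length →
    (∀ a b, shp ss x = .upL a b → x + 1 ≤ ss.length ∧ ∃ c, shp ss (x + 1) = .upR a c) ∧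
    (∀ b a, shp ss x = .dnL b a → x + 1 ≤ ss.length ∧ ∃ c, shp ss (x + 1) = .dnR c a)

section

variable {N : ℕ} {pos : ℕ → ℕ} {ss : List Shape}

theorem elSet_box {e : ℕ} : ∀ v ∈ elSet N pos ss e,
    (1 ≤ v.1 ∧ v.1 ≤ ss.length) ∧ v.2.1 ≤ (N + 2) + 1 ∧ v.2.2 ≤ 1 :=
  fun _ h => ⟨h.1, h.2.1, h.2.2.1⟩

theorem idSet_box {x : ℕ} (h1 : 1 ≤ x) (h2 : x ≤ ss.length) : ∀ v ∈ idSet N x,
    (1 ≤ v.1 ∧ v.1 ≤ ss.length) ∧ v.2.1 ≤ (N + 2) + 1 ∧ v.2.2 ≤ 1 := by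
  rintro ⟨x', y, l⟩ ⟨h3, h4, h5, -⟩
  dsimp only at h3 h4 h5 ⊢
  subst h3
  exact ⟨⟨h1, h2⟩, h4, h5⟩

theorem idSet_conn (N x : ℕ) : ∀ v ∈ idSet N x, Lk (idSet N x) v (x, 0, 0) := by
  rintro ⟨x', y, l⟩ hv
  have hv' := hv
  obtain ⟨h3, h4, h5, h6⟩ := hv'
  dsimp only at h3 h4 h5 h6
  subst h3
  refine Lk.seg (y1 := 0) (y2 := N + 3) ?_ (by omega) (by omega) (by omega) (by omega) h5
    (by omega) hv ⟨rfl, by simp, by simp, by simp⟩
  intro z h7 h8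
  exact ⟨rfl, h8, by simp, by simp⟩

theorem row_mem (hp : Pos N pos) {e : ℕ} (he : e < N + 2) {x : ℕ} (h1 : 1 ≤ x)
    (h2 : x ≤ ss.length) : (x, pos e, 1) ∈ elSet N pos ss e := by
  have := hp.bd he
  exact ⟨⟨h1, h2⟩, by dsimp only; omega, by simp, Or.inl ⟨rfl, rfl⟩⟩

theorem elSet_row (hp : Pos N pos) (hok : ∀ x, (shp ss x).Ok N pos) (hf : Fits ss) {e : ℕ}
    (he : e < N + 2) : ∀ v ∈ elSet N pos ss e, ∃ x, 1 ≤ x ∧ x ≤ ss.length ∧
      Lk (elSet N pos ss e) v (x, pos e, 1) := by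
  rintro ⟨x, y, l⟩ hv
  have hv' := hv
  obtain ⟨⟨h1, h2⟩, h3, h4, h5⟩ := hv'
  dsimp only at h1 h2 h3 h4 h5
  have hbd := hp.bd he
  have hrow : ∀ x', 1 ≤ x' → x' ≤ ss.length → (x', pos e, 1) ∈ elSet N pos ss e :=
    fun x' h6 h7 => row_mem hp he h6 h7
  rcases h5 with ⟨rfl, rfl⟩ | h5
  · exact ⟨x, h1, h2, Lk.refl _⟩
  have hok' := hok x
  have hf' := hf x h1 h2
  have hmem : ∀ z k, z ≤ N + 3 → k ≤ 1 → Own N pos e z k (shp ss x) →
      (x, z, k) ∈ elSet N pos ss e := fun z k h6 h7 h8 => ⟨⟨h1, h2⟩, h6, h7, Or.inr h8⟩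
  have hmem' : ∀ z k, x + 1 ≤ ss.length → z ≤ N + 3 → k ≤ 1 →
      Own N pos e z k (shp ss (x + 1)) → (x + 1, z, k) ∈ elSet N pos ss e :=
    fun z k h5 h6 h7 h8 => ⟨⟨by dsimp only; omega, h5⟩, h6, h7, Or.inr h8⟩
  rcases hsx : shp ss x with _ | ⟨a, b⟩ | ⟨a, b⟩ | ⟨a, c⟩ | ⟨b, a⟩ | ⟨c, a⟩
  all_goals rw [hsx] at h5 hok' hmem
  · exact h5.elim
  · -- one
    obtain ⟨g1, g2, g3⟩ := hok'
    simp only [Own] at h5 hmem
    refine ⟨x, h1, h2, ?_⟩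
    rcases h5 with ⟨rfl, h5, h6⟩ | ⟨rfl, h5, h6⟩
    · refine Lk.seg (y1 := pos e) (y2 := N + 3) ?_ h5 h3 le_rfl (by omega) h4 le_rfl hv
        (hrow x h1 h2)
      intro z h7 h8
      exact hmem z 0 h8 (by omega) (Or.inl ⟨rfl, h7, Or.inl rfl⟩)
    · refine Lk.seg (y1 := 0) (y2 := pos e) ?_ (by omega) h5 (by omega) le_rfl h4 le_rfl hv
        (hrow x h1 h2)
      intro z h7 h8
      exact hmem z 0 (by omega) (by omega) (Or.inr ⟨rfl, h8, Or.inl rfl⟩)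
  · -- upL
    obtain ⟨g1, g2, g3⟩ := hok'
    simp only [Own] at h5 hmem
    obtain ⟨h6, c, h7⟩ := hf'.1 a b hsx
    have g4 := hp.mid a g1
    rcases h5 with ⟨rfl, h5, h8⟩ | ⟨rfl, h5, h8⟩
    · refine ⟨x + 1, by omega, h6, ?_⟩
      rw [h7] at hmem'
      simp only [Own] at hmem'
      have m1 : (x, N + 2, 0) ∈ elSet N pos ss e :=
        hmem _ _ (by omega) (by omega) (Or.inl ⟨rfl, le_rfl, Or.inl rfl⟩)
      have m2 : (x + 1, N + 2, 0) ∈ elSet N pos ss e :=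
        hmem' _ _ h6 (by omega) (by omega) (Or.inr (Or.inl ⟨trivial, rfl, by omega, le_rfl⟩))
      have s1 : Lk (elSet N pos ss e) (x, y, l) (x, N + 2, 0) := by
        refine Lk.seg (y1 := N + 2) (y2 := N + 3) ?_ h5 h3 le_rfl (by omega) h4 (by omega) hv m1
        intro z h9 h10
        exact hmem z 0 h10 (by omega) (Or.inl ⟨rfl, h9, Or.inl rfl⟩)
      have s2 : Lk (elSet N pos ss e) (x, N + 2, 0) (x + 1, N + 2, 0) := by
        refine Lk.step ?_ m1 m2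
        unfold RA Nat.dist
        dsimp only
        omega
      refine s1.trans (s2.trans ?_)
      refine Lk.seg (y1 := pos e) (y2 := N + 2) ?_ (by omega) (by omega) le_rfl (by omega)
        (by omega) le_rfl m2 (hrow _ (by omega) h6)
      intro z h9 h10
      exact hmem' z 0 h6 (by omega) (by omega) (Or.inr (Or.inl ⟨trivial, rfl, h9, h10⟩))
    · refine ⟨x, h1, h2, ?_⟩
      refine Lk.seg (y1 := 0) (y2 := pos e) ?_ (by omega) h5 (by omega) le_rfl h4 le_rfl hv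
        (hrow x h1 h2)
      intro z h9 h10
      exact hmem z 0 (by omega) (by omega) (Or.inr ⟨rfl, h10, Or.inl rfl⟩)
  · -- upR
    obtain ⟨g1, g2, g3⟩ := hok'
    simp only [Own] at h5 hmem
    refine ⟨x, h1, h2, ?_⟩
    rcases h5 with ⟨rfl, h5⟩ | ⟨rfl, h5, h6, h7⟩ | ⟨rfl, h5, h6⟩
    · subst h5
      have m1 : (x, e + 3, 1) ∈ elSet e pos ss e := hmem _ _ le_rfl le_rfl (Or.inl ⟨rfl, rfl⟩)
      have s1 : Lk (elSet e pos ss e) (x, e + 3, l) (x, e + 3, 1) := by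
        refine Lk.seg (y1 := e + 3) (y2 := e + 3) ?_ le_rfl le_rfl le_rfl le_rfl h4 le_rfl hv m1
        intro z h9 h10
        have : z = e + 3 := by omega
        subst this
        exact hmem _ _ le_rfl (by omega) (Or.inl ⟨rfl, rfl⟩)
      refine s1.trans (Lk.step ?_ m1 (hrow x h1 h2))
      rw [hp.top]
      unfold RA Nat.dist
      dsimp only
      omega
    · refine Lk.seg (y1 := pos e) (y2 := N + 2) ?_ h6 h7 le_rfl (by omega) h4 le_rfl hv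
        (hrow x h1 h2)
      intro z h9 h10
      exact hmem z 0 (by omega) (by omega) (Or.inr (Or.inl ⟨rfl, rfl, h9, h10⟩))
    · refine Lk.seg (y1 := 0) (y2 := pos e) ?_ (by omega) h5 (by omega) le_rfl h4 le_rfl hv
        (hrow x h1 h2)
      intro z h9 h10
      exact hmem z 0 (by omega) (by omega) (Or.inr (Or.inr ⟨rfl, h10, Or.inl rfl⟩))
  · -- dnL
    obtain ⟨g1, g2, g3⟩ := hok'
    simp only [Own] at h5 hmem
    obtain ⟨h6, c, h7⟩ := hf'.2 b a hsx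
    have g4 := hp.mid a g1
    rcases h5 with ⟨rfl, h5, h8⟩ | ⟨rfl, h5, h8⟩
    · refine ⟨x, h1, h2, ?_⟩
      refine Lk.seg (y1 := pos e) (y2 := N + 3) ?_ h5 h3 le_rfl (by omega) h4 le_rfl hv
        (hrow x h1 h2)
      intro z h9 h10
      exact hmem z 0 (by omega) (by omega) (Or.inl ⟨rfl, h9, Or.inl rfl⟩)
    · refine ⟨x + 1, by omega, h6, ?_⟩
      rw [h7] at hmem'
      simp only [Own] at hmem'
      have m1 : (x, 1, 0) ∈ elSet N pos ss e :=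
        hmem _ _ (by omega) (by omega) (Or.inr ⟨rfl, le_rfl, Or.inl rfl⟩)
      have m2 : (x + 1, 1, 0) ∈ elSet N pos ss e :=
        hmem' _ _ h6 (by omega) (by omega) (Or.inr (Or.inl ⟨trivial, rfl, le_rfl, by omega⟩))
      have s1 : Lk (elSet N pos ss e) (x, y, l) (x, 1, 0) := by
        refine Lk.seg (y1 := 0) (y2 := 1) ?_ (by omega) h5 (by omega) le_rfl h4 (by omega) hv m1
        intro z h9 h10
        exact hmem z 0 (by omega) (by omega) (Or.inr ⟨rfl, h10, Or.inl rfl⟩)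
      have s2 : Lk (elSet N pos ss e) (x, 1, 0) (x + 1, 1, 0) := by
        refine Lk.step ?_ m1 m2
        unfold RA Nat.dist
        dsimp only
        omega
      refine s1.trans (s2.trans ?_)
      refine Lk.seg (y1 := 1) (y2 := pos e) ?_ le_rfl (by omega) (by omega) le_rfl
        (by omega) le_rfl m2 (hrow _ (by omega) h6)
      intro z h9 h10
      exact hmem' z 0 h6 (by omega) (by omega) (Or.inr (Or.inl ⟨trivial, rfl, h9, h10⟩))
  · -- dnR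
    obtain ⟨g1, g2, g3⟩ := hok'
    simp only [Own] at h5 hmem
    refine ⟨x, h1, h2, ?_⟩
    rcases h5 with ⟨rfl, h5, h6⟩ | ⟨rfl, h5, h6, h7⟩ | ⟨rfl, h5⟩
    · refine Lk.seg (y1 := pos e) (y2 := N + 3) ?_ h5 h3 le_rfl (by omega) h4 le_rfl hv
        (hrow x h1 h2)
      intro z h9 h10
      exact hmem z 0 (by omega) (by omega) (Or.inl ⟨rfl, h9, Or.inl rfl⟩)
    · refine Lk.seg (y1 := 1) (y2 := pos e) ?_ h6 h7 (by omega) le_rfl h4 le_rfl hv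
        (hrow x h1 h2)
      intro z h9 h10
      exact hmem z 0 (by omega) (by omega) (Or.inr (Or.inl ⟨rfl, rfl, h9, h10⟩))
    · subst h5
      have m1 : (x, 0, 1) ∈ elSet N pos ss (N + 1) :=
        hmem _ _ (by omega) le_rfl (Or.inr (Or.inr ⟨rfl, rfl⟩))
      have s1 : Lk (elSet N pos ss (N + 1)) (x, 0, l) (x, 0, 1) := by
        refine Lk.seg (y1 := 0) (y2 := 0) ?_ le_rfl le_rfl le_rfl le_rfl h4 le_rfl hv m1
        intro z h9 h10
        have : z = 0 := by omega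
        subst this
        exact hmem _ _ (by omega) (by omega) (Or.inr (Or.inr ⟨rfl, rfl⟩))
      refine s1.trans (Lk.step ?_ m1 (hrow x h1 h2))
      rw [hp.bot]
      unfold RA Nat.dist
      dsimp only
      omega

theorem elSet_conn (hp : Pos N pos) (hok : ∀ x, (shp ss x).Ok N pos) (hf : Fits ss) {e : ℕ}
    (he : e < N + 2) : ∀ v ∈ elSet N pos ss e, Lk (elSet N pos ss e) v (1, pos e, 1) := by
  intro v hv
  obtain ⟨x, h1, h2, h3⟩ := elSet_row hp hok hf he v hv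
  refine h3.trans (Lk.symm ?_)
  exact Lk.horiz _ _ 1 x h1 (fun x' h4 h5 => row_mem hp he h4 (by omega))

theorem elSet_disj (hp : Pos N pos) (hok : ∀ x, (shp ss x).Ok N pos) {e e' : ℕ}
    (he : e < N + 2) (he' : e' < N + 2) (hne : e ≠ e') (v : ℕ × ℕ × ℕ)
    (h : v ∈ elSet N pos ss e) (h' : v ∈ elSet N pos ss e') : False :=
  own_disj hp (hok v.1) he he' hne h.2.2.2 h'.2.2.2

theorem elSet_idSet_disj (hp : Pos N pos) {e x : ℕ} (he : e < N + 2) (hx : shp ss x = .idn)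
    (v : ℕ × ℕ × ℕ) (h : v ∈ elSet N pos ss e) (h' : v ∈ idSet N x) : False := by
  obtain ⟨x', y, l⟩ := v
  obtain ⟨-, h1, h2, h3⟩ := h
  obtain ⟨h4, h5, h6, h7⟩ := h'
  dsimp only at *
  subst h4
  rw [hx] at h3
  have := hp.bd he
  rcases h3 with h3 | h3
  · omega
  · exact h3

theorem idSet_disj {x x' : ℕ} (hne : x ≠ x') (v : ℕ × ℕ × ℕ) (h : v ∈ idSet N x)
    (h' : v ∈ idSet N x') : False := hne (h.1.symm.trans h'.1)

/-- the upper terminals -/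
theorem upper_mem (hp : Pos N pos) (hok : ∀ x, (shp ss x).Ok N pos) {x a b : ℕ} (h1 : 1 ≤ x)
    (h2 : x ≤ ss.length) (hc : (shp ss x).col N = some (a, b)) {l : ℕ} (hl : l ≤ 1) :
    (x, N + 3, l) ∈ elSet N pos ss a := by
  refine ⟨⟨h1, h2⟩, le_rfl, hl, Or.inr ?_⟩
  dsimp only
  have hok' := hok x
  rcases hsx : shp ss x with _ | ⟨a', b'⟩ | ⟨a', b'⟩ | ⟨a', c⟩ | ⟨b', a'⟩ | ⟨c, a'⟩
  all_goals rw [hsx] at hc hok'
  all_goals simp only [Shape.col, Option.some.injEq, Prod.mk.injEq, reduceCtorEq] at hc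
  all_goals obtain ⟨rfl, rfl⟩ := hc
  all_goals simp only [Own]
  · have := hp.bd hok'.1
    exact Or.inl ⟨trivial, by omega, Or.inr trivial⟩
  · exact Or.inl ⟨trivial, by omega, Or.inr trivial⟩
  · exact Or.inl ⟨trivial, trivial⟩
  · have := hp.mid b' hok'.2.1
    exact Or.inl ⟨trivial, by omega, Or.inr trivial⟩
  · have := hp.mid c hok'.2.1
    exact Or.inl ⟨trivial, by omega, Or.inr trivial⟩

/-- the lower terminals -/
theorem lower_mem (hok : ∀ x, (shp ss x).Ok N pos) {x a b : ℕ} (h1 : 1 ≤ x)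
    (h2 : x ≤ ss.length) (hc : (shp ss x).col N = some (a, b)) {l : ℕ} (hl : l ≤ 1) :
    (x, 0, l) ∈ elSet N pos ss b := by
  refine ⟨⟨h1, h2⟩, by simp, hl, Or.inr ?_⟩
  dsimp only
  have hok' := hok x
  rcases hsx : shp ss x with _ | ⟨a', b'⟩ | ⟨a', b'⟩ | ⟨a', c⟩ | ⟨b', a'⟩ | ⟨c, a'⟩
  all_goals rw [hsx] at hc hok'
  all_goals simp only [Shape.col, Option.some.injEq, Prod.mk.injEq, reduceCtorEq] at hc
  all_goals obtain ⟨rfl, rfl⟩ := hc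
  all_goals simp only [Own]
  · exact Or.inr ⟨trivial, by omega, Or.inr trivial⟩
  · exact Or.inr ⟨trivial, by omega, Or.inr trivial⟩
  · exact Or.inr (Or.inr ⟨trivial, by omega, Or.inr trivial⟩)
  · exact Or.inr ⟨trivial, by omega, Or.inr trivial⟩
  · exact Or.inr (Or.inr ⟨trivial, trivial⟩)

end

end Pool.Agent.Helper64_Chan
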