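import Pool.Agent.Helper64_Chan.Flip

/-!
# Regions in which the passing nets stay on one layer
-/

namespace Pool.Agent.Helper64_Chan

namespace Region

variable {ι : Type} (R : Region ι)

/-- all walls are on the layer `!m₁` -/
theorem wall_layer_all (hm : R.m₂ = R.m₁) {z x y : ℤ} {l : Bool} (h1 : 1 ≤ y) (h2 : y ≤ R.w)
    (h : R.Mem (.inr z) (x, y, l)) : l = !R.m₁ := by
  by_cases hz : z < R.g
  · exact R.left_wall_layer h1 h2 h hz
  · rw [← hm]
    exact R.right_wall_layer h1 h2 h (by omega)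

theorem psi_zero_wall (hm : R.m₂ = R.m₁) {x y : ℤ} (h1 : 1 ≤ y) (h2 : y ≤ R.w)
    (h3 : R.f₁ ≤ x) (h4 : x ≤ R.f₂) (h : R.psi x y = 0) :
    ∃ z, R.Mem (.inr z) (x, y, !R.m₁) := by
  rw [R.psi_in h1 h2] at h
  have key : ∃ l, isW (R.own (x, y, l)) = 1 := by
    have h5 := isW_le (R.own (x, y, false))
    have h6 := isW_le (R.own (x, y, true))
    have h7 := isW_nonneg (R.own (x, y, false))
    have h8 := isW_nonneg (R.own (x, y, true))
    rcases (show isW (R.own (x, y, false)) = 1 ∨ isW (R.own (x, y, true)) = 1 by omega) with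
      h9 | h9
    · exact ⟨_, h9⟩
    · exact ⟨_, h9⟩
  obtain ⟨l, hl⟩ := key
  have h5 : ∃ z, R.Mem (.inr z) (x, y, l) := by
    rcases ho : R.own (x, y, l) with _ | (i | z)
    · rw [ho] at hl; simp [isW] at hl
    · rw [ho] at hl; simp [isW] at hl
    · exact ⟨z, h3, h4, by dsimp only; omega, by dsimp only; omega, ho⟩
  obtain ⟨z, h5⟩ := h5
  have h6 := R.wall_layer_all hm h1 h2 h5
  subst h6
  exact ⟨z, h5⟩

/-- in a cell with a wall the net is on the layer `m₁` -/
theorem net_layer (hm : R.m₂ = R.m₁) {i : ι} {x y : ℤ} {l : Bool} (h1 : 1 ≤ y) (h2 : y ≤ R.w)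
    (h : R.Mem (.inl i) (x, y, l)) (h0 : R.psi x y = 0) : l = R.m₁ := by
  obtain ⟨z, h3⟩ := R.psi_zero_wall hm h1 h2 h.1 h.2.1 h0
  by_contra hc
  have := bool_eq_not_of_ne hc
  subst this
  have := h.eq h3
  cases this

/-- The run lemma. -/
theorem run_lemma {q y₁ y₂ : ℤ} (hq1 : R.f₁ < q) (hq2 : q < R.f₂) (h1 : 1 ≤ y₁)
    (h2 : y₁ ≤ R.w) (h3 : 1 ≤ y₂) (h4 : y₂ ≤ R.w)
    (h5 : ∀ t, min y₁ y₂ ≤ t → t ≤ max y₁ y₂ → R.psi q t = 1) (h6 : R.psi (q - 1) y₁ = 1)
    (h7 : R.psi (q + 1) y₂ = 1) : False := by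
  have hs := R.hs
  have hf₁ := R.hf₁
  have hf₂ := R.hf₂
  have hnw : ∀ z x y l, 1 ≤ y → y ≤ R.w → R.Mem (.inr z) (x, y, l) → R.psi x y = 1 → False := by
    intro z x y l h8 h9 h10 h11
    have := R.psi_of_wall h10 h8 h9
    omega
  have hit : ∀ z, R.f₁ ≤ z → z ≤ R.f₂ → ¬ R.Fr z → ∃ x l, x ≠ q - 1 ∧ x ≠ q ∧ x ≠ q + 1 ∧
      R.Mem (.inr z) (x, (if x < q then y₁ else y₂), l) := by
    intro z h8 h9 h10
    obtain ⟨⟨x, y, l⟩, ⟨x', y', l'⟩, ha, hb, hn, hA, hB⟩ := R.cross (R.mem_bot h8 h9 h10 false)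
      (R.mem_top h8 h9 h10 false) (fun v => (v.1 < q → v.2.1 < y₁) ∧ (q < v.1 → v.2.1 < y₂) ∧
        (v.1 = q → v.2.1 < min y₁ y₂)) (by
          dsimp only
          exact ⟨fun _ => by omega, fun _ => by omega, fun _ => by omega⟩) (by
          dsimp only
          rintro ⟨h11, h12, h13⟩
          rcases lt_trichotomy z q with h | h | h
          · have := h11 h; omega
          · have := h13 h; omega
          · have := h12 h; omega)
    dsimp only at hA hB
    obtain ⟨hA1, hA2, hA3⟩ := hA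
    have key : (x' < q → y' = y₁) ∧ (q < x' → y' = y₂) ∧
        (x' = q → min y₁ y₂ ≤ y' ∧ y' ≤ max y₁ y₂) := by
      rcases hn with ⟨e1, e2, e3⟩ | ⟨e1, e2, e3⟩ | ⟨e1, e2, e3⟩ <;> simp only at e1 e2 e3 <;>
        omega
    have b1 : 1 ≤ y' ∧ y' ≤ R.w := by omega
    refine ⟨x', l', ?_, ?_, ?_, ?_⟩
    · rintro rfl
      have := key.1 (by omega)
      subst this
      exact hnw _ _ _ _ b1.1 b1.2 hb h6
    · rintro rfl
      have := key.2.2 rfl
      exact hnw _ _ _ _ b1.1 b1.2 hb (h5 _ this.1 this.2)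
    · rintro rfl
      have := key.2.1 (by omega)
      subst this
      exact hnw _ _ _ _ b1.1 b1.2 hb h7
    · by_cases hx : x' < q
      · rw [if_pos hx, ← key.1 hx]; exact hb
      · by_cases hx2 : x' = q
        · exfalso
          have := key.2.2 hx2
          rw [hx2] at hb
          exact hnw _ _ _ _ b1.1 b1.2 hb (h5 _ this.1 this.2)
        · rw [if_neg hx, ← key.2.1 (by omega)]; exact hb
  have hsub : (Finset.Icc R.f₁ R.f₂ \ Finset.Ico R.g (R.g + R.s)) ⊆
      (Finset.Icc R.f₁ R.f₂ \ {q - 1, q, q + 1}).biUnion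
        (fun x => R.wcell x (if x < q then y₁ else y₂)) := by
    intro z hz
    simp only [Finset.mem_sdiff, Finset.mem_Icc, Finset.mem_Ico] at hz
    obtain ⟨x, l, h8, h9, h10, h11⟩ := hit z hz.1.1 hz.1.2 hz.2
    rw [Finset.mem_biUnion]
    refine ⟨x, ?_, R.mem_wcell h11⟩
    simp only [Finset.mem_sdiff, Finset.mem_Icc, Finset.mem_insert, Finset.mem_singleton,
      not_or]
    exact ⟨⟨h11.1, h11.2.1⟩, h8, h9, h10⟩
  have h8 := (Finset.card_le_card hsub).trans Finset.card_biUnion_le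
  have h9 : Finset.Ico R.g (R.g + R.s) ⊆ Finset.Icc R.f₁ R.f₂ := by
    intro z hz
    simp only [Finset.mem_Icc, Finset.mem_Ico] at hz ⊢
    omega
  have h10 : ({q - 1, q, q + 1} : Finset ℤ) ⊆ Finset.Icc R.f₁ R.f₂ := by
    intro z hz
    simp only [Finset.mem_insert, Finset.mem_singleton] at hz
    simp only [Finset.mem_Icc]
    omega
  have h11 : ∑ x ∈ Finset.Icc R.f₁ R.f₂ \ {q - 1, q, q + 1},
      (R.wcell x (if x < q then y₁ else y₂)).card ≤
      ∑ x ∈ Finset.Icc R.f₁ R.f₂ \ {q - 1, q, q + 1}, 1 := by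
    apply Finset.sum_le_sum
    intro x hx
    simp only [Finset.mem_sdiff, Finset.mem_Icc] at hx
    have h12 := R.card_wcell (x := x) (y := if x < q then y₁ else y₂) hx.1.1 hx.1.2
    have h13 : 0 ≤ R.psi x (if x < q then y₁ else y₂) := by
      split_ifs
      · exact R.psi_nonneg (by omega) (by omega) hx.1.1 hx.1.2
      · exact R.psi_nonneg (by omega) (by omega) hx.1.1 hx.1.2
    omega
  rw [Finset.sum_const, smul_eq_mul, mul_one] at h11
  rw [Finset.card_sdiff_of_subset h9] at h8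
  rw [Finset.card_sdiff_of_subset h10, Finset.card_insert_of_notMem (by simp; omega),
    Finset.card_pair (by omega)] at h11
  simp only [Int.card_Icc, Int.card_Ico] at h8 h11
  omega

open Classical in
/-- a cut following column `q` -/
noncomputable def colPath (q y : ℤ) : ℤ :=
  if R.psi q y = 0 then q
  else if ∃ y', 1 ≤ y' ∧ y' ≤ R.w ∧ (∀ t, min y y' ≤ t → t ≤ max y y' → R.psi q t = 1) ∧
    R.psi (q + 1) y' = 1 then q - 1 else q + 1

theorem colPath_mem (q y : ℤ) : R.colPath q y = q ∨ R.colPath q y = q - 1 ∨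
    R.colPath q y = q + 1 := by
  unfold colPath
  split_ifs <;> simp

theorem colPath_PF {q : ℤ} (hq1 : R.f₁ ≤ q) (hq2 : q ≤ R.f₂) : R.PF (R.colPath q) := by
  have inner : ∀ y, 1 ≤ y → y ≤ R.w → R.psi q y ≠ 0 → R.f₁ < q ∧ q < R.f₂ := by
    intro y h1 h2 h3
    constructor
    · rcases eq_or_lt_of_le hq1 with h | h
      · exact absurd (by rw [← h]; exact R.psi_f₁ h1 h2) h3
      · exact h
    · rcases eq_or_lt_of_le hq2 with h | h
      · exact absurd (by rw [h]; exact R.psi_f₂ h1 h2) h3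
      · exact h
  refine ⟨⟨?_, ?_⟩, ?_⟩
  · intro y h1 h2
    by_cases c1 : R.psi q y = 0
    · have e1 : R.colPath q y = q := by unfold colPath; rw [if_pos c1]
      rcases R.colPath_mem q (y + 1) with h | h | h <;> rw [h, e1] <;> omega
    by_cases c2 : R.psi q (y + 1) = 0
    · have e1 : R.colPath q (y + 1) = q := by unfold colPath; rw [if_pos c2]
      rcases R.colPath_mem q y with h | h | h <;> rw [h, e1] <;> omega
    have d1 : R.psi q y = 1 := by
      rcases R.psi_cases (x := q) (y := y) (by omega) (by omega) hq1 hq2 with h | h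
      · exact absurd h c1
      · exact h
    have d2 : R.psi q (y + 1) = 1 := by
      rcases R.psi_cases (x := q) (y := y + 1) (by omega) (by omega) hq1 hq2 with h | h
      · exact absurd h c2
      · exact h
    have e : R.colPath q (y + 1) = R.colPath q y := by
      unfold colPath
      rw [if_neg c1, if_neg c2]
      congr 1
      apply propext
      constructor
      · rintro ⟨y', h3, h4, h5, h6⟩
        refine ⟨y', h3, h4, fun t h7 h8 => ?_, h6⟩
        by_cases ht : t = y
        · subst ht; exact d1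
        · exact h5 t (by omega) (by omega)
      · rintro ⟨y', h3, h4, h5, h6⟩
        refine ⟨y', h3, h4, fun t h7 h8 => ?_, h6⟩
        by_cases ht : t = y + 1
        · subst ht; exact d2
        · exact h5 t (by omega) (by omega)
    rw [e]
    omega
  · intro y h1 h2
    by_cases c1 : R.psi q y = 0
    · have e1 : R.colPath q y = q := by unfold colPath; rw [if_pos c1]
      rw [e1]; exact ⟨hq1, hq2⟩
    · have := inner y h1 h2 c1
      rcases R.colPath_mem q y with h | h | h <;> rw [h] <;> omega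
  · intro y h1 h2
    by_cases c1 : R.psi q y = 0
    · have e1 : R.colPath q y = q := by unfold colPath; rw [if_pos c1]
      rw [e1]; exact c1
    have hin := inner y h1 h2 c1
    have d1 : R.psi q y = 1 := by
      rcases R.psi_cases (x := q) (y := y) (by omega) (by omega) hq1 hq2 with h | h
      · exact absurd h c1
      · exact h
    by_cases c2 : ∃ y', 1 ≤ y' ∧ y' ≤ R.w ∧ (∀ t, min y y' ≤ t → t ≤ max y y' →
      R.psi q t = 1) ∧ R.psi (q + 1) y' = 1
    · have e1 : R.colPath q y = q - 1 := by unfold colPath; rw [if_neg c1, if_pos c2]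
      rw [e1]
      obtain ⟨y', h3, h4, h5, h6⟩ := c2
      rcases R.psi_cases (x := q - 1) (y := y) (by omega) (by omega) (by omega) (by omega) with
        h | h
      · exact h
      · exact (R.run_lemma hin.1 hin.2 h1 h2 h3 h4 h5 h h6).elim
    · have e1 : R.colPath q y = q + 1 := by unfold colPath; rw [if_neg c1, if_neg c2]
      rw [e1]
      rcases R.psi_cases (x := q + 1) (y := y) (by omega) (by omega) (by omega) (by omega) with
        h | h
      · exact h
      · exfalso
        apply c2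
        refine ⟨y, h1, h2, fun t h3 h4 => ?_, h⟩
        have : t = y := by omega
        subst this
        exact d1

/-- data for the comparison of two neighbouring columns -/
structure Stage (c : ℤ) (T : ℤ → ℤ) (ρ : ℤ → ι) : Prop where
  hm : R.m₂ = R.m₁
  hc1 : R.f₁ ≤ c
  hc2 : c < R.f₂
  H : ∀ x, R.f₁ ≤ x → x ≤ c → ∀ y, 1 ≤ y → y ≤ R.w → R.Mem (.inl (R.p₁ y)) (x, y, R.m₁)
  pf : R.PF T
  hT : ∀ y, 1 ≤ y → y ≤ R.w → T y = c ∨ T y = c + 1 ∨ T y = c + 2
  hρ : ∀ y, 1 ≤ y → y ≤ R.w → R.Mem (.inl (ρ y)) (T y, y, R.m₁)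
  hρ' : ∀ y, 1 ≤ y → y ≤ R.w → R.Mem (.inl (ρ y)) (c + 1, y, R.m₁)
  inj : ∀ y y', 1 ≤ y → y ≤ R.w → 1 ≤ y' → y' ≤ R.w → ρ y = ρ y' → y = y'
  surj : ∀ i, ∃ y, 1 ≤ y ∧ y ≤ R.w ∧ ρ y = i
  dev : ∀ y, 1 ≤ y → y ≤ R.w → ρ y ≠ R.p₁ y → R.Mem (.inl (R.p₁ y)) (c, y, !R.m₁) ∧
    R.Mem (.inl (ρ y)) (c + 1, y, !R.m₁) ∧ T y = c + 2

/-- existence of the stage data -/
theorem exists_stage (hm : R.m₂ = R.m₁) {c : ℤ} (hc1 : R.f₁ ≤ c) (hc2 : c < R.f₂)
    (H : ∀ x, R.f₁ ≤ x → x ≤ c → ∀ y, 1 ≤ y → y ≤ R.w → R.Mem (.inl (R.p₁ y)) (x, y, R.m₁)) :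
    ∃ T ρ, R.Stage c T ρ := by
  classical
  have pf := R.colPath_PF (q := c + 1) (by omega) (by omega)
  have pf0 := R.colPath_PF (q := c) (by omega) (by omega)
  have hT : ∀ y, R.colPath (c + 1) y = c ∨ R.colPath (c + 1) y = c + 1 ∨
      R.colPath (c + 1) y = c + 2 := by
    intro y
    rcases R.colPath_mem (c + 1) y with h | h | h <;> rw [h] <;> omega
  have hT0 := R.colPath_mem c
  generalize R.colPath (c + 1) = T at pf hT
  generalize R.colPath c = T0 at pf0 hT0
  have hex : ∀ y : ℤ, ∃ i : ι, 1 ≤ y → y ≤ R.w → R.Mem (.inl i) (T y, y, R.m₁) := by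
    intro y
    by_cases hy : 1 ≤ y ∧ y ≤ R.w
    · obtain ⟨i, l, h⟩ := pf.data.1 y hy.1 hy.2
      have := R.net_layer hm hy.1 hy.2 h (pf.2 y hy.1 hy.2)
      subst this
      exact ⟨i, fun _ _ => h⟩
    · exact ⟨R.p₁ 1, fun h1 h2 => absurd ⟨h1, h2⟩ hy⟩
  choose ρ hρ using hex
  have inj : ∀ y y', 1 ≤ y → y ≤ R.w → 1 ≤ y' → y' ≤ R.w → ρ y = ρ y' → y = y' := by
    intro y y' h1 h2 h3 h4 h5
    have h6 := hρ y h1 h2
    rw [h5] at h6
    exact (pf.data.2 _ y _ y' _ h1 h2 h3 h4 h6 (hρ y' h3 h4)).1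
  have surj : ∀ i, ∃ y, 1 ≤ y ∧ y ≤ R.w ∧ ρ y = i := by
    intro i
    obtain ⟨y, l, h1, h2, h3⟩ := R.TB_hit pf.1 i
    exact ⟨y, h1, h2, (R.net_unique (hρ y h1 h2) h3 h1 h2 (pf.2 y h1 h2)).1⟩
  have hρ' : ∀ y, 1 ≤ y → y ≤ R.w → R.Mem (.inl (ρ y)) (c + 1, y, R.m₁) := by
    intro y h1 h2
    have h3 := hρ y h1 h2
    rcases hT y with h | h | h
    · have h4 := pf.exit h1 h2 h3 (by omega)
      rw [h] at h4
      rcases h4 with h4 | ⟨-, h4, -⟩ | ⟨-, h4, -⟩
      · exact h4
      · have := hT (y + 1); omega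
      · have := hT (y - 1); omega
    · rw [h] at h3; exact h3
    · have h4 := pf.entry h1 h2 h3 (by omega)
      rw [h] at h4
      rcases h4 with h4 | ⟨-, h4, -⟩ | ⟨-, h4, -⟩
      · have e : c + 2 - 1 = c + 1 := by ring
        rw [e] at h4
        exact h4
      · have := hT (y + 1); omega
      · have := hT (y - 1); omega
  have eqc : ∀ y, 1 ≤ y → y ≤ R.w → ρ y ≠ R.p₁ y → T0 y = c - 1 := by
    intro y h1 h2 h3
    have h4 := H c hc1 le_rfl y h1 h2
    rcases hT0 y with h | h | h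
    · exfalso
      apply h3
      have h5 := pf0.exit (i := R.p₁ y) (l := R.m₁) h1 h2 (by rw [h]; exact h4) (by omega)
      rw [h] at h5
      rcases h5 with h5 | ⟨h5, -, h6⟩ | ⟨h5, -, h6⟩
      · exact Sum.inl.inj ((hρ' y h1 h2).eq h5)
      · have h7 := Sum.inl.inj (h6.eq (H c hc1 le_rfl (y + 1) (by omega) h5))
        have := R.inj₁ _ _ h1 h2 (by omega) h5 h7
        omega
      · have h7 := Sum.inl.inj (h6.eq (H c hc1 le_rfl (y - 1) h5 (by omega)))
        have := R.inj₁ _ _ h1 h2 h5 (by omega) h7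
        omega
    · exact h
    · exfalso
      apply h3
      obtain ⟨j, l, h5⟩ := pf0.data.1 y h1 h2
      have h6 := R.net_layer hm h1 h2 h5 (pf0.2 y h1 h2)
      subst h6
      have h7 := pf0.entry h1 h2 h5 (by omega)
      rw [h] at h5 h7
      have h8 := Sum.inl.inj (h5.eq (hρ' y h1 h2))
      subst h8
      rcases h7 with h7 | ⟨-, h7, -⟩ | ⟨-, h7, -⟩
      · rw [add_sub_cancel_right] at h7
        exact Sum.inl.inj (h7.eq h4)
      · have := hT0 (y + 1); omega
      · have := hT0 (y - 1); omega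
  refine ⟨T, ρ, hm, hc1, hc2, H, pf, fun y _ _ => hT y, hρ, hρ', inj, surj, ?_⟩
  intro y h1 h2 h3
  have hT0y := eqc y h1 h2 h3
  have hc3 : R.f₁ ≤ c - 1 := by
    have := (pf0.1.2 y h1 h2).1
    omega
  have HM := H (c - 1) hc3 (by omega) y h1 h2
  have HM0 : R.Mem (.inl (R.p₁ y)) (T0 y, y, R.m₁) := by rw [hT0y]; exact HM
  have HMc := H c hc1 le_rfl y h1 h2
  -- the vertex on the other layer in column c
  have part1 : R.Mem (.inl (R.p₁ y)) (c, y, !R.m₁) := by
    have hcut : R.TBcut (fun t => if t = y then c else T0 t) := by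
      constructor
      · intro t h4 h5
        dsimp only
        have a1 := pf0.1.1 t h4 h5
        by_cases c1 : t = y
        · subst c1
          rw [if_pos rfl, if_neg (by omega)]
          have := hT0 (t + 1)
          omega
        · rw [if_neg c1]
          by_cases c2 : t + 1 = y
          · rw [if_pos c2]
            rw [c2] at a1
            have := hT0 t
            omega
          · rw [if_neg c2]; exact a1
      · intro t h4 h5
        dsimp only
        split_ifs
        · omega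
        · exact pf0.1.2 t h4 h5
    obtain ⟨t, l, h4, h5, h6, h7⟩ := R.exit' hcut (R.p₁ y) (by
      intro t h4 h5 h6
      split_ifs with c1
      · exact hc2
      · rcases eq_or_lt_of_le (pf0.1.2 t h4 h5).2 with h7 | h7
        · have h8 := R.mem_p₂ h4 h5
          rw [h6, ← h7] at h8
          exact absurd (pf0.data.2 _ _ _ _ _ h4 h5 h1 h2 h8 HM0).1 c1
        · exact h7)
    by_cases c1 : t = y
    · subst c1
      simp only [if_true] at h6 h7
      by_cases hl : l = R.m₁
      · exfalso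
        subst hl
        rcases h7 with h7 | ⟨h7, -, h8⟩ | ⟨h7, -, h8⟩
        · exact h3 (Sum.inl.inj ((hρ' t h1 h2).eq h7))
        · have h9 := Sum.inl.inj (h8.eq (H c hc1 le_rfl (t + 1) (by omega) h7))
          have := R.inj₁ _ _ h1 h2 (by omega) h7 h9
          omega
        · have h9 := Sum.inl.inj (h8.eq (H c hc1 le_rfl (t - 1) h7 (by omega)))
          have := R.inj₁ _ _ h1 h2 h7 (by omega) h9
          omega
      · rw [bool_eq_not_of_ne hl] at h6
        exact h6
    · exfalso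
      rw [if_neg c1] at h6
      exact c1 (pf0.data.2 _ _ _ _ _ h4 h5 h1 h2 h6 HM0).1
  -- the vertex on the other layer in column c + 1
  have hTy : T y ≠ c := by
    intro h
    have h4 := hρ y h1 h2
    rw [h] at h4
    exact h3 (Sum.inl.inj (h4.eq HMc))
  have part2 : R.Mem (.inl (ρ y)) (c + 1, y, !R.m₁) := by
    have hcut : R.TBcut (fun t => if t = y then c + 1 else T t) := by
      constructor
      · intro t h4 h5
        dsimp only
        have a1 := pf.1.1 t h4 h5
        by_cases c1 : t = y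
        · subst c1
          rw [if_pos rfl, if_neg (by omega)]
          have := hT (t + 1)
          omega
        · rw [if_neg c1]
          by_cases c2 : t + 1 = y
          · rw [if_pos c2]
            rw [c2] at a1
            have := hT t
            have := hT y
            omega
          · rw [if_neg c2]; exact a1
      · intro t h4 h5
        dsimp only
        split_ifs
        · omega
        · exact pf.1.2 t h4 h5
    obtain ⟨t, l, h4, h5, h6, h7⟩ := R.entry' hcut (ρ y) (by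
      intro t h4 h5 h6
      split_ifs with c1
      · omega
      · rcases eq_or_lt_of_le (pf.1.2 t h4 h5).1 with h7 | h7
        · have h8 := R.mem_p₁ h4 h5
          rw [h6, h7] at h8
          exact absurd (pf.data.2 _ _ _ _ _ h4 h5 h1 h2 h8 (hρ y h1 h2)).1 c1
        · exact h7)
    by_cases c1 : t = y
    · subst c1
      simp only [if_true] at h6 h7
      by_cases hl : l = R.m₁
      · exfalso
        subst hl
        rcases h7 with h7 | ⟨h7, -, h8⟩ | ⟨h7, -, h8⟩
        · rw [add_sub_cancel_right] at h7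
          exact h3 (Sum.inl.inj (h7.eq HMc))
        · have h9 := Sum.inl.inj (h8.eq (hρ' (t + 1) (by omega) h7))
          have := inj _ _ h1 h2 (by omega) h7 h9
          omega
        · have h9 := Sum.inl.inj (h8.eq (hρ' (t - 1) h7 (by omega)))
          have := inj _ _ h1 h2 h7 (by omega) h9
          omega
      · rw [bool_eq_not_of_ne hl] at h6
        exact h6
    · exfalso
      rw [if_neg c1] at h6
      exact c1 (pf.data.2 _ _ _ _ _ h4 h5 h1 h2 h6 (hρ y h1 h2)).1
  refine ⟨part1, part2, ?_⟩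
  have h4 := R.psi_one_of_nets (hρ' y h1 h2) part2 h1 h2
  have h5 := pf.2 y h1 h2
  rcases hT y with h | h | h
  · exact absurd h hTy
  · rw [h, h4] at h5; omega
  · exact h

end Region

end Pool.Agent.Helper64_Chan
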